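import Pool.Agent.MP_961719_gt.Stable

set_option autoImplicit false

/-!
# Long chains of good pairs answering all requests
-/

namespace Pool.MP_961719_gt

open Set Topology Filter

universe u

open Cardinal in
theorem mk_iUnion_le_of {α ι : Type u} {κ : Cardinal.{u}} (hκ : ℵ₀ ≤ κ) (f : ι → Set α)
    (h1 : #ι ≤ κ) (h2 : ∀ i, #(f i) ≤ κ) : #(⋃ i, f i) ≤ κ := by
  refine (mk_iUnion_le f).trans ?_
  calc #ι * ⨆ i, #(f i) ≤ κ * κ := mul_le_mul' h1 (ciSup_le' h2)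
    _ = κ := mul_eq_self hκ

open Cardinal in
/-- Closing a set under operations with countably many arguments. -/
theorem exists_closed {Z Q : Type u} {κ : Cardinal.{u}} (hκ : ℵ₀ ≤ κ) (hκ2 : κ ^ ℵ₀ = κ)
    (hQ : #Q ≤ κ) (F : (ℕ → Z) → Q → Z) (S : Set Z) (hS : #S ≤ κ) :
    ∃ T, S ⊆ T ∧ #T ≤ κ ∧ ∀ c : ℕ → Z, (∀ n, c n ∈ T) → ∀ q, F c q ∈ T := by
  let β : S ⊕ Q → Type := Sum.elim (fun _ => PEmpty) (fun _ => ℕ)
  let g : (Σ a : S ⊕ Q, β a → Z) → Z := fun s => match s with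
    | ⟨Sum.inl z, _⟩ => z
    | ⟨Sum.inr q, c⟩ => F c q
  let ev : WType β → Z := WType.elim Z g
  have hW : #(WType β) ≤ κ := by
    apply WType.cardinalMk_le_of_le'
    refine (sum_le_mk_mul_iSup _).trans ?_
    have h1 : #(S ⊕ Q) ≤ κ := by
      rw [mk_sum, lift_id, lift_id]
      exact (add_le_add hS hQ).trans (add_eq_self hκ).le
    refine (mul_le_mul' h1 (ciSup_le' fun a => ?_)).trans (mul_eq_self hκ).le
    rcases a with a | a
    · have : #(β (Sum.inl a)) = 0 := by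
        simp [β]
      rw [this, lift_zero, power_zero]
      exact one_le_aleph0.trans hκ
    · have : #(β (Sum.inr a)) = ℵ₀ := by
        simp [β]
      rw [this, lift_aleph0, hκ2]
  refine ⟨range ev, fun z hz => ?_, mk_range_le.trans hW, fun c hc q => ?_⟩
  · exact ⟨WType.mk (Sum.inl ⟨z, hz⟩) PEmpty.elim, rfl⟩
  · choose w hw using hc
    refine ⟨WType.mk (Sum.inr q) w, ?_⟩
    have : ev (WType.mk (Sum.inr q) w) = F (fun n => ev (w n)) q := rfl
    rw [this]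
    congr 1
    funext n
    exact hw n

variable {X Y : Type u} [TopologicalSpace X] [TopologicalSpace Y]

omit [TopologicalSpace Y] in
open Cardinal in
/-- Every set of at most `κ` points is contained in a good pair of size at most `κ`. -/
theorem exists_good [CompactSpace X] [Nonempty X] [Nonempty Y] (e : X → Y → ℝ)
    {κ : Cardinal.{u}} (hc : continuum ≤ κ) (hκ2 : κ ^ ℵ₀ = κ) (S : Set (X ⊕ Y)) (hS : #S ≤ κ) :
    ∃ T : Set (X ⊕ Y), S ⊆ T ∧ #T ≤ κ ∧ Good e (Sum.inl ⁻¹' T) (Sum.inr ⁻¹' T) := by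
  classical
  have hκ : ℵ₀ ≤ κ := aleph0_le_continuum.trans hc
  let x₀ : X := Classical.arbitrary X
  let y₀ : Y := Classical.arbitrary Y
  have hcl : ∀ d : ℕ → X, ∃ x, MapClusterPt x atTop d := fun d => by
    obtain ⟨x, -, hx⟩ := isCompact_univ (X := X) (f := map d atTop) (by simp)
    exact ⟨x, hx⟩
  choose cl hcl using hcl
  let Q : Type u := ULift.{u} ((ℕ → ℝ) ⊕ ((ℕ → ℝ) ⊕ Unit))
  have hQ : #Q ≤ κ := by
    have : #Q = continuum := by
      simp only [Q, mk_uLift, mk_sum, mk_pi, mk_real, prod_const]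
      simp only [mk_nat, lift_id, continuum_power_aleph0, mk_fintype, Fintype.card_unit,
        Nat.cast_one, lift_continuum, lift_one, lift_add]
      rw [add_one_eq aleph0_le_continuum, continuum_add_self]
    rw [this]
    exact hc
  let F : (ℕ → X ⊕ Y) → Q → X ⊕ Y := fun c q => match q with
    | ⟨Sum.inl v⟩ => if h : ∃ x, ∀ n y, c n = Sum.inr y → e x y = v n then Sum.inl h.choose
        else Sum.inl x₀
    | ⟨Sum.inr (Sum.inl v)⟩ => if h : ∃ y, ∀ n x, c n = Sum.inl x → e x y = v n then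
        Sum.inr h.choose else Sum.inr y₀
    | ⟨Sum.inr (Sum.inr _)⟩ => Sum.inl (cl fun n => Sum.elim id (fun _ => x₀) (c n))
  have hS' : #(S ∪ {Sum.inl x₀, Sum.inr y₀} : Set (X ⊕ Y)) ≤ κ := by
    refine (mk_union_le _ _).trans ?_
    refine (add_le_add hS ?_).trans (add_eq_self hκ).le
    exact (Set.Finite.lt_aleph0 (by simp)).le.trans hκ
  obtain ⟨T, hST, hT, hF⟩ := exists_closed hκ hκ2 hQ F _ hS'
  refine ⟨T, fun z hz => hST (Or.inl hz), hT, ?_, ?_, ?_⟩
  · intro C hC hCc p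
    rcases C.eq_empty_or_nonempty with rfl | hne
    · exact ⟨x₀, hST (Or.inr (Or.inl rfl)), by simp⟩
    obtain ⟨c, rfl⟩ := hCc.exists_eq_range hne
    have h1 := hF (fun n => Sum.inr (c n)) (fun n => hC ⟨n, rfl⟩)
      ⟨Sum.inl fun n => e p (c n)⟩
    have h2 : ∃ x, ∀ n y, (Sum.inr (c n) : X ⊕ Y) = Sum.inr y → e x y = e p (c n) :=
      ⟨p, fun n y h => by rw [Sum.inr.inj h]⟩
    have h3 : F (fun n => Sum.inr (c n)) ⟨Sum.inl fun n => e p (c n)⟩ = Sum.inl h2.choose :=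
      dif_pos h2
    rw [h3] at h1
    refine ⟨h2.choose, h1, ?_⟩
    rintro _ ⟨n, rfl⟩
    exact h2.choose_spec n (c n) rfl
  · intro C hC hCc p
    rcases C.eq_empty_or_nonempty with rfl | hne
    · exact ⟨y₀, hST (Or.inr (Or.inr rfl)), by simp⟩
    obtain ⟨c, rfl⟩ := hCc.exists_eq_range hne
    have h1 := hF (fun n => Sum.inl (c n)) (fun n => hC ⟨n, rfl⟩)
      ⟨Sum.inr (Sum.inl fun n => e (c n) p)⟩
    have h2 : ∃ y, ∀ n x, (Sum.inl (c n) : X ⊕ Y) = Sum.inl x → e x y = e (c n) p :=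
      ⟨p, fun n x h => by rw [Sum.inl.inj h]⟩
    have h3 : F (fun n => Sum.inl (c n)) ⟨Sum.inr (Sum.inl fun n => e (c n) p)⟩ =
        Sum.inr h2.choose := dif_pos h2
    rw [h3] at h1
    refine ⟨h2.choose, h1, ?_⟩
    rintro _ ⟨n, rfl⟩
    exact h2.choose_spec n (c n) rfl
  · intro d hd
    have h1 := hF (fun n => Sum.inl (d n)) hd ⟨Sum.inr (Sum.inr ())⟩
    exact ⟨cl d, h1, hcl d⟩

omit [TopologicalSpace Y] in
open Cardinal in
/-- Long chains of good pairs answering all requests. -/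
theorem exists_chain [CompactSpace X] [Nonempty X] [Nonempty Y] (e : X → Y → ℝ)
    {κ : Cardinal.{u}} (hc : continuum ≤ κ) {N : Type u} [Infinite N] (hκN : κ ^ #N = κ)
    {ι : Type u} [LinearOrder ι] [WellFoundedLT ι] (hι : #ι ≤ κ)
    (Ans : Set (X ⊕ Y) → (N → Y) → (N → ℝ) → Set (X ⊕ Y)) (hAns : ∀ S C v, #(Ans S C v) ≤ κ) :
    ∃ A : ι → Set (X ⊕ Y), (∀ i j, i ≤ j → A i ⊆ A j) ∧ (∀ i, #(A i) ≤ κ) ∧
      (∀ i, Good e (Sum.inl ⁻¹' A i) (Sum.inr ⁻¹' A i)) ∧
      ∀ i j, i < j → ∀ C : N → Y, (∀ n, Sum.inr (C n) ∈ A i) → ∀ v, Ans (A i) C v ⊆ A j := by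
  have hκ : ℵ₀ ≤ κ := aleph0_le_continuum.trans hc
  have hκ2 : κ ^ ℵ₀ = κ := by
    apply le_antisymm
    · calc κ ^ ℵ₀ ≤ κ ^ #N := power_le_power_left (aleph0_pos.trans_le hκ).ne' (aleph0_le_mk N)
        _ = κ := hκN
    · calc κ = κ ^ (1 : Cardinal) := (power_one κ).symm
        _ ≤ κ ^ ℵ₀ := power_le_power_left (aleph0_pos.trans_le hκ).ne' one_le_aleph0
  let R : Set (X ⊕ Y) → Set (X ⊕ Y) := fun S =>
    ⋃ p : (N → (Sum.inr ⁻¹' S : Set Y)) × (N → ℝ), Ans S (fun n => (p.1 n).1) p.2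
  have hR : ∀ S : Set (X ⊕ Y), #S ≤ κ → #(R S) ≤ κ := by
    intro S hS
    refine mk_iUnion_le_of hκ _ ?_ fun p => hAns _ _ _
    have h1 : #(Sum.inr ⁻¹' S : Set Y) ≤ κ := (mk_preimage_of_injective _ _ Sum.inr_injective).trans hS
    have h2 : #(N → (Sum.inr ⁻¹' S : Set Y)) ≤ κ := by
      rw [mk_pi, prod_const, lift_id, lift_id]
      calc _ ≤ κ ^ #N := power_le_power_right h1
        _ = κ := hκN
    have h3 : #(N → ℝ) ≤ κ := by
      rw [mk_pi, prod_const, mk_real, lift_continuum, lift_uzero]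
      calc _ ≤ κ ^ #N := power_le_power_right hc
        _ = κ := hκN
    rw [mk_prod, lift_id, lift_id]
    exact (mul_le_mul' h2 h3).trans (mul_eq_self hκ).le
  obtain ⟨A, hA⟩ := exists_rec (ι := ι) (T := Set (X ⊕ Y))
    (fun i f t => #t ≤ κ ∧ Good e (Sum.inl ⁻¹' t) (Sum.inr ⁻¹' t) ∧ ∀ j < i, f j ⊆ t ∧ R (f j) ⊆ t)
    (by
      intro i f g t hfg h
      refine ⟨h.1, h.2.1, fun j hj => ?_⟩
      rw [← hfg j hj]
      exact h.2.2 j hj)
    (by
      intro i f h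
      have hS : #(⋃ j : Iio i, (f j ∪ R (f j)) : Set (X ⊕ Y)) ≤ κ := by
        refine mk_iUnion_le_of hκ _ ((mk_set_le _).trans hι) fun j => ?_
        exact (mk_union_le _ _).trans ((add_le_add (h j j.2).1 (hR _ (h j j.2).1)).trans
          (add_eq_self hκ).le)
      obtain ⟨T, hST, hT, hG⟩ := exists_good e hc hκ2 _ hS
      exact ⟨T, hT, hG, fun j hj => ⟨fun z hz => hST (mem_iUnion.mpr ⟨⟨j, hj⟩, Or.inl hz⟩),
        fun z hz => hST (mem_iUnion.mpr ⟨⟨j, hj⟩, Or.inr hz⟩)⟩⟩)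
  refine ⟨A, fun i j hij => ?_, fun i => (hA i).1, fun i => (hA i).2.1, fun i j hij C hC v => ?_⟩
  · rcases hij.eq_or_lt with rfl | hij
    · exact subset_rfl
    · exact ((hA j).2.2 i hij).1
  · refine subset_trans ?_ ((hA j).2.2 i hij).2
    exact subset_iUnion (fun p : (N → (Sum.inr ⁻¹' (A i) : Set Y)) × (N → ℝ) =>
      Ans (A i) (fun n => (p.1 n).1) p.2) (fun n => ⟨C n, hC n⟩, v)

open Cardinal in
/-- The index set of type `|N|⁺`. -/
theorem exists_idx (N : Type u) [Infinite N] {κ : Cardinal.{u}} (hc : continuum ≤ κ)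
    (hκN : κ ^ #N = κ) :
    ∃ (ι : Type u) (_ : LinearOrder ι) (_ : WellFoundedLT ι), Idx N ι ∧ #ι ≤ κ := by
  have hmk : #(Order.succ #N).ord.ToType = Order.succ #N := mk_ord_toType _
  refine ⟨(Order.succ #N).ord.ToType, inferInstance, inferInstance, ⟨?_, ?_, ?_⟩, ?_⟩
  · rw [← mk_ne_zero_iff, hmk]
    exact (Order.succ_ne_bot _)
  · intro f
    by_contra hcon
    push Not at hcon
    have h1 : IsCofinal (range f) := by
      intro b
      obtain ⟨n, hn⟩ := hcon b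
      exact ⟨f n, ⟨n, rfl⟩, hn⟩
    have h2 := Order.cof_le h1
    rw [Ordinal.cof_toType, (isRegular_succ (aleph0_le_mk N)).cof_ord] at h2
    exact absurd (h2.trans mk_range_le) (not_le.mpr (Order.lt_succ _))
  · intro i
    have h1 : #(Iio i) < #((Order.succ #N).ord.ToType) := by
      apply Cardinal.mk_Iio_lt
      simp
    rw [hmk, Order.lt_succ_iff] at h1
    have h2 : #(Iic i) ≤ #N := by
      rw [← Iio_union_right]
      refine (mk_union_le _ _).trans ?_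
      refine (add_le_add h1 ?_).trans (add_eq_self (aleph0_le_mk N)).le
      rw [mk_singleton]
      exact one_le_aleph0.trans (aleph0_le_mk N)
    obtain ⟨emb⟩ := h2
    have : Nonempty (Iic i) := ⟨⟨i, le_refl i⟩⟩
    refine ⟨fun n => (Function.invFun emb n).1, fun j hj => ⟨emb ⟨j, mem_Iic.mpr hj⟩, ?_⟩⟩
    have h3 := Function.leftInverse_invFun emb.injective ⟨j, mem_Iic.mpr hj⟩
    exact congrArg Subtype.val h3
  · rw [hmk, Order.succ_le_iff]
    calc #N < 2 ^ #N := cantor _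
      _ ≤ κ ^ #N := power_le_power_right
        (natCast_lt_aleph0.le.trans (aleph0_le_continuum.trans hc))
      _ = κ := hκN

end Pool.MP_961719_gt
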