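import Pool.Agent.MP_961719_gt.Stable

set_option autoImplicit false

/-!
# A point of countable pi-character
-/

namespace Pool.MP_961719_gt

open Set Topology Filter

universe u

variable {X Y : Type u} [TopologicalSpace X] [TopologicalSpace Y]

/-- Basic neighbourhoods of a point in terms of the pairing. -/
theorem exists_basic_nhd [CompactSpace X] {e : X → Y → ℝ} (he : Pairing e)
    (hsep : ∀ x x', (∀ y, e x y = e x' y) → x = x') {x₀ : X} {U : Set X} (hU : U ∈ 𝓝 x₀) :
    ∃ (F : Finset Y) (ε : ℝ), 0 < ε ∧ ∀ x, (∀ y ∈ F, |e x y - e x₀ y| < ε) → x ∈ U := by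
  classical
  by_contra hcon
  push Not at hcon
  have hK : IsCompact (interior U)ᶜ := isOpen_interior.isClosed_compl.isCompact
  obtain ⟨p, hp, hp2⟩ := hK.inter_iInter_nonempty
    (fun q : Y × ℕ => {p | |e p q.1 - e x₀ q.1| ≤ 1 / ((q.2 : ℝ) + 1)})
    (fun q => isClosed_le ((he.cx q.1).sub continuous_const).abs continuous_const)
    (by
      intro u
      obtain ⟨p, hp, hpU⟩ := hcon (u.image Prod.fst) (1 / (((u.image Prod.snd).sup id : ℕ) + 1))
        (by positivity)
      refine ⟨p, fun h => hpU (interior_subset h), ?_⟩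
      simp only [mem_iInter]
      intro q hq
      refine (hp q.1 (Finset.mem_image_of_mem _ hq)).le.trans ?_
      apply one_div_le_one_div_of_le (by positivity)
      have : q.2 ≤ (u.image Prod.snd).sup id :=
        Finset.le_sup (f := id) (Finset.mem_image_of_mem _ hq)
      have h2 : (q.2 : ℝ) ≤ ((u.image Prod.snd).sup id : ℕ) := by exact_mod_cast this
      linarith)
  simp only [mem_iInter] at hp2
  have : p = x₀ := by
    apply hsep
    intro y
    by_contra hne
    have hpos : 0 < |e p y - e x₀ y| := abs_pos.mpr (sub_ne_zero.mpr hne)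
    obtain ⟨n, hn⟩ := exists_nat_one_div_lt hpos
    exact absurd (hp2 (y, n)) (not_le.mpr hn)
  rw [this] at hp
  exact hp (mem_interior_iff_mem_nhds.mpr hU)

/-- The set `V` meets both sides of the gap `(r, s)` of `y`. -/
def Meets (e : X → Y → ℝ) (k : Y × ℚ × ℚ) (V : Set X) : Prop :=
  (∃ x ∈ V, e x k.1 < (k.2.1 : ℝ)) ∧ ∃ x ∈ V, (k.2.2 : ℝ) < e x k.1

omit [TopologicalSpace X] [TopologicalSpace Y] in
theorem Meets.mono {e : X → Y → ℝ} {k : Y × ℚ × ℚ} {V W : Set X} (h : Meets e k V)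
    (hVW : V ⊆ W) : Meets e k W := by
  obtain ⟨⟨x, hx, hx2⟩, x', hx', hx'2⟩ := h
  exact ⟨⟨x, hVW hx, hx2⟩, x', hVW hx', hx'2⟩

theorem exists_gaps [CompactSpace X] {e : X → Y → ℝ} (he : Pairing e)
    (hsep : ∀ x x', (∀ y, e x y = e x' y) → x = x') {I : Type*} (A : I → Set X)
    (hA : ∀ x : X, ∃ U ∈ 𝓝 x, ∀ i, (A i).Nonempty → ¬ A i ⊆ U) :
    ∃ K : Set (Y × ℚ × ℚ), K.Finite ∧ (∀ k ∈ K, k.2.1 < k.2.2) ∧
      ∀ i, (A i).Nonempty → ∃ k ∈ K, Meets e k (A i) := by
  classical
  choose U hU hU2 using hA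
  choose F ε hε hF using fun x => exists_basic_nhd he hsep (hU x)
  have hq : ∀ a b : ℝ, ∃ r s : ℚ, a < b → r < s ∧ a < r ∧ (s : ℝ) < b := by
    intro a b
    by_cases hab : a < b
    · obtain ⟨q, hq1, hq2⟩ := exists_rat_btwn hab
      obtain ⟨q', hq1', hq2'⟩ := exists_rat_btwn hq2
      exact ⟨q, q', fun _ => ⟨by exact_mod_cast hq1', hq1, hq2'⟩⟩
    · exact ⟨0, 0, fun h => absurd h hab⟩
  choose r s hrs using hq
  let k1 : X → Y → Y × ℚ × ℚ := fun x y =>
    (y, r (e x y + ε x / 2) (e x y + ε x), s (e x y + ε x / 2) (e x y + ε x))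
  let k2 : X → Y → Y × ℚ × ℚ := fun x y =>
    (y, r (e x y - ε x) (e x y - ε x / 2), s (e x y - ε x) (e x y - ε x / 2))
  obtain ⟨u, hu⟩ := CompactSpace.elim_nhds_subcover
    (fun x => {p | ∀ y ∈ F x, |e p y - e x y| < ε x / 2})
    (fun x => by
      have : {p | ∀ y ∈ F x, |e p y - e x y| < ε x / 2} =
          ⋂ y ∈ F x, {p | |e p y - e x y| < ε x / 2} := by
        ext p
        simp
      show {p | ∀ y ∈ F x, |e p y - e x y| < ε x / 2} ∈ 𝓝 x
      rw [this]
      refine (Finset.iInter_mem_sets _).mpr fun y _ => ?_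
      refine ((he.cx y).sub continuous_const).abs.continuousAt.eventually_lt
        continuousAt_const ?_
      show |e x y - e x y| < ε x / 2
      rw [sub_self, abs_zero]
      exact half_pos (hε x))
  refine ⟨⋃ x ∈ u, ⋃ y ∈ F x, {k1 x y, k2 x y}, ?_, ?_, ?_⟩
  · refine (Finset.finite_toSet u).biUnion fun x _ => (Finset.finite_toSet (F x)).biUnion
      fun y _ => by simp
  · intro k hk
    simp only [mem_iUnion, mem_insert_iff, mem_singleton_iff] at hk
    obtain ⟨x, -, y, -, rfl | rfl⟩ := hk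
    · exact (hrs _ _ (by linarith [hε x])).1
    · exact (hrs _ _ (by linarith [hε x])).1
  · intro i hi
    obtain ⟨a, ha⟩ := hi
    have ha2 : a ∈ ⋃ x ∈ u, {p | ∀ y ∈ F x, |e p y - e x y| < ε x / 2} := by
      rw [hu]; trivial
    simp only [mem_iUnion, mem_ofPred_eq] at ha2
    obtain ⟨x, hx, hax⟩ := ha2
    obtain ⟨b, hb, hbU⟩ := not_subset.mp (hU2 x i ⟨a, ha⟩)
    have hb2 : ∃ y ∈ F x, ε x ≤ |e b y - e x y| := by
      by_contra hc
      push Not at hc
      exact hbU (hF x b hc)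
    obtain ⟨y, hy, hby⟩ := hb2
    have hay := abs_lt.mp (hax y hy)
    rcases le_abs.mp hby with h | h
    · obtain ⟨h1, h2, h3⟩ := hrs (e x y + ε x / 2) (e x y + ε x) (by linarith [hε x])
      refine ⟨k1 x y, ?_, ⟨a, ha, ?_⟩, b, hb, ?_⟩
      · simp only [mem_iUnion]
        exact ⟨x, hx, y, hy, Or.inl rfl⟩
      · show e a y < _
        linarith
      · show _ < e b y
        linarith
    · obtain ⟨h1, h2, h3⟩ := hrs (e x y - ε x) (e x y - ε x / 2) (by linarith [hε x])
      refine ⟨k2 x y, ?_, ⟨b, hb, ?_⟩, a, ha, ?_⟩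
      · simp only [mem_iUnion]
        exact ⟨x, hx, y, hy, Or.inr rfl⟩
      · show e b y < _
        linarith
      · show _ < e a y
        linarith

omit [TopologicalSpace X] [TopologicalSpace Y] in
/-- Refining a condition so that one gap works for all extensions. -/
theorem exists_refine {I : Type*} [Preorder I] {e : X → Y → ℝ} {A : I → Set X}
    (hA : ∀ i j, i ≤ j → A j ⊆ A i) (K : Finset (Y × ℚ × ℚ)) :
    ∀ i₀, (A i₀).Nonempty → (∀ i, i₀ ≤ i → (A i).Nonempty → ∃ k ∈ K, Meets e k (A i)) →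
      ∃ k ∈ K, ∃ i, i₀ ≤ i ∧ (A i).Nonempty ∧ ∀ j, i ≤ j → (A j).Nonempty → Meets e k (A j) := by
  classical
  induction K using Finset.induction_on with
  | empty =>
    intro i₀ h0 h
    obtain ⟨k, hk, -⟩ := h i₀ le_rfl h0
    exact absurd hk (Finset.notMem_empty k)
  | insert k K _ ih =>
    intro i₀ h0 h
    by_cases hk : ∃ i, i₀ ≤ i ∧ (A i).Nonempty ∧ ∀ j, i ≤ j → (A j).Nonempty → Meets e k (A j)
    · exact ⟨k, Finset.mem_insert_self _ _, hk⟩
    · push Not at hk
      obtain ⟨j, hj, hj2, hj3⟩ := hk i₀ le_rfl h0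
      obtain ⟨k', hk', i, hi, hi2, hi3⟩ := ih j hj2 (by
        intro i hi hi2
        obtain ⟨k', hk', hm⟩ := h i (hj.trans hi) hi2
        rcases Finset.mem_insert.mp hk' with rfl | hk'
        · exact absurd (hm.mono (hA j i hi)) hj3
        · exact ⟨k', hk', hm⟩)
      exact ⟨k', Finset.mem_insert_of_mem hk', i, hj.trans hi, hi2, hi3⟩

/-- The open half space of a gap. -/
def Half (e : X → Y → ℝ) (k : Y × ℚ × ℚ) (b : Bool) : Set X :=
  if b then {x | (k.2.2 : ℝ) < e x k.1} else {x | e x k.1 < (k.2.1 : ℝ)}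

omit [TopologicalSpace Y] in
theorem isOpen_half {e : X → Y → ℝ} (hx : ∀ y, Continuous fun x => e x y) (k : Y × ℚ × ℚ)
    (b : Bool) : IsOpen (Half e k b) := by
  cases b
  · exact isOpen_lt (hx _) continuous_const
  · exact isOpen_lt continuous_const (hx _)

omit [TopologicalSpace X] [TopologicalSpace Y] in
theorem Meets.half {e : X → Y → ℝ} {k : Y × ℚ × ℚ} {V : Set X} (h : Meets e k V) (b : Bool) :
    (V ∩ Half e k b).Nonempty := by
  obtain ⟨⟨x, hx, hx2⟩, x', hx', hx'2⟩ := h
  cases b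
  · exact ⟨x, hx, hx2⟩
  · exact ⟨x', hx', hx'2⟩

/-- The finite intersections of half spaces. -/
def Cell (e : X → Y → ℝ) (f : Om1 → (Y × ℚ × ℚ) × Finset (Om1 × Bool))
    (τ : Finset (Om1 × Bool)) : Set X :=
  {x | ∀ p ∈ τ, x ∈ Half e (f p.1).1 p.2}

omit [TopologicalSpace Y] in
theorem isOpen_cell {e : X → Y → ℝ} (hx : ∀ y, Continuous fun x => e x y)
    (f : Om1 → (Y × ℚ × ℚ) × Finset (Om1 × Bool)) (τ : Finset (Om1 × Bool)) :
    IsOpen (Cell e f τ) := by
  have : Cell e f τ = ⋂ p ∈ τ, Half e (f p.1).1 p.2 := by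
    ext x
    simp [Cell]
  rw [this]
  exact isOpen_biInter_finset fun p _ => isOpen_half hx _ _

omit [TopologicalSpace X] [TopologicalSpace Y] in
theorem cell_anti {e : X → Y → ℝ} {f : Om1 → (Y × ℚ × ℚ) × Finset (Om1 × Bool)}
    {σ τ : Finset (Om1 × Bool)} (h : σ ⊆ τ) : Cell e f τ ⊆ Cell e f σ :=
  fun _ hx p hp => hx p (h hp)

omit [TopologicalSpace X] [TopologicalSpace Y] in
theorem cell_congr {e : X → Y → ℝ} {f g : Om1 → (Y × ℚ × ℚ) × Finset (Om1 × Bool)} {i : Om1}
    (hfg : ∀ j < i, f j = g j) {τ : Finset (Om1 × Bool)} (hτ : ∀ p ∈ τ, p.1 < i) :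
    Cell e f τ = Cell e g τ := by
  ext x
  refine forall₂_congr fun p hp => ?_
  rw [hfg p.1 (hτ p hp)]

/-- The dichotomy family. -/
theorem exists_family [CompactSpace X] [Nonempty X] {e : X → Y → ℝ} (he : Pairing e)
    (hsep : ∀ x x', (∀ y, e x y = e x' y) → x = x')
    (hπ : ∀ (x : X) (V : ℕ → Set X), (∀ n, IsOpen (V n) ∧ (V n).Nonempty) →
      ∃ U ∈ 𝓝 x, ∀ n, ¬ V n ⊆ U) :
    ∃ f : Om1 → (Y × ℚ × ℚ) × Finset (Om1 × Bool), ∀ i,
      (f i).1.2.1 < (f i).1.2.2 ∧ (∀ p ∈ (f i).2, p.1 < i) ∧ (Cell e f (f i).2).Nonempty ∧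
      ∀ τ : Finset (Om1 × Bool), (∀ p ∈ τ, p.1 < i) → (f i).2 ⊆ τ → (Cell e f τ).Nonempty →
        Meets e (f i).1 (Cell e f τ) := by
  classical
  -- `Y` is nonempty
  have hY : Nonempty Y := by
    by_contra hY
    rw [not_nonempty_iff] at hY
    obtain ⟨x⟩ : Nonempty X := inferInstance
    obtain ⟨U, hU, hU2⟩ := hπ x (fun _ => univ) fun _ => ⟨isOpen_univ, ⟨x, trivial⟩⟩
    apply hU2 0
    intro p _
    have : p = x := hsep p x fun y => (hY.false y).elim
    rw [this]
    exact mem_of_mem_nhds hU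
  have : Nonempty ((Y × ℚ × ℚ) × Finset (Om1 × Bool)) := ⟨((Classical.arbitrary Y, 0, 0), ∅)⟩
  refine exists_rec (ι := Om1) (T := (Y × ℚ × ℚ) × Finset (Om1 × Bool))
    (fun i f t => t.1.2.1 < t.1.2.2 ∧ (∀ p ∈ t.2, p.1 < i) ∧ (Cell e f t.2).Nonempty ∧
      ∀ τ : Finset (Om1 × Bool), (∀ p ∈ τ, p.1 < i) → t.2 ⊆ τ → (Cell e f τ).Nonempty →
        Meets e t.1 (Cell e f τ)) ?_ ?_
  · intro i f g t hfg h
    refine ⟨h.1, h.2.1, ?_, fun τ hτ ht hne => ?_⟩
    · rw [← cell_congr hfg h.2.1]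
      exact h.2.2.1
    · rw [← cell_congr hfg hτ] at hne ⊢
      exact h.2.2.2 τ hτ ht hne
  · intro i f _
    let I := {τ : Finset (Om1 × Bool) // ∀ p ∈ τ, p.1 < i}
    have hI : Countable I := by
      have : Countable (Iio i) := Om1.countable_Iio i
      have hinj : Function.Injective (fun τ : I =>
          (τ.1.subtype (fun p : Om1 × Bool => p.1 < i))) := by
        intro τ τ' h
        have h1 := congrArg (Finset.map (Function.Embedding.subtype _)) h
        simp only [Finset.subtype_map] at h1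
        rw [Finset.filter_true_of_mem τ.2, Finset.filter_true_of_mem τ'.2] at h1
        exact Subtype.ext h1
      have hc : Countable {p : Om1 × Bool // p.1 < i} := by
        have : Function.Injective (fun p : {p : Om1 × Bool // p.1 < i} =>
            ((⟨p.1.1, p.2⟩ : Iio i), p.1.2)) := by
          rintro ⟨⟨a, b⟩, h⟩ ⟨⟨a', b'⟩, h'⟩ heq
          have h1 : a = a' := congrArg (fun q : Iio i × Bool => (q.1.1 : Om1)) heq
          have h2 : b = b' := congrArg (fun q : Iio i × Bool => q.2) heq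
          subst h1 h2
          rfl
        exact this.countable
      exact hinj.countable
    have h0 : ∀ p ∈ (∅ : Finset (Om1 × Bool)), p.1 < i := by simp
    have hne0 : (Cell e f ∅).Nonempty := ⟨Classical.arbitrary X, by simp [Cell]⟩
    have hA : ∀ x : X, ∃ U ∈ 𝓝 x, ∀ τ : I, (Cell e f τ.1).Nonempty → ¬ Cell e f τ.1 ⊆ U := by
      intro x
      let 𝓥 : Set (Set X) := {V | ∃ τ : I, (Cell e f τ.1).Nonempty ∧ V = Cell e f τ.1}
      have h1 : 𝓥.Countable := by
        refine (countable_range (fun τ : I => Cell e f τ.1)).mono ?_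
        rintro V ⟨τ, -, rfl⟩
        exact ⟨τ, rfl⟩
      obtain ⟨V, hV⟩ := h1.exists_eq_range ⟨_, ⟨∅, h0⟩, hne0, rfl⟩
      have h2 : ∀ n, IsOpen (V n) ∧ (V n).Nonempty := by
        intro n
        have : V n ∈ 𝓥 := by rw [hV]; exact ⟨n, rfl⟩
        obtain ⟨τ, hτ, heq⟩ := this
        rw [heq]
        exact ⟨isOpen_cell he.cx f τ.1, hτ⟩
      obtain ⟨U, hU, hU2⟩ := hπ x V h2
      refine ⟨U, hU, fun τ hτ => ?_⟩
      have : Cell e f τ.1 ∈ 𝓥 := ⟨τ, hτ, rfl⟩
      rw [hV] at this
      obtain ⟨n, hn⟩ := this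
      rw [← hn]
      exact hU2 n
    obtain ⟨K, hK, hK2, hK3⟩ := exists_gaps he hsep (fun τ : I => Cell e f τ.1) hA
    obtain ⟨k, hk, τ, -, hτ, hτ2⟩ := exists_refine (I := I) (A := fun τ => Cell e f τ.1)
      (fun i j hij => cell_anti hij) hK.toFinset ⟨∅, h0⟩ hne0 (fun τ _ hτ => by
        obtain ⟨k, hk, hk2⟩ := hK3 τ hτ
        exact ⟨k, hK.mem_toFinset.mpr hk, hk2⟩)
    exact ⟨(k, τ.1), hK2 k (hK.mem_toFinset.mp hk), τ.2, hτ, fun τ' hτ' hsub hne =>
      hτ2 ⟨τ', hτ'⟩ hsub hne⟩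

/-- Pressing down for regressive finite sets. -/
theorem exists_stationary (σ : Om1 → Finset (Om1 × Bool)) (hσ : ∀ i, ∀ p ∈ σ i, p.1 < i) :
    ∃ δ, ∀ b, ∃ i, b < i ∧ ∀ p ∈ σ i, p.1 < δ := by
  by_contra hcon
  push Not at hcon
  choose b hb using hcon
  obtain ⟨i₀⟩ : Nonempty Om1 := inferInstance
  have h1 : ∀ j : Om1, ∃ t, j < t ∧ ∀ k ≤ j, b k < t := by
    intro j
    obtain ⟨t, ht⟩ := Om1.bdd (S := {j} ∪ b '' Iic j)
      ((countable_singleton j).union ((Om1.countable_Iic j).image b))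
    exact ⟨t, ht _ (Or.inl rfl), fun k hk => ht _ (Or.inr ⟨k, hk, rfl⟩)⟩
  choose t ht1 ht2 using h1
  let s : ℕ → Om1 := fun n => t^[n] i₀
  have hs : ∀ n, s (n + 1) = t (s n) := fun n => Function.iterate_succ_apply' t n i₀
  have hmono : Monotone s := monotone_nat_of_le_succ fun n => by rw [hs]; exact (ht1 _).le
  obtain ⟨B, hB⟩ := Om1.bdd (countable_range s)
  have hne : {j | ∀ n, s n < j}.Nonempty := ⟨B, fun n => hB _ ⟨n, rfl⟩⟩
  let γ := (wellFounded_lt (α := Om1)).min {j | ∀ n, s n < j} hne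
  have hγ : ∀ n, s n < γ := (wellFounded_lt (α := Om1)).min_mem _ hne
  have hmin : ∀ j < γ, ∃ n, j ≤ s n := by
    intro j hj
    by_contra hc
    push Not at hc
    exact (wellFounded_lt (α := Om1)).not_lt_min {j | ∀ n, s n < j} hc hj
  have h2 : ∀ j < γ, b j < γ := by
    intro j hj
    obtain ⟨n, hn⟩ := hmin j hj
    have := ht2 (s n) j hn
    rw [← hs] at this
    exact this.trans (hγ (n + 1))
  have h3 : ∃ δ < γ, ∀ p ∈ σ γ, p.1 < δ := by
    have h4 : ∀ p : σ γ, ∃ n, (p : Om1 × Bool).1 ≤ s n := fun p => hmin _ (hσ γ p p.2)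
    choose n hn using h4
    let M := (Finset.univ : Finset (σ γ)).sup n
    refine ⟨s (M + 1), hγ _, fun p hp => ?_⟩
    have h5 : n ⟨p, hp⟩ ≤ M := Finset.le_sup (Finset.mem_univ _)
    calc p.1 ≤ s (n ⟨p, hp⟩) := hn ⟨p, hp⟩
      _ ≤ s M := hmono h5
      _ < s (M + 1) := by rw [hs]; exact ht1 _
  obtain ⟨δ, hδ, hδ2⟩ := h3
  obtain ⟨p, hp, hp2⟩ := hb δ γ (h2 δ hδ)
  exact absurd (hδ2 p hp) (not_lt.mpr hp2)

/-- A compact space with a Lindelöf separating pairing has a point of countable pi-character. -/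
theorem exists_pi_base [CompactSpace X] [LindelofSpace Y] [Nonempty X] {e : X → Y → ℝ}
    (he : Pairing e) (hsep : ∀ x x', (∀ y, e x y = e x' y) → x = x') :
    ∃ (x : X) (V : ℕ → Set X), (∀ n, IsOpen (V n) ∧ (V n).Nonempty) ∧
      ∀ U ∈ 𝓝 x, ∃ n, V n ⊆ U := by
  classical
  by_contra hcon
  push Not at hcon
  obtain ⟨f, hf⟩ := exists_family he hsep hcon
  obtain ⟨δ, hδ⟩ := exists_stationary (fun i => (f i).2) fun i => (hf i).2.1
  -- an uncountable set on which the data are constant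
  obtain ⟨r, s, σ, hT⟩ : ∃ (r s : ℚ) (σ : Finset (Om1 × Bool)),
      ¬ {i | (f i).1.2.1 = r ∧ (f i).1.2.2 = s ∧ (f i).2 = σ}.Countable := by
    by_contra hc
    push Not at hc
    let I := {τ : Finset (Om1 × Bool) // ∀ p ∈ τ, p.1 < δ}
    have hI : Countable I := by
      have : Countable (Iio δ) := Om1.countable_Iio δ
      have hinj : Function.Injective (fun τ : I =>
          (τ.1.subtype (fun p : Om1 × Bool => p.1 < δ))) := by
        intro τ τ' h
        have h1 := congrArg (Finset.map (Function.Embedding.subtype _)) h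
        simp only [Finset.subtype_map] at h1
        rw [Finset.filter_true_of_mem τ.2, Finset.filter_true_of_mem τ'.2] at h1
        exact Subtype.ext h1
      have hc : Countable {p : Om1 × Bool // p.1 < δ} := by
        have : Function.Injective (fun p : {p : Om1 × Bool // p.1 < δ} =>
            ((⟨p.1.1, p.2⟩ : Iio δ), p.1.2)) := by
          rintro ⟨⟨a, b⟩, h⟩ ⟨⟨a', b'⟩, h'⟩ heq
          have h1 : a = a' := congrArg (fun q : Iio δ × Bool => (q.1.1 : Om1)) heq
          have h2 : b = b' := congrArg (fun q : Iio δ × Bool => q.2) heq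
          subst h1 h2
          rfl
        exact this.countable
      exact hinj.countable
    have h1 : (⋃ q : ℚ × ℚ × I, {i | (f i).1.2.1 = q.1 ∧ (f i).1.2.2 = q.2.1 ∧
        (f i).2 = q.2.2.1}).Countable := countable_iUnion fun q => hc _ _ _
    have h2 : {i | ∀ p ∈ (f i).2, p.1 < δ}.Countable := by
      refine h1.mono fun i hi => ?_
      exact mem_iUnion.mpr ⟨((f i).1.2.1, (f i).1.2.2, ⟨(f i).2, hi⟩), rfl, rfl, rfl⟩
    obtain ⟨b, hb⟩ := Om1.bdd h2
    obtain ⟨i, hi, hi2⟩ := hδ b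
    exact absurd (hb i hi2) (not_lt.mpr hi.le)
  set T : Set Om1 := {i | (f i).1.2.1 = r ∧ (f i).1.2.2 = s ∧ (f i).2 = σ} with hTdef
  have hTu : Uncountable T := by
    rw [← not_countable_iff]
    exact fun h => hT (Set.countable_coe_iff.mp h)
  have hrs : r < s := by
    obtain ⟨⟨i, hi⟩⟩ : Nonempty T := inferInstance
    have := (hf i).1
    rwa [hi.1, hi.2.1] at this
  -- independence
  have hind : ∀ (φ : Om1 → Bool) (G : Finset Om1), (∀ i ∈ G, i ∈ T) →
      (Cell e f (σ ∪ G.image fun i => (i, φ i))).Nonempty := by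
    intro φ G
    induction G using Finset.induction_on_max with
    | empty =>
      intro _
      obtain ⟨⟨i, hi⟩⟩ : Nonempty T := inferInstance
      have := (hf i).2.2.1
      rw [hi.2.2] at this
      simpa using this
    | insert a G ha ih =>
      intro hG
      have haT : a ∈ T := hG a (Finset.mem_insert_self _ _)
      have h1 := ih fun i hi => hG i (Finset.mem_insert_of_mem hi)
      have h2 := (hf a).2.2.2 (σ ∪ G.image fun i => (i, φ i)) (by
        intro p hp
        rcases Finset.mem_union.mp hp with hp | hp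
        · exact (hf a).2.1 p (by rw [haT.2.2]; exact hp)
        · obtain ⟨i, hi, rfl⟩ := Finset.mem_image.mp hp
          exact ha i hi) (by rw [haT.2.2]; exact Finset.subset_union_left) h1
      obtain ⟨x, hx, hx2⟩ := h2.half (φ a)
      refine ⟨x, fun p hp => ?_⟩
      rw [Finset.image_insert] at hp
      rcases Finset.mem_union.mp hp with hp | hp
      · exact hx p (Finset.mem_union_left _ hp)
      · rcases Finset.mem_insert.mp hp with rfl | hp
        · exact hx2
        · exact hx p (Finset.mem_union_right _ hp)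
  have hpt : ∀ β : Om1, ∃ x, ∀ α : T, (β < α → (s : ℝ) ≤ e x (f α).1.1) ∧
      ((α : Om1) < β → e x (f α).1.1 ≤ r) := by
    intro β
    obtain ⟨x, -, hx⟩ := (isCompact_univ (X := X)).inter_iInter_nonempty
      (fun α : T => {x | (β < α → (s : ℝ) ≤ e x (f α).1.1) ∧
        ((α : Om1) < β → e x (f α).1.1 ≤ r)})
      (fun α => by
        refine IsClosed.inter ?_ ?_
        · by_cases h : β < α
          · simp only [h, true_imp_iff]
            exact isClosed_le continuous_const (he.cx _)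
          · simp only [h, false_imp_iff]
            exact isClosed_univ
        · by_cases h : (α : Om1) < β
          · simp only [h, true_imp_iff]
            exact isClosed_le (he.cx _) continuous_const
          · simp only [h, false_imp_iff]
            exact isClosed_univ)
      (by
        intro u
        obtain ⟨x, hx⟩ := hind (fun α => decide (β < α)) (u.image Subtype.val) (by
          intro i hi
          obtain ⟨j, -, rfl⟩ := Finset.mem_image.mp hi
          exact j.2)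
        refine ⟨x, mem_univ _, ?_⟩
        simp only [mem_iInter]
        intro α hα
        have h1 := hx (α, decide (β < α)) (Finset.mem_union_right _
          (Finset.mem_image.mpr ⟨α, Finset.mem_image.mpr ⟨α, hα, rfl⟩, rfl⟩))
        constructor
        · intro hlt
          rw [decide_eq_true hlt] at h1
          have h2 : ((f α).1.2.2 : ℝ) < e x (f α).1.1 := h1
          rw [α.2.2.1] at h2
          exact h2.le
        · intro hlt
          rw [decide_eq_false (not_lt.mpr hlt.le)] at h1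
          have h2 : e x (f α).1.1 < ((f α).1.2.1 : ℝ) := h1
          rw [α.2.1] at h2
          exact h2.le)
    simp only [mem_iInter] at hx
    exact ⟨x, hx⟩
  choose x hx using hpt
  refine no_pattern he (ι := T) ?_ (fun i => x i) (fun i => (f i).1.1)
    (r := (r : ℝ)) (s := (s : ℝ)) (by exact_mod_cast hrs) ?_ ?_
  · intro i
    have : (Iic i) = Subtype.val ⁻¹' (Iic (i : Om1)) := by
      ext j
      simp
    rw [this]
    exact (Om1.countable_Iic i).preimage Subtype.val_injective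
  · intro i j hij
    exact (hx i j).1 hij
  · intro i j hij
    exact (hx i j).2 hij

end Pool.MP_961719_gt
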