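import Pool.Agent.MP_961719_gt.Tame
import Pool.Agent.MP_961719_gt.PiChar

set_option autoImplicit false

/-!
# Cardinality of homogeneous compacta in `C_p` of a Lindelöf space
-/

namespace Pool.MP_961719_gt

open Set Topology Filter Cardinal

universe u

/-- The number of points of a homogeneous space with a point of countable pi-character. -/
theorem mk_le_of_homogeneous {X : Type u} [TopologicalSpace X] [T2Space X] {D : Set X}
    (hD : ∀ x, x ∈ closure D) {x₀ : X} {V : ℕ → Set X} (hV : ∀ n, IsOpen (V n) ∧ (V n).Nonempty)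
    (hπ : ∀ U ∈ 𝓝 x₀, ∃ n, V n ⊆ U) (hom : ∀ x y : X, ∃ h : X ≃ₜ X, h x = y) :
    #X ≤ #D ^ ℵ₀ := by
  choose h hh using fun x => hom x₀ x
  have h1 : ∀ x n, ∃ d : D, (d : X) ∈ h x '' V n := by
    intro x n
    have hop : IsOpen (h x '' V n) := (h x).isOpenMap _ (hV n).1
    obtain ⟨v, hv⟩ := (hV n).2
    obtain ⟨d, hd, hdD⟩ := mem_closure_iff.mp (hD (h x v)) _ hop ⟨v, hv, rfl⟩
    exact ⟨⟨d, hdD⟩, hd⟩
  choose d hd using h1
  have hinj : Function.Injective d := by
    intro x x' heq
    by_contra hne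
    obtain ⟨U, U', hU, hU', hxU, hxU', hdisj⟩ := t2_separation hne
    have hnhd : (h x) ⁻¹' U ∩ (h x') ⁻¹' U' ∈ 𝓝 x₀ := by
      refine inter_mem ?_ ?_
      · exact (h x).continuous.continuousAt.preimage_mem_nhds (by rw [hh]; exact hU.mem_nhds hxU)
      · exact (h x').continuous.continuousAt.preimage_mem_nhds
          (by rw [hh]; exact hU'.mem_nhds hxU')
    obtain ⟨n, hn⟩ := hπ _ hnhd
    have h2 : (d x n : X) ∈ U := by
      obtain ⟨v, hv, hv2⟩ := hd x n
      rw [← hv2]
      exact (hn hv).1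
    have h3 : (d x' n : X) ∈ U' := by
      obtain ⟨v, hv, hv2⟩ := hd x' n
      rw [← hv2]
      exact (hn hv).2
    rw [heq] at h2
    exact disjoint_left.mp hdisj h2 h3
  have h4 := mk_le_of_injective hinj
  rwa [mk_pi, prod_const, mk_nat, lift_aleph0, lift_uzero] at h4

variable {X Y : Type u} [TopologicalSpace X] [TopologicalSpace Y]

/-- The general bound. -/
theorem mk_le_of_stab [CompactSpace X] [LindelofSpace Y]
    {e : X → Y → ℝ} (he : Pairing e) (hsep : ∀ x x', (∀ y, e x y = e x' y) → x = x')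
    (hom : ∀ x y : X, ∃ h : X ≃ₜ X, h x = y) {κ : Cardinal.{u}} (hc : continuum ≤ κ)
    {N : Type u} [Infinite N] (hκN : κ ^ #N = κ) (hst : Stab N e) : #X ≤ κ := by
  have hκ : ℵ₀ ≤ κ := aleph0_le_continuum.trans hc
  rcases isEmpty_or_nonempty X with hX | hX
  · rw [mk_eq_zero]; exact zero_le
  rcases isEmpty_or_nonempty Y with hY | hY
  · have : Subsingleton X := ⟨fun x x' => hsep x x' fun y => (hY.false y).elim⟩
    exact (le_one_iff_subsingleton.mpr this).trans (one_le_aleph0.trans hκ)
  have hT2 : T2Space X := by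
    have h1 : Continuous fun (x : X) (y : Y) => e x y := continuous_pi fun y => he.cx y
    refine T2Space.of_injective_continuous (f := fun (x : X) (y : Y) => e x y) ?_ h1
    intro x x' h
    exact hsep x x' fun y => congrFun h y
  obtain ⟨x₁, hx₁⟩ := exists_tame he hsep hc hκN hst
  have htame : ∀ x, Tame N κ e x := by
    intro x
    obtain ⟨h, rfl⟩ := hom x₁ x
    exact hx₁.map he hsep h
  obtain ⟨D, hD, hD2⟩ := exists_dense he hc hκN hst htame
  obtain ⟨x₀, V, hV, hπ⟩ := exists_pi_base he hsep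
  have h1 := mk_le_of_homogeneous hD2 hV hπ hom
  calc #X ≤ #D ^ ℵ₀ := h1
    _ ≤ κ ^ ℵ₀ := power_le_power_right hD
    _ ≤ κ ^ #N := power_le_power_left (aleph0_pos.trans_le hκ).ne' (aleph0_le_mk N)
    _ = κ := hκN

/-- The evaluation pairing of a set of continuous functions. -/
theorem pairing_eval {Y : Type u} [TopologicalSpace Y] (X : Set (Y → ℝ))
    (hX : ∀ f ∈ X, Continuous f) : Pairing (fun (x : X) (y : Y) => x.1 y) where
  cx y := (continuous_apply y).comp continuous_subtype_val
  cy x := hX x.1 x.2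

/-- The bound `2 ^ ℵ₁` for all Lindelöf spaces. -/
theorem mk_le_two_pow_aleph_one (Y : Type u) [TopologicalSpace Y] [LindelofSpace Y]
    (X : Set (Y → ℝ)) (hX : ∀ f ∈ X, Continuous f) (hc : IsCompact X)
    (hom : ∀ x y : X, ∃ h : X ≃ₜ X, h x = y) : #X ≤ 2 ^ Cardinal.aleph 1 := by
  have : CompactSpace X := isCompact_iff_compactSpace.mp hc
  have he := pairing_eval X hX
  have hsep : ∀ x x' : X, (∀ y, x.1 y = x'.1 y) → x = x' := fun x x' h =>
    Subtype.ext (funext h)
  let N : Type u := ULift.{u} Om1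
  have hN : #N = Cardinal.aleph 1 := by
    rw [mk_uLift, mk_Om1, ← aleph_zero, Cardinal.succ_aleph, lift_aleph]
    simp
  have hinf : Infinite N := by
    rw [← aleph0_le_mk_iff] 
    rw [hN]
    exact aleph0_le_aleph 1
  have hκN : (2 ^ Cardinal.aleph 1 : Cardinal.{u}) ^ #N = 2 ^ Cardinal.aleph 1 := by
    rw [hN, ← power_mul, mul_eq_self (aleph0_le_aleph 1)]
  have hc2 : continuum ≤ (2 ^ Cardinal.aleph 1 : Cardinal.{u}) := by
    rw [← two_power_aleph0]
    exact power_le_power_left two_ne_zero (aleph0_le_aleph 1)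
  exact mk_le_of_stab he hsep hom hc2 hκN (stab_om2 he hsep N ⟨ULift.up, ULift.up_injective⟩)

/-- The bound `𝔠` for spaces with Lindelöf square. -/
theorem mk_le_continuum (Y : Type u) [TopologicalSpace Y] [LindelofSpace (Y × Y)]
    (X : Set (Y → ℝ)) (hX : ∀ f ∈ X, Continuous f) (hc : IsCompact X)
    (hom : ∀ x y : X, ∃ h : X ≃ₜ X, h x = y) : #X ≤ continuum := by
  have : CompactSpace X := isCompact_iff_compactSpace.mp hc
  have he := pairing_eval X hX
  have hsep : ∀ x x' : X, (∀ y, x.1 y = x'.1 y) → x = x' := fun x x' h =>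
    Subtype.ext (funext h)
  rcases isEmpty_or_nonempty Y with hY | hY
  · have : Subsingleton X := ⟨fun x x' => hsep x x' fun y => (hY.false y).elim⟩
    exact (le_one_iff_subsingleton.mpr this).trans (one_le_aleph0.trans aleph0_le_continuum)
  have hL : LindelofSpace Y :=
    LindelofSpace.of_continuous_surjective (f := (Prod.fst : Y × Y → Y)) continuous_fst
      Prod.fst_surjective
  let N : Type u := ULift.{u} ℕ
  have hκN : (continuum : Cardinal.{u}) ^ #N = continuum := by
    rw [mk_uLift, mk_nat, lift_aleph0, continuum_power_aleph0]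
  exact mk_le_of_stab he hsep hom le_rfl hκN (stab_prod he hsep N)

end Pool.MP_961719_gt
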