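import Pool.Agent.MP_961719_gt.Ramsey
import Pool.Agent.MP_961719_gt.Main

set_option autoImplicit false

/-!
# Covers by `G_δ`-sets
-/

namespace Pool.MP_961719_gt

open Set Topology Filter Cardinal

universe u

variable {X Y : Type u} [TopologicalSpace X] [TopologicalSpace Y]

theorem mk_Iio_le_of_idx {N ι : Type u} [LinearOrder ι] [WellFoundedLT ι] (h : Idx N ι) (i : ι) :
    #(Iio i) ≤ #N := by
  obtain ⟨g, hg⟩ := h.small i
  have h1 : Iio i ⊆ range g := fun j hj => by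
    obtain ⟨n, hn⟩ := hg j (le_of_lt hj)
    exact ⟨n, hn⟩
  exact (mk_le_mk_of_subset h1).trans mk_range_le

/-- The pattern argument at the end of the proof. -/
theorem no_long_pattern [CompactSpace X] [LindelofSpace Y] {e : X → Y → ℝ} (he : Pairing e)
    {N ι : Type u} [LinearOrder ι] [WellFoundedLT ι] (hN : continuum ≤ #N)
    (h : Idx N ι) (T : Set ι) (hT : ∀ b, ∃ t ∈ T, b < t) (p : ι → X) (y : ι → ℕ → Y)
    (v : ι → ℕ → ℝ)
    (h1 : ∀ i ∈ T, ∀ j ∈ T, i < j → ∀ n, e (p i) (y j n) = v j n)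
    (h2 : ∀ i ∈ T, ∀ j ∈ T, i < j → ∃ n, e (p j) (y i n) ≠ v i n) : False := by
  classical
  -- colours
  have hcol : ∀ i j : ι, ∃ c : ℕ, i ∈ T → j ∈ T → i < j →
      1 / ((Nat.unpair c).2 + 1 : ℝ) ≤ |e (p j) (y i (Nat.unpair c).1) - v i (Nat.unpair c).1| := by
    intro i j
    by_cases hij : i ∈ T ∧ j ∈ T ∧ i < j
    · obtain ⟨n, hn⟩ := h2 i hij.1 j hij.2.1 hij.2.2
      obtain ⟨m, hm⟩ := exists_nat_one_div_lt (abs_pos.mpr (sub_ne_zero.mpr hn))
      refine ⟨Nat.pair n m, fun _ _ _ => ?_⟩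
      simp only [Nat.unpair_pair]
      exact hm.le
    · exact ⟨0, fun a b c => absurd ⟨a, b, c⟩ hij⟩
  choose col hcol using hcol
  obtain ⟨H, a, c, hH, haT, hmono, hc⟩ := exists_homog hN h T hT col
  set n := (Nat.unpair c).1 with hn
  set m := (Nat.unpair c).2 with hm
  set δ : ℝ := 1 / ((m : ℝ) + 1) with hδ
  have hδ0 : 0 < δ := by positivity
  have key : ∀ i ∈ H, ∀ j, i < j → δ ≤ |e (p (a j)) (y (a i) n) - v (a i) n| := by
    intro i hi j hij
    have := hcol (a i) (a j) (haT i) (haT j) (hmono i j hij)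
    rwa [hc i hi j hij] at this
  -- fix the value approximately
  obtain ⟨q, hq⟩ : ∃ q : ℚ, ¬ {i | i ∈ H ∧ |v (a i) n - q| < δ / 4}.Countable := by
    by_contra hcon
    push Not at hcon
    have h3 : (⋃ q : ℚ, {i | i ∈ H ∧ |v (a i) n - q| < δ / 4}).Countable := countable_iUnion hcon
    apply hH
    refine h3.mono fun i hi => ?_
    obtain ⟨q, hq1, hq2⟩ := exists_rat_btwn (show v (a i) n < v (a i) n + δ / 4 by linarith)
    refine mem_iUnion.mpr ⟨q, hi, ?_⟩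
    rw [abs_lt]
    constructor <;> linarith
  set J : Set Om1 := {i | i ∈ H ∧ |v (a i) n - q| < δ / 4} with hJ
  have hJu : Uncountable J := by
    rw [← not_countable_iff]
    exact fun hh => hq (Set.countable_coe_iff.mp hh)
  have he' : Pairing (fun (x : X) (w : Y) => - |e x w - q|) :=
    ⟨fun w => ((he.cx w).sub continuous_const).abs.neg,
      fun x => ((he.cy x).sub continuous_const).abs.neg⟩
  refine no_pattern he' (ι := J) ?_ (fun i => p (a i)) (fun i => y (a i) n)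
    (r := -(3 * δ / 4)) (s := -(δ / 4)) (by linarith) ?_ ?_
  · intro i
    have : (Iic i) = Subtype.val ⁻¹' (Iic (i : Om1)) := by
      ext j
      simp
    rw [this]
    exact (Om1.countable_Iic i).preimage Subtype.val_injective
  · intro i j hij
    have h3 := h1 (a i) (haT i) (a j) (haT j) (hmono i j hij) n
    show -(δ / 4) ≤ - |e (p (a i)) (y (a j) n) - q|
    rw [h3]
    have := j.2.2
    linarith
  · intro i j hij
    have h3 := key j j.2.1 i hij
    show - |e (p (a i)) (y (a j) n) - q| ≤ -(3 * δ / 4)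
    have h4 := j.2.2
    have h5 : |e (p (a i)) (y (a j) n) - v (a j) n| ≤
        |e (p (a i)) (y (a j) n) - q| + |v (a j) n - q| := by
      have := abs_sub_le (e (p (a i)) (y (a j) n)) q (v (a j) n)
      rwa [abs_sub_comm (q : ℝ) (v (a j) n)] at this
    linarith

/-- Every neighbourhood assignment by `G_δ`-sets has a subcover of size at most `𝔠`. -/
theorem exists_subcover [CompactSpace X] [LindelofSpace Y] {e : X → Y → ℝ} (he : Pairing e)
    (U : X → ℕ → Y) :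
    ∃ S : Set X, #S ≤ continuum ∧ ∀ p, ∃ x ∈ S, ∀ n, e p (U x n) = e x (U x n) := by
  classical
  rcases isEmpty_or_nonempty X with hX | hX
  · exact ⟨∅, by simp, fun p => (hX.false p).elim⟩
  obtain ⟨x₀⟩ := id hX
  have hY : Nonempty Y := ⟨U x₀ 0⟩
  by_contra hcon
  push Not at hcon
  -- indices
  let N : Type u := ULift.{u} ℝ
  have hN : #N = continuum.{u} := by
    rw [mk_uLift, mk_real, lift_continuum]
  have hNinf : Infinite N := by
    rw [← aleph0_le_mk_iff, hN]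
    exact aleph0_le_continuum
  have hκ : ℵ₀ ≤ continuum.{u} := aleph0_le_continuum
  obtain ⟨ι, _, _, hι, -⟩ := exists_idx N (κ := (2 : Cardinal.{u}) ^ #N)
    (by rw [hN]; exact (cantor _).le) (by rw [← power_mul, hN, continuum_mul_self])
  have emb : Nonempty (Om1 ↪ N) := by
    have h1 : lift.{u} #Om1 ≤ lift.{0} #N := by
      rw [mk_Om1, hN, lift_succ, lift_aleph0, lift_uzero]
      exact Order.succ_le_of_lt aleph0_lt_continuum
    exact lift_mk_le'.mp h1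
  obtain ⟨emb⟩ := emb
  -- answers
  have hans1 : ∀ S : Set (X ⊕ Y), ∃ p : X, #(Sum.inl ⁻¹' S : Set X) ≤ continuum →
      ∀ x, Sum.inl x ∈ S → ∃ n, e p (U x n) ≠ e x (U x n) := by
    intro S
    by_cases hS : #(Sum.inl ⁻¹' S : Set X) ≤ continuum
    · obtain ⟨p, hp⟩ := hcon (Sum.inl ⁻¹' S) hS
      exact ⟨p, fun _ x hx => hp x hx⟩
    · exact ⟨x₀, fun h => absurd h hS⟩
  choose P hP using hans1
  have hans2 : ∀ (S : Set (X ⊕ Y)) (C : ℕ → Y) (v : ℕ → ℝ), ∃ x : X,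
      (∃ x : X, ∀ x' ∈ closure (Sum.inl ⁻¹' S : Set X), (∀ n, e x' (C n) = v n) →
        ∀ n, e x' (U x n) = e x (U x n)) →
      ∀ x' ∈ closure (Sum.inl ⁻¹' S : Set X), (∀ n, e x' (C n) = v n) →
        ∀ n, e x' (U x n) = e x (U x n) := by
    intro S C v
    by_cases h : ∃ x : X, ∀ x' ∈ closure (Sum.inl ⁻¹' S : Set X), (∀ n, e x' (C n) = v n) →
        ∀ n, e x' (U x n) = e x (U x n)
    · obtain ⟨x, hx⟩ := h
      exact ⟨x, fun _ => hx⟩
    · exact ⟨x₀, fun h' => absurd h' h⟩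
  choose W hW using hans2
  obtain ⟨A, hA1, hA2, hA3, hA4⟩ := exists_chain' e (κ := continuum.{u}) le_rfl
    continuum_power_aleph0 (ι := ι) (fun i => (mk_Iio_le_of_idx hι i).trans hN.le)
    (fun S C v => {Sum.inl (P S), Sum.inl (W S C v)})
    (fun S C v => ((Set.toFinite _).lt_aleph0.le.trans hκ))
  have hD : Monotone (fun i => (Sum.inl ⁻¹' A i : Set X)) := fun i j hij x hx => hA1 i j hij hx
  have hE : Monotone (fun i => (Sum.inr ⁻¹' A i : Set Y)) := fun i j hij x hx => hA1 i j hij hx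
  set S : ι → Set (X ⊕ Y) := fun γ => ⋃ j ∈ Iio γ, A j with hSdef
  have hSX : ∀ γ, (Sum.inl ⁻¹' S γ : Set X) = ⋃ j ∈ Iio γ, Sum.inl ⁻¹' A j := by
    intro γ
    simp only [hSdef, preimage_iUnion]
  have hSY : ∀ γ, (Sum.inr ⁻¹' S γ : Set Y) = ⋃ j ∈ Iio γ, Sum.inr ⁻¹' A j := by
    intro γ
    simp only [hSdef, preimage_iUnion]
  have hScard : ∀ γ, #(Sum.inl ⁻¹' S γ : Set X) ≤ continuum := by
    intro γ
    refine (mk_preimage_of_injective _ _ Sum.inl_injective).trans ?_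
    simp only [hSdef]
    rw [biUnion_eq_iUnion]
    exact mk_iUnion_le_of hκ _ ((mk_Iio_le_of_idx hι γ).trans hN.le) fun j => hA2 j
  -- admissible indices
  set Γ : Set ι := {γ | ∀ S ⊆ Iio γ, S.Countable → ∃ c ∈ Iio γ, ∀ s ∈ S, s ≤ c} with hΓ
  have hMγ : ∀ γ ∈ Γ, Good e (Sum.inl ⁻¹' S γ) (Sum.inr ⁻¹' S γ) := by
    intro γ hγ
    rw [hSX, hSY]
    exact good_union hD hE hA3 (Iio γ) hγ
  have h1 : ∀ γ ∈ Γ, ∃ k < γ, ∃ (C : ℕ → Y) (v : ℕ → ℝ), (∀ n, Sum.inr (C n) ∈ A k) ∧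
      (∀ n, e (P (S γ)) (C n) = v n) ∧
      ∃ x : X, ∀ x' ∈ closure (Sum.inl ⁻¹' S γ : Set X), (∀ n, e x' (C n) = v n) →
        ∀ n, e x' (U x n) = e x (U x n) := by
    intro γ hγ
    have hG := hMγ γ hγ
    set p := P (S γ) with hp
    set z := retr he hG p with hz
    have hzm : z ∈ closure (Sum.inl ⁻¹' S γ : Set X) := retr_mem he hG p
    have h2 : ∀ n, ∃ B ⊆ (Sum.inr ⁻¹' S γ : Set Y), B.Countable ∧
        ∀ x ∈ closure (Sum.inl ⁻¹' S γ : Set X), (∀ c ∈ B, e x c = e z c) →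
          e x (U z n) = e z (U z n) := by
      intro n
      obtain ⟨l, ⟨B, hB1, hB2, hB3⟩, -⟩ := hG.lam he z (U z n)
      exact ⟨B, hB1, hB2, fun x hx hxc => by rw [hB3 x hx hxc, hB3 z hzm fun _ _ => rfl]⟩
    choose B hB1 hB2 hB3 using h2
    obtain ⟨y₁, hy₁⟩ : (Sum.inr ⁻¹' S γ : Set Y).Nonempty := by
      obtain ⟨y, hy, -⟩ := hG.c2 ∅ (empty_subset _) countable_empty (Classical.arbitrary Y)
      exact ⟨y, hy⟩
    have hBc : (insert y₁ (⋃ n, B n)).Countable := (countable_iUnion hB2).insert y₁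
    obtain ⟨C, hC⟩ := hBc.exists_eq_range (insert_nonempty _ _)
    have hCS : ∀ n, C n ∈ (Sum.inr ⁻¹' S γ : Set Y) := by
      intro n
      have : C n ∈ insert y₁ (⋃ n, B n) := by rw [hC]; exact ⟨n, rfl⟩
      rcases this with h | h
      · rw [h]; exact hy₁
      · obtain ⟨m, hm⟩ := mem_iUnion.mp h
        exact hB1 m hm
    have h3 : ∀ n, ∃ j ∈ Iio γ, Sum.inr (C n) ∈ A j := by
      intro n
      have := hCS n
      rw [hSY] at this
      obtain ⟨j, hj, hj2⟩ := mem_iUnion₂.mp this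
      exact ⟨j, hj, hj2⟩
    choose J hJ hJ2 using h3
    obtain ⟨k, hk, hk2⟩ := hγ (range J) (by rintro _ ⟨n, rfl⟩; exact hJ n) (countable_range J)
    refine ⟨k, hk, C, fun n => e p (C n), fun n => hA1 _ _ (hk2 _ ⟨n, rfl⟩) (hJ2 n),
      fun n => rfl, z, fun x' hx' hxC n => ?_⟩
    refine hB3 n x' hx' fun c hc => ?_
    have hcr : c ∈ range C := by
      rw [← hC]
      exact mem_insert_of_mem _ (mem_iUnion.mpr ⟨n, hc⟩)
    obtain ⟨m, rfl⟩ := hcr
    rw [hxC m]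
    exact (retr_eq he hG p (hCS m)).symm
  -- pressing down
  have h2 : ∃ (k : ι) (C : ℕ → Y) (v : ℕ → ℝ), (∀ n, Sum.inr (C n) ∈ A k) ∧
      ∀ b, ∃ γ, (γ ∈ Γ ∧ k < γ ∧ (∀ n, e (P (S γ)) (C n) = v n) ∧
        ∃ x : X, ∀ x' ∈ closure (Sum.inl ⁻¹' S γ : Set X), (∀ n, e x' (C n) = v n) →
          ∀ n, e x' (U x n) = e x (U x n)) ∧ b < γ := by
    by_contra hc
    push Not at hc
    have hb : ∀ (k : ι) (q : (ℕ → (Sum.inr ⁻¹' A k : Set Y)) × (ℕ → ℝ)), ∃ b, ∀ γ,
        (γ ∈ Γ ∧ k < γ ∧ (∀ n, e (P (S γ)) (q.1 n) = q.2 n) ∧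
        ∃ x : X, ∀ x' ∈ closure (Sum.inl ⁻¹' S γ : Set X), (∀ n, e x' (q.1 n) = q.2 n) →
          ∀ n, e x' (U x n) = e x (U x n)) → γ ≤ b := by
      intro k q
      obtain ⟨b, hb⟩ := hc k (fun n => (q.1 n).1) q.2 fun n => (q.1 n).2
      exact ⟨b, hb⟩
    choose b hb using hb
    have ht : ∀ k : ι, ∃ t, ∀ q, b k q < t := by
      intro k
      have hcard : #(ULift.{u} ((ℕ → (Sum.inr ⁻¹' A k : Set Y)) × (ℕ → ℝ))) ≤ #N := by
        rw [hN, mk_uLift, mk_prod, lift_umax, lift_mul]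
        simp only [lift_lift]
        refine (mul_le_mul' ?_ ?_).trans (mul_eq_self hκ).le
        · have h3 : #(Sum.inr ⁻¹' A k : Set Y) ≤ continuum :=
            (mk_preimage_of_injective _ _ Sum.inr_injective).trans (hA2 k)
          have h4 : #(ℕ → (Sum.inr ⁻¹' A k : Set Y)) ≤ continuum := by
            rw [mk_pi, prod_const, mk_nat, lift_aleph0, lift_uzero]
            calc _ ≤ continuum ^ ℵ₀ := power_le_power_right h3
              _ = continuum := continuum_power_aleph0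
          simpa using h4
        · have h3 : #(ℕ → ℝ) ≤ continuum := by
            rw [mk_pi, prod_const, mk_real, mk_nat]
            simp
          calc _ ≤ lift.{u} continuum := by
                have := lift_le.{u}.mpr h3
                simpa using this
            _ = continuum := lift_continuum
      obtain ⟨em⟩ := hcard
      obtain ⟨y₁, hy₁⟩ : (Sum.inr ⁻¹' A k : Set Y).Nonempty := by
        obtain ⟨y, hy, -⟩ := (hA3 k).c2 ∅ (empty_subset _) countable_empty (Classical.arbitrary Y)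
        exact ⟨y, hy⟩
      have : Nonempty (ULift.{u} ((ℕ → (Sum.inr ⁻¹' A k : Set Y)) × (ℕ → ℝ))) :=
        ⟨⟨(fun _ => ⟨y₁, hy₁⟩, fun _ => 0)⟩⟩
      obtain ⟨t, ht⟩ := hι.bd (fun n => b k (Function.invFun em n).down)
      refine ⟨t, fun q => ?_⟩
      have := ht (em ⟨q⟩)
      rwa [Function.leftInverse_invFun em.injective] at this
    choose t ht using ht
    obtain ⟨i₀⟩ := hι.ne
    obtain ⟨γ, -, hγt, hγ⟩ := hι.closing_off emb t i₀
    obtain ⟨k, hk, C, v, hC, hCv, hx⟩ := h1 γ hγ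
    have h3 := hb k (fun n => ⟨C n, hC n⟩, v) γ ⟨hγ, hk, hCv, hx⟩
    exact absurd (h3.trans_lt ((ht k _).trans (hγt k hk))) (lt_irrefl _)
  obtain ⟨k, C, v, hCk, hT⟩ := h2
  refine no_long_pattern he hN.ge hι {γ | γ ∈ Γ ∧ k < γ ∧ (∀ n, e (P (S γ)) (C n) = v n) ∧
        ∃ x : X, ∀ x' ∈ closure (Sum.inl ⁻¹' S γ : Set X), (∀ n, e x' (C n) = v n) →
          ∀ n, e x' (U x n) = e x (U x n)} hT (fun γ => P (S γ)) (fun γ => U (W (S γ) C v))
    (fun γ n => e (W (S γ) C v) (U (W (S γ) C v) n)) ?_ ?_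
  · rintro i ⟨hi1, hi2, hi3, hi4⟩ j ⟨hj1, hj2, hj3, hj4⟩ hij n
    have hin : ∀ n, Sum.inr (C n) ∈ ⋃ l ∈ Iio i, A l := fun n =>
      mem_iUnion₂.mpr ⟨k, hi2, hCk n⟩
    have hPi : Sum.inl (P (S i)) ∈ A i := hA4 i C hin v (Or.inl rfl)
    refine hW (S j) C v hj4 _ (subset_closure ?_) hi3 n
    exact mem_iUnion₂.mpr ⟨i, hij, hPi⟩
  · rintro i ⟨hi1, hi2, hi3, hi4⟩ j ⟨hj1, hj2, hj3, hj4⟩ hij
    have hin : ∀ n, Sum.inr (C n) ∈ ⋃ l ∈ Iio i, A l := fun n =>
      mem_iUnion₂.mpr ⟨k, hi2, hCk n⟩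
    have hWi : Sum.inl (W (S i) C v) ∈ A i := hA4 i C hin v (Or.inr rfl)
    exact hP (S j) (hScard j) _ (mem_iUnion₂.mpr ⟨i, hij, hWi⟩)

/-- A nonempty `G_δ`-set around a point contains a set defined by countably many members of `Y`. -/
theorem exists_support_gdelta [CompactSpace X] {e : X → Y → ℝ} (he : Pairing e)
    (hsep : ∀ x x', (∀ y, e x y = e x' y) → x = x') [Nonempty Y] {G : Set X} (hG : IsGδ G) {x : X}
    (hx : x ∈ G) : ∃ C : ℕ → Y, ∀ p, (∀ n, e p (C n) = e x (C n)) → p ∈ G := by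
  obtain ⟨T, hTo, hTc, rfl⟩ := hG
  have h1 : ∀ U : T, ∃ F : Finset Y, ∀ p, (∀ y ∈ F, e p y = e x y) → p ∈ (U : Set X) := by
    intro U
    obtain ⟨F, ε, hε, hF⟩ := exists_basic_nhd he hsep ((hTo U U.2).mem_nhds (hx U U.2))
    exact ⟨F, fun p hp => hF p fun y hy => by rw [hp y hy, sub_self, abs_zero]; exact hε⟩
  choose F hF using h1
  have : Countable T := hTc
  have hc : (insert (Classical.arbitrary Y) (⋃ U : T, (F U : Set Y))).Countable :=
    (countable_iUnion fun U => (F U).countable_toSet).insert _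
  obtain ⟨C, hC⟩ := hc.exists_eq_range (insert_nonempty _ _)
  refine ⟨C, fun p hp U hU => hF ⟨U, hU⟩ p fun y hy => ?_⟩
  have : y ∈ range C := by
    rw [← hC]
    exact mem_insert_of_mem _ (mem_iUnion.mpr ⟨⟨U, hU⟩, hy⟩)
  obtain ⟨n, rfl⟩ := this
  exact hp n

/-- Every cover by `G_δ`-sets has a subcover of size at most `𝔠`. -/
theorem exists_gdelta_subcover [CompactSpace X] [LindelofSpace Y] {e : X → Y → ℝ}
    (he : Pairing e) (hsep : ∀ x x', (∀ y, e x y = e x' y) → x = x')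
    (𝒰 : Set (Set X)) (h𝒰 : ∀ U ∈ 𝒰, IsGδ U) (hcov : ⋃₀ 𝒰 = Set.univ) :
    ∃ 𝒱 ⊆ 𝒰, #𝒱 ≤ continuum ∧ ⋃₀ 𝒱 = Set.univ := by
  have hmem : ∀ x : X, ∃ U ∈ 𝒰, x ∈ U := fun x => by
    have : x ∈ ⋃₀ 𝒰 := by rw [hcov]; trivial
    exact mem_sUnion.mp this
  choose V hV hxV using hmem
  rcases isEmpty_or_nonempty Y with hY | hY
  · have hX : Subsingleton X := ⟨fun x x' => hsep x x' fun y => (hY.false y).elim⟩
    refine ⟨range V, by rintro _ ⟨x, rfl⟩; exact hV x, ?_, ?_⟩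
    · exact mk_range_le.trans ((le_one_iff_subsingleton.mpr hX).trans
        (one_le_aleph0.trans aleph0_le_continuum))
    · exact eq_univ_of_forall fun x => mem_sUnion.mpr ⟨V x, ⟨x, rfl⟩, hxV x⟩
  choose C hC using fun x => exists_support_gdelta he hsep (h𝒰 (V x) (hV x)) (hxV x)
  obtain ⟨S, hS, hS2⟩ := exists_subcover he C
  refine ⟨V '' S, by rintro _ ⟨x, -, rfl⟩; exact hV x, mk_image_le.trans hS, ?_⟩
  refine eq_univ_of_forall fun p => ?_
  obtain ⟨x, hx, hp⟩ := hS2 p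
  exact mem_sUnion.mpr ⟨V x, ⟨x, hx, rfl⟩, hC x p hp⟩

/-- A homogeneous compact space with a nonempty `G_δ`-set of density at most `𝔠` has at most `𝔠`
points. -/
theorem mk_le_of_gdelta [CompactSpace X] [LindelofSpace Y] {e : X → Y → ℝ}
    (he : Pairing e) (hsep : ∀ x x', (∀ y, e x y = e x' y) → x = x')
    (hom : ∀ x y : X, ∃ h : X ≃ₜ X, h x = y) {G A : Set X} (hG : IsGδ G) (hne : G.Nonempty)
    (hA : #A ≤ continuum) (hGA : G ⊆ closure A) : #X ≤ continuum := by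
  obtain ⟨x₁, hx₁⟩ := hne
  have : Nonempty X := ⟨x₁⟩
  rcases isEmpty_or_nonempty Y with hY | hY
  · have : Subsingleton X := ⟨fun x x' => hsep x x' fun y => (hY.false y).elim⟩
    exact (le_one_iff_subsingleton.mpr this).trans (one_le_aleph0.trans aleph0_le_continuum)
  have hT2 : T2Space X := by
    have h1 : Continuous fun (x : X) (y : Y) => e x y := continuous_pi fun y => he.cx y
    refine T2Space.of_injective_continuous (f := fun (x : X) (y : Y) => e x y) ?_ h1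
    intro x x' h
    exact hsep x x' fun y => congrFun h y
  obtain ⟨C, hC⟩ := exists_support_gdelta he hsep hG hx₁
  have ht : Tame (ULift.{u} ℕ) continuum e x₁ :=
    ⟨fun n => C n.down, A, hA, fun p hp => hGA (hC p fun n => hp ⟨n⟩)⟩
  have htame : ∀ x, Tame (ULift.{u} ℕ) continuum e x := by
    intro x
    obtain ⟨h, rfl⟩ := hom x₁ x
    exact ht.map he hsep h
  choose C' A' hA' hCA' using htame
  obtain ⟨S, hS, hS2⟩ := exists_subcover he (fun x n => C' x ⟨n⟩)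
  have hD : #(⋃ x : S, A' x : Set X) ≤ continuum :=
    mk_iUnion_le_of aleph0_le_continuum _ hS fun x => hA' x
  have hdense : ∀ p, p ∈ closure (⋃ x : S, A' x) := by
    intro p
    obtain ⟨x, hx, hp⟩ := hS2 p
    exact closure_mono (subset_iUnion (fun x : S => A' x) ⟨x, hx⟩) (hCA' x p fun n => hp n.down)
  obtain ⟨x₀, V, hV, hπ⟩ := exists_pi_base he hsep
  calc #X ≤ #(⋃ x : S, A' x : Set X) ^ ℵ₀ := mk_le_of_homogeneous hdense hV hπ hom
    _ ≤ continuum ^ ℵ₀ := power_le_power_right hD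
    _ = continuum := continuum_power_aleph0

end Pool.MP_961719_gt
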