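import Pool.Agent.MP_961719_gt.Pattern

set_option autoImplicit false

/-!
# Good pairs and the retractions they define
-/

namespace Pool.MP_961719_gt

open Set Topology Filter

variable {X Y : Type*} [TopologicalSpace X] [TopologicalSpace Y]

/-- A linear order of type `ω₁`. -/
abbrev Om1 : Type := (Order.succ Cardinal.aleph0.{0}).ord.ToType

theorem mk_Om1 : Cardinal.mk Om1 = Order.succ Cardinal.aleph0.{0} := Cardinal.mk_ord_toType _

instance : Uncountable Om1 := by
  rw [← Cardinal.aleph0_lt_mk_iff, mk_Om1]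
  exact Order.lt_succ _

theorem Om1.countable_Iio (i : Om1) : (Iio i).Countable := by
  have h : Cardinal.mk (Iio i) < Cardinal.mk Om1 := by
    apply Cardinal.mk_Iio_lt
    simp
  rw [mk_Om1, Order.lt_succ_iff, Cardinal.le_aleph0_iff_set_countable] at h
  exact h

theorem Om1.countable_Iic (i : Om1) : (Iic i).Countable := by
  rw [← Iio_union_right]
  exact (Om1.countable_Iio i).union (countable_singleton i)

/-- Local countable determination. -/
theorem star1 [CompactSpace X] [LindelofSpace Y] {e : X → Y → ℝ} (he : Pairing e)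
    (D : Set X) (E : Set Y) (p : X) (y : Y) :
    ∃ C ⊆ E, C.Countable ∧ ∃ C' ⊆ D, C'.Countable ∧ ∀ x' ∈ D, ∀ y' ∈ E,
      (∀ c ∈ C, e x' c = e p c) → (∀ d ∈ C', e d y' = e d y) → e x' y = e p y' := by
  by_contra hcon
  push Not at hcon
  have : Nonempty (X × Y) := ⟨(p, y)⟩
  obtain ⟨f, hf⟩ := exists_rec (ι := Om1) (T := X × Y)
    (fun i f t => t.1 ∈ D ∧ t.2 ∈ E ∧ (∀ j < i, e t.1 (f j).2 = e p (f j).2) ∧
      (∀ j < i, e (f j).1 t.2 = e (f j).1 y) ∧ e t.1 y ≠ e p t.2)
    (by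
      intro i f g t hfg h
      refine ⟨h.1, h.2.1, fun j hj => ?_, fun j hj => ?_, h.2.2.2.2⟩
      · rw [← hfg j hj]; exact h.2.2.1 j hj
      · rw [← hfg j hj]; exact h.2.2.2.1 j hj)
    (by
      intro i f h
      obtain ⟨x', hx', y', hy', h1, h2, h3⟩ := hcon ((fun j => (f j).2) '' Iio i)
        (by rintro _ ⟨j, hj, rfl⟩; exact (h j hj).2.1)
        ((Om1.countable_Iio i).image _) ((fun j => (f j).1) '' Iio i)
        (by rintro _ ⟨j, hj, rfl⟩; exact (h j hj).1)
        ((Om1.countable_Iio i).image _)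
      exact ⟨(x', y'), hx', hy', fun j hj => h1 _ ⟨j, hj, rfl⟩, fun j hj => h2 _ ⟨j, hj, rfl⟩, h3⟩)
  exact no_pattern_ne he Om1.countable_Iic (fun i => (f i).1) (fun i => (f i).2)
    (fun i => e (f i).1 y) (fun i => e p (f i).2) (fun i => (hf i).2.2.2.2)
    (Or.inl fun i j hij => (hf j).2.2.2.1 i hij)
    (Or.inl fun i j hij => (hf i).2.2.1 j hij)

/-- A pair of subsets `D ⊆ X`, `E ⊆ Y` closed under countable matching. -/
structure Good (e : X → Y → ℝ) (D : Set X) (E : Set Y) : Prop where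
  c1 : ∀ C ⊆ E, C.Countable → ∀ p : X, ∃ x ∈ D, ∀ c ∈ C, e x c = e p c
  c2 : ∀ C ⊆ D, C.Countable → ∀ y : Y, ∃ y' ∈ E, ∀ d ∈ C, e d y' = e d y
  c3 : ∀ d : ℕ → X, (∀ n, d n ∈ D) → ∃ x ∈ D, MapClusterPt x atTop d

/-- A point of the closure agrees with a member on any countable set. -/
theorem Good.cl_agree {e : X → Y → ℝ} (he : Pairing e) {D : Set X} {E : Set Y}
    (hG : Good e D E) {p : X} (hp : p ∈ closure D) {C : Set Y} (hC : C.Countable) :
    ∃ x ∈ D, ∀ c ∈ C, e x c = e p c := by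
  rcases C.eq_empty_or_nonempty with rfl | hne
  · obtain ⟨x, hx⟩ := closure_nonempty_iff.mp ⟨p, hp⟩
    exact ⟨x, hx, by simp⟩
  obtain ⟨c, rfl⟩ := hC.exists_eq_range hne
  have h1 : ∀ n : ℕ, ∃ x ∈ D, ∀ i ≤ n, |e x (c i) - e p (c i)| < 1 / ((n : ℝ) + 1) := by
    intro n
    have hU : (⋂ i ∈ Finset.range (n + 1), {x | |e x (c i) - e p (c i)| < 1 / ((n : ℝ) + 1)})
        ∈ 𝓝 p := by
      refine (Finset.iInter_mem_sets _).mpr fun i _ => ?_
      have hc : Continuous fun x => |e x (c i) - e p (c i)| :=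
        ((he.cx (c i)).sub continuous_const).abs
      refine hc.continuousAt.eventually_lt continuousAt_const ?_
      simp only [sub_self, abs_zero]
      positivity
    obtain ⟨x, hx, hxD⟩ := mem_closure_iff_nhds.mp hp _ hU
    refine ⟨x, hxD, fun i hi => ?_⟩
    simp only [mem_iInter] at hx
    exact hx i (Finset.mem_range.mpr (by omega))
  choose d hdD hd using h1
  obtain ⟨x, hx, hcl⟩ := hG.c3 d hdD
  refine ⟨x, hx, ?_⟩
  rintro _ ⟨i, rfl⟩
  have h2 : MapClusterPt (e x (c i)) atTop ((fun x => e x (c i)) ∘ d) :=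
    MapClusterPt.continuousAt_comp (f := fun x => e x (c i)) (he.cx (c i)).continuousAt hcl
  have h3 : Tendsto ((fun x => e x (c i)) ∘ d) atTop (𝓝 (e p (c i))) := by
    rw [tendsto_iff_norm_sub_tendsto_zero]
    refine squeeze_zero' (Eventually.of_forall fun n => norm_nonneg _) ?_
      tendsto_one_div_add_atTop_nhds_zero_nat
    filter_upwards [eventually_ge_atTop i] with n hn
    exact (hd n i hn).le
  have h4 : (𝓝 (e x (c i)) ⊓ 𝓝 (e p (c i))).NeBot :=
    Filter.NeBot.mono h2 (inf_le_inf_left _ h3)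
  exact eq_of_nhds_neBot h4

/-- The value at `y` of the retraction of `p`. -/
theorem Good.lam [CompactSpace X] [LindelofSpace Y] {e : X → Y → ℝ} (he : Pairing e)
    {D : Set X} {E : Set Y} (hG : Good e D E) (p : X) (y : Y) :
    ∃ l : ℝ, (∃ C ⊆ E, C.Countable ∧ ∀ x ∈ closure D, (∀ c ∈ C, e x c = e p c) → e x y = l) ∧
      ∃ C' ⊆ D, C'.Countable ∧ ∀ y' ∈ E, (∀ d ∈ C', e d y' = e d y) → e p y' = l := by
  obtain ⟨C, hCE, hC, C', hCD, hC', h⟩ := star1 he D E p y
  obtain ⟨y', hy', hy'2⟩ := hG.c2 C' hCD hC' y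
  have key : ∀ x ∈ D, (∀ c ∈ C, e x c = e p c) → e x y = e p y' :=
    fun x hx hxc => h x hx y' hy' hxc hy'2
  refine ⟨e p y', ⟨C, hCE, hC, fun x hx hxc => ?_⟩, C', hCD, hC', fun z hz hzd => ?_⟩
  · obtain ⟨x', hx', hx'2⟩ := hG.cl_agree he hx (hC.insert y)
    rw [← hx'2 y (mem_insert _ _)]
    exact key x' hx' fun c hc => (hx'2 c (mem_insert_of_mem _ hc)).trans (hxc c hc)
  · obtain ⟨x, hx, hxc⟩ := hG.c1 C hCE hC p
    rw [← h x hx z hz hxc hzd, key x hx hxc]

theorem Good.sep [CompactSpace X] [LindelofSpace Y] {e : X → Y → ℝ} (he : Pairing e)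
    (hsep : ∀ x x', (∀ y, e x y = e x' y) → x = x')
    {D : Set X} {E : Set Y} (hG : Good e D E) {x x' : X} (hx : x ∈ closure D)
    (hx' : x' ∈ closure D) (h : ∀ c ∈ E, e x c = e x' c) : x = x' := by
  apply hsep
  intro y
  obtain ⟨l, ⟨C, hCE, _, h1⟩, _⟩ := hG.lam he x y
  rw [h1 x hx fun _ _ => rfl, h1 x' hx' fun c hc => (h c (hCE hc)).symm]

theorem Good.exists_retr [CompactSpace X] {e : X → Y → ℝ} (he : Pairing e)
    {D : Set X} {E : Set Y} (hG : Good e D E) (p : X) :
    ∃ x ∈ closure D, ∀ c ∈ E, e x c = e p c := by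
  obtain ⟨x, hx, hx2⟩ := (isClosed_closure (s := D)).isCompact.inter_iInter_nonempty
    (fun c : E => {x | e x c = e p c})
    (fun c => isClosed_eq (he.cx c) continuous_const)
    (by
      intro u
      obtain ⟨x, hx, hxc⟩ := hG.c1 (Subtype.val '' (u : Set E)) (by simp)
        ((u.countable_toSet).image _) p
      refine ⟨x, subset_closure hx, ?_⟩
      simp only [mem_iInter]
      exact fun c hc => hxc c ⟨c, hc, rfl⟩)
  refine ⟨x, hx, fun c hc => ?_⟩
  simp only [mem_iInter] at hx2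
  exact hx2 ⟨c, hc⟩

/-- The retraction defined by a good pair. -/
noncomputable def retr [CompactSpace X] {e : X → Y → ℝ} (he : Pairing e)
    {D : Set X} {E : Set Y} (hG : Good e D E) (p : X) : X := (hG.exists_retr he p).choose

theorem retr_mem [CompactSpace X] {e : X → Y → ℝ} (he : Pairing e)
    {D : Set X} {E : Set Y} (hG : Good e D E) (p : X) : retr he hG p ∈ closure D :=
  (hG.exists_retr he p).choose_spec.1

theorem retr_eq [CompactSpace X] {e : X → Y → ℝ} (he : Pairing e)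
    {D : Set X} {E : Set Y} (hG : Good e D E) (p : X) {c : Y} (hc : c ∈ E) :
    e (retr he hG p) c = e p c :=
  (hG.exists_retr he p).choose_spec.2 c hc

/-- The composition of `y` with the retraction is again given by a member of `Y`. -/
theorem Good.exists_comp [CompactSpace X] [LindelofSpace Y] {e : X → Y → ℝ} (he : Pairing e)
    {D : Set X} {E : Set Y} (hG : Good e D E) (y : Y) :
    ∃ y', ∀ p, e p y' = e (retr he hG p) y := by
  have h : ∀ p, ∃ C' ⊆ D, C'.Countable ∧ ∀ y' ∈ E, (∀ d ∈ C', e d y' = e d y) →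
      e p y' = e (retr he hG p) y := by
    intro p
    obtain ⟨l, ⟨C, hCE, _, h1⟩, h2⟩ := hG.lam he p y
    rw [h1 (retr he hG p) (retr_mem he hG p) fun c hc => retr_eq he hG p (hCE hc)]
    exact h2
  choose C' hCD hC' hC using h
  have hne : (univ ∩ ⋂ p : X, {y' | e p y' = e (retr he hG p) y}).Nonempty := by
    by_contra hcon
    obtain ⟨u, hu, hu2⟩ := (isLindelof_univ (X := Y)).elim_countable_subfamily_closed
      (fun p : X => {y' | e p y' = e (retr he hG p) y})
      (fun p => isClosed_eq (he.cy p) continuous_const) (not_nonempty_iff_eq_empty.mp hcon)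
    obtain ⟨y', hy', hy'2⟩ := hG.c2 (⋃ p ∈ u, C' p) (iUnion₂_subset fun p _ => hCD p)
      (hu.biUnion fun p _ => hC' p) y
    have : y' ∈ univ ∩ ⋂ p ∈ u, {y' | e p y' = e (retr he hG p) y} := by
      refine ⟨mem_univ _, ?_⟩
      simp only [mem_iInter]
      exact fun p hp => hC p y' hy' fun d hd => hy'2 d (mem_iUnion₂.mpr ⟨p, hp, hd⟩)
    rw [hu2] at this
    exact this
  obtain ⟨y', -, hy'⟩ := hne
  refine ⟨y', fun p => ?_⟩
  simp only [mem_iInter] at hy'
  exact hy' p

end Pool.MP_961719_gt
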