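import Pool.Agent.MP_961719_gt.Struct

set_option autoImplicit false

/-!
# Lindelöf families of differences
-/

namespace Pool.MP_961719_gt

open Set Topology Filter Cardinal

universe u

/-- For a Lindelöf family of continuous functions on a compact space there are a countable set `R`
and, inside any given nonempty closed `G_δ`-set, a nonempty `G_δ`-set `H` such that the members which
vanish on `R` vanish on `H`. -/
theorem exists_pinned {X Z : Type u} [TopologicalSpace X] [CompactSpace X]
    [TopologicalSpace Z] [LindelofSpace Z] {d : X → Z → ℝ} (hd : Pairing d) {G : Set X}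
    (hG : IsGδ G) (hGc : IsClosed G) (hGne : G.Nonempty) :
    ∃ R : Set X, R.Countable ∧ ∃ H ⊆ G, IsGδ H ∧ H.Nonempty ∧
      ∀ f : Z, (∀ x ∈ R, d x f = 0) → ∀ x ∈ H, d x f = 0 := by
  classical
  by_contra hcon
  push Not at hcon
  have hZ : Nonempty Z := by
    obtain ⟨f, -⟩ := hcon ∅ countable_empty G subset_rfl hG hGne
    exact ⟨f⟩
  obtain ⟨x₀, hx₀⟩ := id hGne
  have : Nonempty (X × Z) := ⟨(x₀, Classical.arbitrary Z)⟩
  obtain ⟨f, hf⟩ := exists_rec (ι := Om1) (T := X × Z)
    (fun i f t => (∀ j < i, d (f j).1 t.2 = 0) ∧ d t.1 t.2 ≠ 0 ∧ t.1 ∈ G ∧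
      ∀ j < i, d t.1 (f j).2 = d (f j).1 (f j).2)
    (by
      intro i f g t hfg h
      refine ⟨fun j hj => ?_, h.2.1, h.2.2.1, fun j hj => ?_⟩
      · rw [← hfg j hj]; exact h.1 j hj
      · rw [← hfg j hj]; exact h.2.2.2 j hj)
    (by
      intro i f h
      have hR : ((fun j => (f j).1) '' Iio i).Countable := (Om1.countable_Iio i).image _
      set H : Set X := G ∩ ⋂ j ∈ Iio i, {x | d x (f j).2 = d (f j).1 (f j).2} with hH
      have hHG : IsGδ H := by
        refine hG.inter (IsGδ.biInter (Om1.countable_Iio i) fun j _ => ?_)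
        exact (isClosed_singleton (x := d (f j).1 (f j).2)).isGδ.preimage (hd.cx (f j).2)
      have hHne : H.Nonempty := by
        have h1 := hGc.isCompact.inter_iInter_nonempty
          (fun j : Iio i => {x | d x (f j).2 = d (f j).1 (f j).2})
          (fun j => isClosed_eq (hd.cx _) continuous_const)
          (by
            intro u
            rcases u.eq_empty_or_nonempty with rfl | hne
            · simpa using hGne
            obtain ⟨j, hj, hmax⟩ := u.exists_max_image id hne
            refine ⟨(f j).1, (h j j.2).2.2.1, ?_⟩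
            simp only [mem_iInter]
            intro k hk
            rcases (hmax k hk).eq_or_lt with h1 | h1
            · have h2 : k = j := h1
              rw [h2]
              rfl
            · exact (h j j.2).2.2.2 k h1)
        obtain ⟨x, hx, hx2⟩ := h1
        refine ⟨x, hx, mem_iInter₂.mpr fun j hj => ?_⟩
        exact mem_iInter.mp hx2 ⟨j, hj⟩
      obtain ⟨g, hg, x, hx, hne⟩ := hcon _ hR H inter_subset_left hHG hHne
      refine ⟨(x, g), fun j hj => hg _ ⟨j, hj, rfl⟩, hne, hx.1, fun j hj => ?_⟩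
      exact mem_iInter₂.mp hx.2 j hj)
  exact no_pattern_ne hd Om1.countable_Iic (fun i => (f i).1) (fun i => (f i).2) (fun _ => 0)
    (fun i => d (f i).1 (f i).2) (fun i => (hf i).2.1.symm)
    (Or.inl fun i j hij => (hf j).1 i hij) (Or.inl fun i j hij => (hf i).2.2.2 j hij)

variable {X Y : Type u} [TopologicalSpace X] [TopologicalSpace Y]

/-- The structure of a homogeneous compact space with more than `𝔠` points. -/
theorem exists_independent [CompactSpace X] [LindelofSpace Y] {e : X → Y → ℝ} (he : Pairing e)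
    (hsep : ∀ x x', (∀ y, e x y = e x' y) → x = x')
    (hom : ∀ x y : X, ∃ h : X ≃ₜ X, h x = y) (hcard : continuum < #X)
    {G : Set X} (hG : IsGδ G) (hGne : G.Nonempty) (E : Set (Y × Y))
    (hE : IsLindelof {g : X → ℝ | ∃ p ∈ E, g = fun x => e x p.1 - e x p.2}) :
    ∃ F ⊆ G, IsGδ F ∧ ∃ (I : Type u) (z : I → X) (y : I → Y) (m ε : ℝ), continuum < #I ∧ 0 < ε ∧
      (∀ i, z i ∈ F) ∧ (∀ i, e (z i) (y i) = m) ∧ (∀ i j, i ≠ j → ε ≤ |e (z i) (y j) - m|) ∧
      (∀ x ∈ F, {i | |e x (y i) - m| < ε}.Countable) ∧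
      ∀ y' ∈ closure (range y), ∀ i j, (y i, y') ∈ E → (y j, y') ∈ E → i = j := by
  classical
  obtain ⟨x₀, hx₀⟩ := id hGne
  have hY : Nonempty Y := by
    by_contra hY
    rw [not_nonempty_iff] at hY
    have : Subsingleton X := ⟨fun x x' => hsep x x' fun y => (hY.false y).elim⟩
    exact absurd ((le_one_iff_subsingleton.mpr this).trans
      (one_le_aleph0.trans aleph0_le_continuum)) (not_le.mpr hcard)
  obtain ⟨C, hC⟩ := exists_support_gdelta he hsep hG hx₀
  set G' : Set X := ⋂ n, {p | e p (C n) = e x₀ (C n)} with hG'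
  have hG'G : G' ⊆ G := fun p hp => hC p fun n => mem_iInter.mp hp n
  have hG'1 : IsGδ G' := by
    refine IsGδ.iInter fun n => ?_
    exact (isClosed_singleton (x := e x₀ (C n))).isGδ.preimage (he.cx (C n))
  have hG'2 : IsClosed G' := isClosed_iInter fun n => isClosed_eq (he.cx _) continuous_const
  have hG'3 : G'.Nonempty := ⟨x₀, mem_iInter.mpr fun n => rfl⟩
  set S : Set (X → ℝ) := {g : X → ℝ | ∃ p ∈ E, g = fun x => e x p.1 - e x p.2} with hS
  have : LindelofSpace S := isLindelof_iff_lindelofSpace.mp hE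
  have hd : Pairing (fun (x : X) (g : S) => g.1 x) := by
    constructor
    · rintro ⟨g, p, hp, rfl⟩
      exact (he.cx p.1).sub (he.cx p.2)
    · intro x
      exact (continuous_apply x).comp continuous_subtype_val
  obtain ⟨R, hR, H, hHG', hH, hHne, hRH⟩ := exists_pinned hd hG'1 hG'2 hG'3
  have key : ∀ p ∈ E, (∀ x ∈ R, e x p.1 = e x p.2) → ∀ x ∈ H, e x p.1 = e x p.2 := by
    intro p hp h x hx
    have := hRH ⟨fun x => e x p.1 - e x p.2, p, hp, rfl⟩ (fun x hx => sub_eq_zero.mpr (h x hx)) x hx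
    exact sub_eq_zero.mp this
  have hdense : ∀ A : Set X, #A ≤ continuum → ¬ H ⊆ closure A := fun A hA hsub =>
    absurd (mk_le_of_gdelta he hsep hom hH hHne hA hsub) (not_le.mpr hcard)
  obtain ⟨r, hr⟩ := (hR.insert x₀).exists_eq_range (insert_nonempty _ _)
  obtain ⟨I, z, y, m, ε, τ, C', v, hI, hε, hz, hτ, hm, hε2, hCv, hpc⟩ :=
    exists_biorthogonal he hsep H hdense r
  refine ⟨H ∩ ⋂ n, {x | e x (C' n) = v n}, fun x hx => hG'G (hHG' hx.1), ?_, I, z, y, m, ε, hI, hε,
    fun i => ⟨hz i, mem_iInter.mpr fun n => hCv i n⟩, hm, hε2,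
    fun x hx => hpc x fun n => mem_iInter.mp hx.2 n, fun y' hy' i j hi hj => ?_⟩
  · refine hH.inter (IsGδ.iInter fun n => ?_)
    exact (isClosed_singleton (x := v n)).isGδ.preimage (he.cx (C' n))
  have hyτ : ∀ n, e (r n) y' = τ n := by
    intro n
    have hcl : IsClosed {y | e (r n) y = τ n} := isClosed_eq (he.cy (r n)) continuous_const
    refine closure_minimal ?_ hcl hy'
    rintro _ ⟨i, rfl⟩
    exact hτ i n
  have h1 : ∀ i, (y i, y') ∈ E → ∀ x ∈ H, e x (y i) = e x y' := by
    intro i hi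
    refine key (y i, y') hi fun x hx => ?_
    have : x ∈ range r := by
      rw [← hr]
      exact mem_insert_of_mem _ hx
    obtain ⟨n, rfl⟩ := this
    exact (hτ i n).trans (hyτ n).symm
  by_contra hij
  have h2 := hε2 i j hij
  rw [h1 j hj _ (hz i), ← h1 i hi _ (hz i), hm i, sub_self, abs_zero] at h2
  exact absurd h2 (not_le.mpr hε)

end Pool.MP_961719_gt
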