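import Mathlib

set_option autoImplicit false

/-!
# Patterns in a separately continuous pairing of a compact space and a Lindelöf space
-/

namespace Pool.MP_961719_gt

open Set Topology

/-- A separately continuous real valued pairing of two spaces. -/
structure Pairing {X Y : Type*} [TopologicalSpace X] [TopologicalSpace Y] (e : X → Y → ℝ) :
    Prop where
  cx : ∀ y, Continuous (fun x => e x y)
  cy : ∀ x, Continuous (fun y => e x y)

theorem Pairing.neg {X Y : Type*} [TopologicalSpace X] [TopologicalSpace Y] {e : X → Y → ℝ}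
    (he : Pairing e) : Pairing (fun x y => - e x y) :=
  ⟨fun y => (he.cx y).neg, fun x => (he.cy x).neg⟩

/-- Dependent choice along a well order. -/
theorem exists_rec {ι T : Type*} [LinearOrder ι] [WellFoundedLT ι] [Nonempty T]
    (P : ι → (ι → T) → T → Prop)
    (hcongr : ∀ i f g t, (∀ j < i, f j = g j) → P i f t → P i g t)
    (h : ∀ i f, (∀ j < i, P j f (f j)) → ∃ t, P i f t) :
    ∃ f : ι → T, ∀ i, P i f (f i) := by
  classical
  let ext : (i : ι) → ((j : ι) → j < i → T) → ι → T :=
    fun i r j => if hj : j < i then r j hj else Classical.arbitrary T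
  let F : (i : ι) → ((j : ι) → j < i → T) → T := fun i r =>
    if h : ∃ t, P i (ext i r) t then h.choose else Classical.arbitrary T
  let wf : WellFounded (fun a b : ι => a < b) := wellFounded_lt
  let f : ι → T := wf.fix F
  have hf : ∀ i, f i = F i (fun j _ => f j) := fun i => wf.fix_eq F i
  refine ⟨f, fun i => ?_⟩
  induction i using wf.induction with
  | _ i ih =>
    obtain ⟨t, ht⟩ := h i f ih
    have h1 : ∀ j < i, f j = ext i (fun j _ => f j) j := fun j hj => by simp [ext, hj]
    have h2 : ∃ t, P i (ext i (fun j _ => f j)) t := ⟨t, hcongr i _ _ _ h1 ht⟩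
    have h3 : f i = h2.choose := by
      rw [hf i]
      exact dif_pos h2
    have h4 := h2.choose_spec
    rw [← h3] at h4
    exact hcongr i _ _ _ (fun j hj => (h1 j hj).symm) h4

theorem exists_acc {Y ι : Type*} [TopologicalSpace Y] [LindelofSpace Y] [Uncountable ι]
    (y : ι → Y) : ∃ p, ∀ U ∈ 𝓝 p, ¬ {i | y i ∈ U}.Countable := by
  by_contra hcon
  push Not at hcon
  choose U hU hc using hcon
  obtain ⟨t, htc, ht⟩ := LindelofSpace.elim_nhds_subcover U hU
  have h1 : (⋃ x ∈ t, {i | y i ∈ U x}).Countable := htc.biUnion fun x _ => hc x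
  have h2 : (⋃ x ∈ t, {i | y i ∈ U x}) = univ := by
    ext i
    simp only [mem_iUnion, mem_univ, iff_true]
    have : y i ∈ ⋃ x ∈ t, U x := by rw [ht]; trivial
    simpa using this
  rw [h2] at h1
  exact not_countable_univ h1

/-- The basic impossibility: a real valued separately continuous pairing of a compact space with a
Lindelöf space contains no pattern of type `ω₁`. -/
theorem no_pattern {X Y ι : Type*} [TopologicalSpace X] [CompactSpace X] [TopologicalSpace Y]
    [LindelofSpace Y] {e : X → Y → ℝ} (he : Pairing e) [LinearOrder ι] [Uncountable ι]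
    (hι : ∀ i : ι, (Iic i).Countable) (x : ι → X) (y : ι → Y) {r s : ℝ} (hrs : r < s)
    (h1 : ∀ i j, i < j → s ≤ e (x i) (y j)) (h2 : ∀ i j, j < i → e (x i) (y j) ≤ r) : False := by
  obtain ⟨y₀, hy₀⟩ := exists_acc y
  obtain ⟨x₀, hx₀⟩ := exists_acc x
  -- large members
  have key : ∀ (S : Set ι), ¬ S.Countable → ∀ i : ι, ∃ j ∈ S, i < j := by
    intro S hS i
    by_contra hcon
    push Not at hcon
    exact hS ((hι i).mono fun j hj => hcon j hj)
  have a1 : ∀ i, s ≤ e (x i) y₀ := by
    intro i
    by_contra hcon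
    push Not at hcon
    have hU : {y | e (x i) y < s} ∈ 𝓝 y₀ := (he.cy (x i)).continuousAt.eventually_lt
      continuousAt_const hcon
    obtain ⟨j, hj, hij⟩ := key _ (hy₀ _ hU) i
    exact absurd (h1 i j hij) (not_le.mpr hj)
  have a2 : ∀ j, e x₀ (y j) ≤ r := by
    intro j
    by_contra hcon
    push Not at hcon
    have hU : {x | r < e x (y j)} ∈ 𝓝 x₀ := continuousAt_const.eventually_lt
      (he.cx (y j)).continuousAt hcon
    obtain ⟨i, hi, hij⟩ := key _ (hx₀ _ hU) j
    exact absurd (h2 i j hij) (not_le.mpr hi)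
  have b1 : s ≤ e x₀ y₀ := by
    by_contra hcon
    push Not at hcon
    have hU : {x | e x y₀ < s} ∈ 𝓝 x₀ := (he.cx y₀).continuousAt.eventually_lt
      continuousAt_const hcon
    have hne : ({i | x i ∈ {x | e x y₀ < s}}).Nonempty := by
      by_contra h
      rw [not_nonempty_iff_eq_empty] at h
      have := hx₀ _ hU
      rw [h] at this
      exact this countable_empty
    obtain ⟨i, hi⟩ := hne
    exact absurd (a1 i) (not_le.mpr hi)
  have b2 : e x₀ y₀ ≤ r := by
    by_contra hcon
    push Not at hcon
    have hU : {y | r < e x₀ y} ∈ 𝓝 y₀ := continuousAt_const.eventually_lt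
      (he.cy x₀).continuousAt hcon
    have hne : ({j | y j ∈ {y | r < e x₀ y}}).Nonempty := by
      by_contra h
      rw [not_nonempty_iff_eq_empty] at h
      have := hy₀ _ hU
      rw [h] at this
      exact this countable_empty
    obtain ⟨j, hj⟩ := hne
    exact absurd (a2 j) (not_le.mpr hj)
  linarith

/-- Pigeonhole for two different real functions on an uncountable set. -/
theorem exists_uncountable_sep {ι : Type*} [Uncountable ι] (a b : ι → ℝ) (hab : ∀ i, a i ≠ b i) :
    ∃ (r s : ℝ) (T : Set ι), r < s ∧ ¬ T.Countable ∧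
      ((∀ i ∈ T, a i ≤ r ∧ s ≤ b i) ∨ (∀ i ∈ T, b i ≤ r ∧ s ≤ a i)) := by
  by_contra hcon
  push Not at hcon
  -- countably many choices
  let S1 : ℚ × ℚ → Set ι := fun q => {i | q.1 < q.2 ∧ a i ≤ q.1 ∧ (q.2 : ℝ) ≤ b i}
  let S2 : ℚ × ℚ → Set ι := fun q => {i | q.1 < q.2 ∧ b i ≤ q.1 ∧ (q.2 : ℝ) ≤ a i}
  have c1 : ∀ q, (S1 q).Countable := by
    intro q
    by_cases hq : q.1 < q.2
    · by_contra hS
      obtain ⟨i, hi, hi'⟩ := (hcon (q.1 : ℝ) (q.2 : ℝ) (S1 q) (by exact_mod_cast hq) hS).1
      exact absurd (hi' hi.2.1) (not_lt.mpr hi.2.2)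
    · have : S1 q = ∅ := by
        ext i
        simp only [S1, mem_ofPred_eq, mem_empty_iff_false, iff_false]
        exact fun h => hq h.1
      rw [this]
      exact countable_empty
  have c2 : ∀ q, (S2 q).Countable := by
    intro q
    by_cases hq : q.1 < q.2
    · by_contra hS
      obtain ⟨i, hi, hi'⟩ := (hcon (q.1 : ℝ) (q.2 : ℝ) (S2 q) (by exact_mod_cast hq) hS).2
      exact absurd (hi' hi.2.1) (not_lt.mpr hi.2.2)
    · have : S2 q = ∅ := by
        ext i
        simp only [S2, mem_ofPred_eq, mem_empty_iff_false, iff_false]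
        exact fun h => hq h.1
      rw [this]
      exact countable_empty
  have h : (⋃ q, S1 q) ∪ (⋃ q, S2 q) = univ := by
    ext i
    simp only [mem_union, mem_iUnion, mem_univ, iff_true]
    rcases lt_or_gt_of_ne (hab i) with hlt | hlt
    · left
      obtain ⟨q, hq1, hq2⟩ := exists_rat_btwn hlt
      obtain ⟨q', hq1', hq2'⟩ := exists_rat_btwn hq2
      exact ⟨(q, q'), by exact_mod_cast hq1', hq1.le, hq2'.le⟩
    · right
      obtain ⟨q, hq1, hq2⟩ := exists_rat_btwn hlt
      obtain ⟨q', hq1', hq2'⟩ := exists_rat_btwn hq2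
      exact ⟨(q, q'), by exact_mod_cast hq1', hq1.le, hq2'.le⟩
  have : ((⋃ q, S1 q) ∪ (⋃ q, S2 q)).Countable :=
    (countable_iUnion c1).union (countable_iUnion c2)
  rw [h] at this
  exact not_countable_univ this

/-- No pattern with values depending on the index of the compact side below the diagonal. -/
theorem no_pattern_ne {X Y ι : Type*} [TopologicalSpace X] [CompactSpace X] [TopologicalSpace Y]
    [LindelofSpace Y] {e : X → Y → ℝ} (he : Pairing e) [LinearOrder ι] [Uncountable ι]
    (hι : ∀ i : ι, (Iic i).Countable) (x : ι → X) (y : ι → Y) (a b : ι → ℝ)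
    (hab : ∀ i, a i ≠ b i)
    (h1 : (∀ i j, i < j → e (x i) (y j) = a i) ∨ (∀ i j, i < j → e (x i) (y j) = a j))
    (h2 : (∀ i j, j < i → e (x i) (y j) = b j) ∨ (∀ i j, j < i → e (x i) (y j) = b i)) :
    False := by
  obtain ⟨r, s, T, hrs, hT, hT'⟩ := exists_uncountable_sep a b hab
  have : Uncountable T := by
    rw [← not_countable_iff]
    exact fun h => hT (Set.countable_coe_iff.mp h)
  have hι' : ∀ i : T, (Iic i).Countable := by
    intro i
    have : (Iic i) = Subtype.val ⁻¹' (Iic (i : ι)) := by
      ext j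
      simp
    rw [this]
    exact (hι i).preimage Subtype.val_injective
  rcases hT' with h | h
  · -- `a ≤ r < s ≤ b`: use the negative pairing
    refine no_pattern he.neg hι' (fun i => x i) (fun i => y i) (neg_lt_neg hrs) ?_ ?_
    · intro i j hij
      have : e (x i) (y j) ≤ r := by
        rcases h1 with h1 | h1
        · rw [h1 i j hij]; exact (h i i.2).1
        · rw [h1 i j hij]; exact (h j j.2).1
      simpa using this
    · intro i j hij
      have : s ≤ e (x i) (y j) := by
        rcases h2 with h2 | h2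
        · rw [h2 i j hij]; exact (h j j.2).2
        · rw [h2 i j hij]; exact (h i i.2).2
      simpa using this
  · refine no_pattern he hι' (fun i => x i) (fun i => y i) hrs ?_ ?_
    · intro i j hij
      rcases h1 with h1 | h1
      · rw [h1 i j hij]; exact (h i i.2).2
      · rw [h1 i j hij]; exact (h j j.2).2
    · intro i j hij
      rcases h2 with h2 | h2
      · rw [h2 i j hij]; exact (h j j.2).1
      · rw [h2 i j hij]; exact (h i i.2).1

end Pool.MP_961719_gt
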