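import Pool.Agent.MP_961719_gt.Chain

set_option autoImplicit false

/-!
# End-homogeneous sequences of type `ω₁` and chains of length `𝔠⁺`
-/

namespace Pool.MP_961719_gt

open Set Topology Filter

universe u

open Cardinal in
/-- A version of the Erdős-Rado theorem: a colouring of the pairs of an unbounded subset of a well
order of type `𝔠⁺` with countably many colours has a homogeneous subset of type `ω₁`. -/
theorem exists_homog {N ι : Type u} [LinearOrder ι] [WellFoundedLT ι] (hN : continuum ≤ #N)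
    (h : Idx N ι) (T : Set ι) (hT : ∀ b, ∃ t ∈ T, b < t) (col : ι → ι → ℕ) :
    ∃ (H : Set Om1) (a : Om1 → ι) (c : ℕ), ¬ H.Countable ∧ (∀ i, a i ∈ T) ∧
      (∀ i j, i < j → a i < a j) ∧ ∀ i ∈ H, ∀ j, i < j → col (a i) (a j) = c := by
  classical
  obtain ⟨i₀⟩ := h.ne
  obtain ⟨t₀, ht₀, -⟩ := hT i₀
  -- closing off
  let F : (ℕ → ι) → ULift.{u} (ℕ → ℕ) → ι := fun a q =>
    if h : ∃ t ∈ T, ∀ n, a n < t ∧ col (a n) t = q.down n then h.choose else t₀
  have hκ2 : (continuum.{u}) ^ ℵ₀ = continuum := continuum_power_aleph0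
  have hQ : #(ULift.{u} (ℕ → ℕ)) ≤ continuum.{u} := by
    rw [mk_uLift, mk_pi, prod_const]
    simp
  obtain ⟨S, hS0, hS, hSF⟩ := exists_closed (Z := ι) (Q := ULift.{u} (ℕ → ℕ))
    (κ := continuum.{u}) aleph0_le_continuum hκ2 hQ F {t₀}
    (by rw [mk_singleton]; exact one_le_aleph0.trans aleph0_le_continuum)
  have hSN : #S ≤ #N := hS.trans hN
  have : Nonempty S := ⟨⟨t₀, hS0 rfl⟩⟩
  obtain ⟨emb⟩ := hSN
  obtain ⟨b, hb⟩ := h.bd (fun n => (Function.invFun emb n : S).1)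
  have hb' : ∀ s ∈ S, s < b := by
    intro s hs
    have := hb (emb ⟨s, hs⟩)
    rwa [Function.leftInverse_invFun emb.injective] at this
  obtain ⟨ts, hts, hbts⟩ := hT b
  have htop : ∀ s ∈ S, s < ts := fun s hs => (hb' s hs).trans hbts
  -- the sequence
  have : Nonempty ι := ⟨i₀⟩
  obtain ⟨a, ha⟩ := exists_rec (ι := Om1) (T := ι)
    (fun i f t => t ∈ S ∧ t ∈ T ∧ ∀ j < i, f j < t ∧ col (f j) t = col (f j) ts)
    (by
      intro i f g t hfg hh
      refine ⟨hh.1, hh.2.1, fun j hj => ?_⟩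
      rw [← hfg j hj]
      exact hh.2.2 j hj)
    (by
      intro i f hf
      rcases (Iio i).eq_empty_or_nonempty with he | hne
      · refine ⟨t₀, hS0 rfl, ht₀, fun j hj => ?_⟩
        have : j ∈ Iio i := hj
        rw [he] at this
        exact absurd this (notMem_empty j)
      · obtain ⟨en, hen⟩ := (Om1.countable_Iio i).exists_eq_range hne
        have hlt : ∀ n, en n < i := fun n => by
          have : en n ∈ Iio i := by rw [hen]; exact ⟨n, rfl⟩
          exact this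
        have hex : ∃ t ∈ T, ∀ n, f (en n) < t ∧
            col (f (en n)) t = (ULift.up fun n => col (f (en n)) ts : ULift.{u} (ℕ → ℕ)).down n :=
          ⟨ts, hts, fun n => ⟨htop _ (hf _ (hlt n)).1, rfl⟩⟩
        have h1 : F (fun n => f (en n)) (ULift.up fun n => col (f (en n)) ts) = hex.choose :=
          dif_pos hex
        have h2 := hex.choose_spec
        rw [← h1] at h2
        refine ⟨F (fun n => f (en n)) (ULift.up fun n => col (f (en n)) ts),
          hSF _ (fun n => (hf _ (hlt n)).1) _, h2.1, fun j hj => ?_⟩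
        have : j ∈ range en := by rw [← hen]; exact hj
        obtain ⟨n, rfl⟩ := this
        exact h2.2 n)
  -- pigeonhole
  obtain ⟨c, hc⟩ : ∃ c : ℕ, ¬ {i | col (a i) ts = c}.Countable := by
    by_contra hcon
    push Not at hcon
    have h1 : (⋃ c : ℕ, {i | col (a i) ts = c}).Countable := countable_iUnion hcon
    have h2 : (⋃ c : ℕ, {i | col (a i) ts = c}) = Set.univ := by
      ext i
      simp
    rw [h2] at h1
    exact not_countable_univ h1
  exact ⟨{i | col (a i) ts = c}, a, c, hc, fun i => (ha i).2.1, fun i j hij => ((ha j).2.2 i hij).1,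
    fun i hi j hij => ((ha j).2.2 i hij).2.trans hi⟩

variable {X Y : Type u} [TopologicalSpace X] [TopologicalSpace Y]

omit [TopologicalSpace Y] in
open Cardinal in
/-- Long chains of good pairs such that each member answers all requests made by the union of the
preceding ones. -/
theorem exists_chain' [CompactSpace X] [Nonempty X] [Nonempty Y] (e : X → Y → ℝ)
    {κ : Cardinal.{u}} (hc : continuum ≤ κ) (hκ2 : κ ^ ℵ₀ = κ)
    {ι : Type u} [LinearOrder ι] [WellFoundedLT ι] (hι : ∀ i : ι, #(Iio i) ≤ κ)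
    (Ans : Set (X ⊕ Y) → (ℕ → Y) → (ℕ → ℝ) → Set (X ⊕ Y)) (hAns : ∀ S C v, #(Ans S C v) ≤ κ) :
    ∃ A : ι → Set (X ⊕ Y), (∀ i j, i ≤ j → A i ⊆ A j) ∧ (∀ i, #(A i) ≤ κ) ∧
      (∀ i, Good e (Sum.inl ⁻¹' A i) (Sum.inr ⁻¹' A i)) ∧
      ∀ i, ∀ C : ℕ → Y, (∀ n, Sum.inr (C n) ∈ ⋃ j ∈ Iio i, A j) → ∀ v,
        Ans (⋃ j ∈ Iio i, A j) C v ⊆ A i := by
  have hκ : ℵ₀ ≤ κ := aleph0_le_continuum.trans hc
  let R : Set (X ⊕ Y) → Set (X ⊕ Y) := fun S =>
    ⋃ p : ULift.{u} ((ℕ → (Sum.inr ⁻¹' S : Set Y)) × (ℕ → ℝ)),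
      Ans S (fun n => (p.down.1 n).1) p.down.2
  have hR : ∀ S : Set (X ⊕ Y), #S ≤ κ → #(R S) ≤ κ := by
    intro S hS
    refine mk_iUnion_le_of hκ _ ?_ fun p => hAns _ _ _
    have h1 : #(Sum.inr ⁻¹' S : Set Y) ≤ κ := (mk_preimage_of_injective _ _ Sum.inr_injective).trans hS
    have h2 : #(ℕ → (Sum.inr ⁻¹' S : Set Y)) ≤ κ := by
      rw [mk_pi, prod_const, mk_nat, lift_aleph0, lift_uzero]
      calc _ ≤ κ ^ ℵ₀ := power_le_power_right h1
        _ = κ := hκ2
    have h3 : #(ℕ → ℝ) ≤ continuum := by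
      rw [mk_pi, prod_const, mk_real, mk_nat]
      simp
    rw [mk_uLift, mk_prod, lift_umax, lift_mul]
    simp only [lift_lift]
    refine (mul_le_mul' ?_ ?_).trans (mul_eq_self hκ).le
    · simpa using h2
    · calc _ ≤ lift.{u} continuum := by
            have := lift_le.{u}.mpr h3
            simpa using this
        _ = continuum := lift_continuum
        _ ≤ κ := hc
  obtain ⟨A, hA⟩ := exists_rec (ι := ι) (T := Set (X ⊕ Y))
    (fun i f t => #t ≤ κ ∧ Good e (Sum.inl ⁻¹' t) (Sum.inr ⁻¹' t) ∧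
      (⋃ j ∈ Iio i, f j) ⊆ t ∧ R (⋃ j ∈ Iio i, f j) ⊆ t)
    (by
      intro i f g t hfg h
      have : (⋃ j ∈ Iio i, g j) = ⋃ j ∈ Iio i, f j := by
        refine iUnion₂_congr fun j hj => (hfg j hj).symm
      rw [this]
      exact h)
    (by
      intro i f h
      have h1 : #(⋃ j ∈ Iio i, f j : Set (X ⊕ Y)) ≤ κ := by
        rw [biUnion_eq_iUnion]
        exact mk_iUnion_le_of hκ _ (hι i) fun j => (h j j.2).1
      have hS : #((⋃ j ∈ Iio i, f j) ∪ R (⋃ j ∈ Iio i, f j) : Set (X ⊕ Y)) ≤ κ :=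
        (mk_union_le _ _).trans ((add_le_add h1 (hR _ h1)).trans (add_eq_self hκ).le)
      obtain ⟨T, hST, hT, hG⟩ := exists_good e hc hκ2 _ hS
      exact ⟨T, hT, hG, fun z hz => hST (Or.inl hz), fun z hz => hST (Or.inr hz)⟩)
  refine ⟨A, fun i j hij => ?_, fun i => (hA i).1, fun i => (hA i).2.1, fun i C hC v => ?_⟩
  · rcases hij.eq_or_lt with rfl | hij
    · exact subset_rfl
    · exact subset_trans (subset_biUnion_of_mem (u := A) (mem_Iio.mpr hij)) (hA j).2.2.1
  · refine subset_trans ?_ (hA i).2.2.2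
    exact subset_iUnion (fun p : ULift.{u} ((ℕ → (Sum.inr ⁻¹' (⋃ j ∈ Iio i, A j) : Set Y)) ×
        (ℕ → ℝ)) => Ans (⋃ j ∈ Iio i, A j) (fun n => (p.down.1 n).1) p.down.2)
      ⟨(fun n => ⟨C n, hC n⟩, v)⟩

end Pool.MP_961719_gt
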