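import Pool.Agent.MP_961719_gt.Good

set_option autoImplicit false

/-!
# Closures of unions of long chains of good pairs
-/

namespace Pool.MP_961719_gt

open Set Topology Filter

universe u

/-- Well orders all of whose `N`-sequences are bounded and all of whose initial segments are
enumerated by `N`. -/
structure Idx (N ι : Type*) [LinearOrder ι] [WellFoundedLT ι] : Prop where
  ne : Nonempty ι
  bd : ∀ f : N → ι, ∃ b, ∀ n, f n < b
  small : ∀ i : ι, ∃ g : N → ι, ∀ j ≤ i, ∃ n, g n = j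

theorem Om1.bdd {S : Set Om1} (hS : S.Countable) : ∃ b, ∀ s ∈ S, s < b := by
  by_contra hcon
  push Not at hcon
  have h1 : (⋃ s ∈ S, Iic s).Countable := hS.biUnion fun s _ => Om1.countable_Iic s
  have h2 : (⋃ s ∈ S, Iic s) = univ := by
    ext b
    simp only [mem_iUnion, mem_univ, iff_true]
    obtain ⟨s, hs, hs2⟩ := hcon b
    exact ⟨s, hs, hs2⟩
  rw [h2] at h1
  exact not_countable_univ h1

variable {X Y : Type u} [TopologicalSpace X] [TopologicalSpace Y]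

omit [TopologicalSpace Y] in
/-- Unions of monotone families of good pairs along countably directed index sets. -/
theorem good_union {e : X → Y → ℝ} {ι : Type*} [LinearOrder ι] {D : ι → Set X} {E : ι → Set Y}
    (hD : Monotone D) (hE : Monotone E) (hG : ∀ i, Good e (D i) (E i)) (J : Set ι)
    (hJ : ∀ S ⊆ J, S.Countable → ∃ b ∈ J, ∀ s ∈ S, s ≤ b) :
    Good e (⋃ i ∈ J, D i) (⋃ i ∈ J, E i) := by
  have hDb : ∀ C ⊆ ⋃ i ∈ J, D i, C.Countable → ∃ b ∈ J, C ⊆ D b := by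
    intro C hC hCc
    have : ∀ c : C, ∃ i ∈ J, (c : X) ∈ D i := by
      intro c
      have := hC c.2
      simpa using this
    choose i hiJ hi using this
    have : Countable C := hCc
    obtain ⟨b, hb, hb2⟩ := hJ (range i) (by rintro _ ⟨c, rfl⟩; exact hiJ c) (countable_range i)
    exact ⟨b, hb, fun c hc => hD (hb2 _ ⟨⟨c, hc⟩, rfl⟩) (hi ⟨c, hc⟩)⟩
  have hEb : ∀ C ⊆ ⋃ i ∈ J, E i, C.Countable → ∃ b ∈ J, C ⊆ E b := by
    intro C hC hCc
    have : ∀ c : C, ∃ i ∈ J, (c : Y) ∈ E i := by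
      intro c
      have := hC c.2
      simpa using this
    choose i hiJ hi using this
    have : Countable C := hCc
    obtain ⟨b, hb, hb2⟩ := hJ (range i) (by rintro _ ⟨c, rfl⟩; exact hiJ c) (countable_range i)
    exact ⟨b, hb, fun c hc => hE (hb2 _ ⟨⟨c, hc⟩, rfl⟩) (hi ⟨c, hc⟩)⟩
  refine ⟨fun C hC hCc p => ?_, fun C hC hCc y => ?_, fun d hd => ?_⟩
  · obtain ⟨b, hb, hb2⟩ := hEb C hC hCc
    obtain ⟨x, hx, hx2⟩ := (hG b).c1 C hb2 hCc p
    exact ⟨x, mem_iUnion₂.mpr ⟨b, hb, hx⟩, hx2⟩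
  · obtain ⟨b, hb, hb2⟩ := hDb C hC hCc
    obtain ⟨x, hx, hx2⟩ := (hG b).c2 C hb2 hCc y
    exact ⟨x, mem_iUnion₂.mpr ⟨b, hb, hx⟩, hx2⟩
  · obtain ⟨b, hb, hb2⟩ := hDb (range d) (by rintro _ ⟨n, rfl⟩; exact hd n) (countable_range d)
    obtain ⟨x, hx, hx2⟩ := (hG b).c3 d fun n => hb2 ⟨n, rfl⟩
    exact ⟨x, mem_iUnion₂.mpr ⟨b, hb, hx⟩, hx2⟩

theorem Idx.countable_bdd {N ι : Type*} [LinearOrder ι] [WellFoundedLT ι] [Infinite N]
    (h : Idx N ι) {S : Set ι} (hS : S.Countable) : ∃ b, ∀ s ∈ S, s < b := by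
  obtain ⟨i₀⟩ := h.ne
  rcases S.eq_empty_or_nonempty with rfl | hne
  · exact ⟨i₀, by simp⟩
  · obtain ⟨c, rfl⟩ := hS.exists_eq_range hne
    obtain ⟨b, hb⟩ := h.bd (c ∘ Function.invFun (Infinite.natEmbedding N))
    refine ⟨b, ?_⟩
    rintro _ ⟨n, rfl⟩
    have := hb (Infinite.natEmbedding N n)
    rwa [Function.comp_apply, Function.leftInverse_invFun (Infinite.natEmbedding N).injective]
      at this

omit [TopologicalSpace Y] in
theorem Idx.good_all {N ι : Type*} [LinearOrder ι] [WellFoundedLT ι] [Infinite N]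
    (h : Idx N ι) {e : X → Y → ℝ} {D : ι → Set X} {E : ι → Set Y}
    (hD : Monotone D) (hE : Monotone E) (hG : ∀ i, Good e (D i) (E i)) :
    Good e (⋃ i, D i) (⋃ i, E i) := by
  have := good_union hD hE hG univ fun S _ hS => by
    obtain ⟨b, hb⟩ := h.countable_bdd hS
    exact ⟨b, mem_univ _, fun s hs => (hb s hs).le⟩
  simpa using this

/-- The stability property of chains of good pairs indexed by a well order of type `|N|⁺`. -/
def Stab (N : Type u) (e : X → Y → ℝ) : Prop :=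
  ∀ (ι : Type u) [LinearOrder ι] [WellFoundedLT ι], Idx N ι →
    ∀ (D : ι → Set X) (E : ι → Set Y), Monotone D → Monotone E →
      (∀ i, Good e (D i) (E i)) → closure (⋃ i, D i) ⊆ ⋃ i, closure (D i)

/-- The product pairing. -/
theorem Pairing.prod {e : X → Y → ℝ} (he : Pairing e) :
    Pairing (fun (x : X) (w : Y × Y) => e x w.1 - e x w.2) where
  cx w := (he.cx w.1).sub (he.cx w.2)
  cy x := ((he.cy x).comp continuous_fst).sub ((he.cy x).comp continuous_snd)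

/-- Stability when the square of `Y` is Lindelöf. -/
theorem stab_prod [CompactSpace X] [LindelofSpace Y] [LindelofSpace (Y × Y)] {e : X → Y → ℝ}
    (he : Pairing e) (hsep : ∀ x x', (∀ y, e x y = e x' y) → x = x') (N : Type u) [Infinite N] :
    Stab N e := by
  intro ι _ _ hι D E hD hE hG z hz
  by_contra hcon
  have hM := hι.good_all hD hE hG
  have hz' : ∀ i, z ∉ closure (D i) := fun i hi => hcon (mem_iUnion.mpr ⟨i, hi⟩)
  have hcl : ∀ i, closure (D i) ⊆ closure (⋃ i, D i) := fun i => closure_mono (subset_iUnion D i)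
  have h1 : ∀ i, ∃ y, (∃ k, y ∈ E k) ∧ e z y ≠ e (retr he (hG i) z) y := by
    intro i
    by_contra hc
    push Not at hc
    have h2 : z = retr he (hG i) z :=
      hM.sep he hsep hz (hcl i (retr_mem he (hG i) z)) fun c hc' => hc c (mem_iUnion.mp hc')
    apply hz' i
    rw [h2]
    exact retr_mem he (hG i) z
  choose y hyk hy using h1
  choose k hk using hyk
  have h2 : ∀ i, ∃ u, ∀ p, e p u = e (retr he (hG i) p) (y i) :=
    fun i => (hG i).exists_comp he (y i)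
  choose u hu using h2
  obtain ⟨i₀⟩ := hι.ne
  have : Nonempty ι := ⟨i₀⟩
  obtain ⟨f, hf⟩ := exists_rec (ι := Om1) (T := ι) (fun i f t => ∀ j < i, f j < t ∧ k (f j) < t)
    (by
      intro i f g t hfg h j hj
      rw [← hfg j hj]
      exact h j hj)
    (by
      intro i f _
      obtain ⟨b, hb⟩ := hι.countable_bdd (S := (f '' Iio i) ∪ ((fun j => k (f j)) '' Iio i))
        (((Om1.countable_Iio i).image _).union ((Om1.countable_Iio i).image _))
      exact ⟨b, fun j hj => ⟨hb _ (Or.inl ⟨j, hj, rfl⟩), hb _ (Or.inr ⟨j, hj, rfl⟩)⟩⟩)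
  -- iterated retractions
  have hretr : ∀ i j : ι, i < j → retr he (hG i) (retr he (hG j) z) = retr he (hG i) z := by
    intro i j hij
    refine (hG i).sep he hsep (retr_mem he _ _) (retr_mem he _ _) fun c hc => ?_
    rw [retr_eq he (hG i) _ hc, retr_eq he (hG i) _ hc, retr_eq he (hG j) _ (hE hij.le hc)]
  have hfix : ∀ i : ι, ∀ x ∈ closure (D i), retr he (hG i) x = x := fun i x hx =>
    (hG i).sep he hsep (retr_mem he _ _) hx fun c hc => retr_eq he (hG i) _ hc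
  refine no_pattern_ne he.prod Om1.countable_Iic (fun i => retr he (hG (f i)) z)
    (fun i => (y (f i), u (f i))) (fun _ => 0)
    (fun i => e z (y (f i)) - e (retr he (hG (f i)) z) (y (f i)))
    (fun i => (sub_ne_zero.mpr (hy (f i))).symm) (Or.inl ?_) (Or.inl ?_)
  · intro i j hij
    have hlt := (hf j i hij).1
    show e _ (y (f j)) - e _ (u (f j)) = 0
    rw [hu, hfix (f j) _ (closure_mono (hD hlt.le) (retr_mem he _ _)), sub_self]
  · intro i j hij
    have hlt := (hf i j hij).1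
    have hlt2 := (hf i j hij).2
    show e _ (y (f j)) - e _ (u (f j)) = _
    rw [hu, hretr _ _ hlt, retr_eq he (hG (f i)) z (hE hlt2.le (hk (f j)))]

theorem Om1.exists_gt (i : Om1) : ∃ j, i < j := by
  obtain ⟨b, hb⟩ := Om1.bdd (countable_singleton i)
  exact ⟨b, hb i rfl⟩

theorem Idx.om1_bdd {N ι : Type*} [LinearOrder ι] [WellFoundedLT ι] (h : Idx N ι)
    (emb : Om1 ↪ N) (f : Om1 → ι) : ∃ b, ∀ i, f i < b := by
  have : Nonempty Om1 := inferInstance
  obtain ⟨b, hb⟩ := h.bd (f ∘ Function.invFun emb)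
  refine ⟨b, fun i => ?_⟩
  have := hb (emb i)
  rwa [Function.comp_apply, Function.leftInverse_invFun emb.injective] at this

theorem Idx.closing_off {N ι : Type*} [LinearOrder ι] [WellFoundedLT ι] [Infinite N]
    (h : Idx N ι) (emb : Om1 ↪ N) (b : ι → ι) (i₀ : ι) :
    ∃ γ, i₀ < γ ∧ (∀ j < γ, b j < γ) ∧
      ∀ S ⊆ Iio γ, S.Countable → ∃ c ∈ Iio γ, ∀ s ∈ S, s ≤ c := by
  have : Nonempty ι := ⟨i₀⟩
  have hk : ∀ j : ι, ∃ t, ∀ k ≤ j, b k < t := by
    intro j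
    obtain ⟨g, hg⟩ := h.small j
    obtain ⟨t, ht⟩ := h.bd (b ∘ g)
    refine ⟨t, fun k hk => ?_⟩
    obtain ⟨n, rfl⟩ := hg k hk
    exact ht n
  choose t ht using hk
  obtain ⟨f, hf⟩ := exists_rec (ι := Om1) (T := ι)
    (fun i f s => i₀ < s ∧ ∀ j < i, f j < s ∧ t (f j) < s)
    (by
      intro i f g t hfg h
      refine ⟨h.1, fun j hj => ?_⟩
      rw [← hfg j hj]
      exact h.2 j hj)
    (by
      intro i f _
      obtain ⟨b, hb⟩ := h.countable_bdd (S := {i₀} ∪ ((f '' Iio i) ∪ ((fun j => t (f j)) '' Iio i)))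
        ((countable_singleton _).union
          (((Om1.countable_Iio i).image _).union ((Om1.countable_Iio i).image _)))
      exact ⟨b, hb _ (Or.inl rfl), fun j hj =>
        ⟨hb _ (Or.inr (Or.inl ⟨j, hj, rfl⟩)), hb _ (Or.inr (Or.inr ⟨j, hj, rfl⟩))⟩⟩)
  obtain ⟨B, hB⟩ := h.om1_bdd emb f
  have hne : {s | ∀ i, f i < s}.Nonempty := ⟨B, hB⟩
  let γ := (wellFounded_lt (α := ι)).min {s | ∀ i, f i < s} hne
  have hγ : ∀ i, f i < γ := (wellFounded_lt (α := ι)).min_mem _ hne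
  have hmin : ∀ j < γ, ∃ i, j ≤ f i := by
    intro j hj
    by_contra hc
    push Not at hc
    exact (wellFounded_lt (α := ι)).not_lt_min {s | ∀ i, f i < s} hc hj
  obtain ⟨i1⟩ : Nonempty Om1 := inferInstance
  refine ⟨γ, (hf i1).1.trans (hγ i1), fun j hj => ?_, fun S hS hSc => ?_⟩
  · obtain ⟨i, hi⟩ := hmin j hj
    obtain ⟨i', hi'⟩ := Om1.exists_gt i
    exact ((ht (f i) j hi).trans ((hf i').2 i hi').2).trans (hγ i')
  · have : ∀ s : S, ∃ i, (s : ι) ≤ f i := fun s => hmin s (hS s.2)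
    choose I hI using this
    have : Countable S := hSc
    obtain ⟨i, hi⟩ := Om1.bdd (countable_range I)
    refine ⟨f i, hγ i, fun s hs => ?_⟩
    exact (hI ⟨s, hs⟩).trans ((hf i).2 _ (hi _ ⟨⟨s, hs⟩, rfl⟩)).1.le

/-- Stability for chains indexed by a well order all of whose `ω₁`-sequences are bounded. -/
theorem stab_om2 [CompactSpace X] [LindelofSpace Y] {e : X → Y → ℝ}
    (he : Pairing e) (hsep : ∀ x x', (∀ y, e x y = e x' y) → x = x') (N : Type u) [Infinite N]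
    (emb : Om1 ↪ N) : Stab N e := by
  intro ι _ _ hι D E hD hE hG z hz
  by_contra hcon
  have hM := hι.good_all hD hE hG
  have hz' : ∀ i, z ∉ closure (D i) := fun i hi => hcon (mem_iUnion.mpr ⟨i, hi⟩)
  -- admissible indices
  set Γ : Set ι := {γ | ∀ S ⊆ Iio γ, S.Countable → ∃ c ∈ Iio γ, ∀ s ∈ S, s ≤ c} with hΓ
  have hMγ : ∀ γ ∈ Γ, Good e (⋃ j ∈ Iio γ, D j) (⋃ j ∈ Iio γ, E j) :=
    fun γ hγ => good_union hD hE hG (Iio γ) hγ
  have hsub : ∀ γ, (⋃ j ∈ Iio γ, D j) ⊆ D γ := fun γ =>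
    iUnion₂_subset fun j hj => hD (le_of_lt hj)
  have hcl : ∀ i, closure (D i) ⊆ closure (⋃ i, D i) := fun i => closure_mono (subset_iUnion D i)
  have h1 : ∀ γ ∈ Γ, ∃ y, (∃ k, y ∈ E k) ∧ ∃ l, l ≠ e z y ∧ ∃ j < γ,
      ∀ x ∈ closure (⋃ j ∈ Iio γ, D j), (∀ c ∈ E j, e x c = e z c) → e x y = l := by
    intro γ hγ
    have hmem := retr_mem he (hMγ γ hγ) z
    have h2 : ∃ y, (∃ k, y ∈ E k) ∧ e z y ≠ e (retr he (hMγ γ hγ) z) y := by
      by_contra hc
      push Not at hc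
      have h2 : z = retr he (hMγ γ hγ) z :=
        hM.sep he hsep hz (hcl γ (closure_mono (hsub γ) hmem))
          fun c hc' => hc c (mem_iUnion.mp hc')
      apply hz' γ
      rw [h2]
      exact closure_mono (hsub γ) hmem
    obtain ⟨y, hyk, hy⟩ := h2
    obtain ⟨l, ⟨C, hCE, hC, h3⟩, _⟩ := (hMγ γ hγ).lam he z y
    have h4 : e (retr he (hMγ γ hγ) z) y = l :=
      h3 _ hmem fun c hc => retr_eq he (hMγ γ hγ) z (hCE hc)
    refine ⟨y, hyk, l, by rw [← h4]; exact hy.symm, ?_⟩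
    have h5 : ∀ c : C, ∃ j < γ, (c : Y) ∈ E j := by
      intro c
      have := hCE c.2
      simpa using this
    choose J hJ hJ2 using h5
    have : Countable C := hC
    obtain ⟨j, hj, hj2⟩ := hγ (range J) (by rintro _ ⟨c, rfl⟩; exact hJ c) (countable_range J)
    exact ⟨j, hj, fun x hx hxc => h3 x hx fun c hc =>
      hxc c (hE (hj2 _ ⟨⟨c, hc⟩, rfl⟩) (hJ2 ⟨c, hc⟩))⟩
  -- pressing down
  have h2 : ∃ j₀, ∀ b, ∃ γ ∈ Γ, b < γ ∧ j₀ < γ ∧ ∃ y, (∃ k, y ∈ E k) ∧ ∃ l, l ≠ e z y ∧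
      ∀ x ∈ closure (⋃ j ∈ Iio γ, D j), (∀ c ∈ E j₀, e x c = e z c) → e x y = l := by
    by_contra hc
    push Not at hc
    choose b hb using hc
    obtain ⟨i₀⟩ := hι.ne
    obtain ⟨γ, -, hγb, hγ⟩ := hι.closing_off emb b i₀
    obtain ⟨y, hyk, l, hl, j, hj, hj2⟩ := h1 γ hγ
    obtain ⟨x, hx, hx2, hx3⟩ := hb j γ hγ (hγb j hj) hj y hyk l hl
    exact hx3 (hj2 x hx hx2)
  obtain ⟨j₀, hj₀⟩ := h2
  have hne : Nonempty (ι × (Y × ι) × ℝ) := by
    obtain ⟨γ, -, -, -, y, -⟩ := hj₀ j₀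
    exact ⟨(γ, (y, γ), 0)⟩
  obtain ⟨f, hf⟩ := exists_rec (ι := Om1) (T := ι × (Y × ι) × ℝ)
    (fun i f t => (t.1 ∈ Γ ∧ j₀ < t.1 ∧ t.2.1.1 ∈ E t.2.1.2 ∧ t.2.2 ≠ e z t.2.1.1 ∧
      ∀ x ∈ closure (⋃ j ∈ Iio t.1, D j), (∀ c ∈ E j₀, e x c = e z c) → e x t.2.1.1 = t.2.2) ∧
      ∀ j < i, (f j).1 < t.1 ∧ (f j).2.1.2 < t.1)
    (by
      intro i f g t hfg h
      refine ⟨h.1, fun j hj => ?_⟩
      rw [← hfg j hj]
      exact h.2 j hj)
    (by
      intro i f _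
      obtain ⟨b, hb⟩ := hι.countable_bdd
        (S := ((fun j => (f j).1) '' Iio i) ∪ ((fun j => (f j).2.1.2) '' Iio i))
        (((Om1.countable_Iio i).image _).union ((Om1.countable_Iio i).image _))
      obtain ⟨γ, hγ, hbγ, hjγ, y, ⟨k, hk⟩, l, hl, h⟩ := hj₀ b
      exact ⟨(γ, (y, k), l), ⟨hγ, hjγ, hk, hl, h⟩, fun j hj =>
        ⟨(hb _ (Or.inl ⟨j, hj, rfl⟩)).trans hbγ, (hb _ (Or.inr ⟨j, hj, rfl⟩)).trans hbγ⟩⟩)
  refine no_pattern_ne he Om1.countable_Iic (fun i => retr he (hMγ (f i).1 (hf i).1.1) z)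
    (fun i => (f i).2.1.1) (fun i => (f i).2.2) (fun i => e z (f i).2.1.1)
    (fun i => (hf i).1.2.2.2.1) (Or.inr ?_) (Or.inl ?_)
  · intro i j hij
    have hlt := ((hf j).2 i hij).1
    refine (hf j).1.2.2.2.2 _ ?_ ?_
    · refine closure_mono ?_ (retr_mem he (hMγ (f i).1 (hf i).1.1) z)
      exact biUnion_mono (fun a (ha : a < _) => ha.trans hlt) fun _ _ => subset_rfl
    · intro c hc
      exact retr_eq he _ z (mem_iUnion₂.mpr ⟨j₀, (hf i).1.2.1, hc⟩)
  · intro i j hij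
    exact retr_eq he _ z (mem_iUnion₂.mpr ⟨(f j).2.1.2, ((hf i).2 j hij).2, (hf j).1.2.2.1⟩)

end Pool.MP_961719_gt
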