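import Pool.Agent.MP_961719_gt.Cover

set_option autoImplicit false

/-!
# Large biorthogonal families in subsets of large density
-/

namespace Pool.MP_961719_gt

open Set Topology Filter Cardinal

universe u v

theorem prod_le_cont {α : Type u} {β : Type v} (h1 : #α ≤ continuum) (h2 : #β ≤ continuum) :
    #(α × β) ≤ continuum := by
  rw [mk_prod]
  have h3 : lift.{v} #α ≤ continuum := by
    have := lift_le.{v}.mpr h1
    rwa [lift_continuum] at this
  have h4 : lift.{u} #β ≤ continuum := by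
    have := lift_le.{u}.mpr h2
    rwa [lift_continuum] at this
  exact (mul_le_mul' h3 h4).trans (mul_eq_self aleph0_le_continuum).le

theorem seq_le_cont {α : Type u} (h : #α ≤ continuum) : #(ℕ → α) ≤ continuum := by
  rw [mk_pi, prod_const, mk_nat, lift_aleph0, lift_uzero]
  calc _ ≤ continuum ^ ℵ₀ := power_le_power_right h
    _ = continuum := continuum_power_aleph0

/-- The first `ω₁` members of an uncountable subset of a well ordered set. -/
theorem exists_initial {ι : Type u} [LinearOrder ι] [WellFoundedLT ι] {B : Set ι}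
    (hB : ¬ B.Countable) : ∃ B' ⊆ B, Uncountable B' ∧ ∀ i : B', (Iic i).Countable := by
  set B' : Set ι := {b | b ∈ B ∧ (Iio b ∩ B).Countable} with hB'
  have hunc : ¬ B'.Countable := by
    intro hc
    by_cases hex : {b | b ∈ B ∧ ¬ (Iio b ∩ B).Countable}.Nonempty
    · set b := (wellFounded_lt (α := ι)).min {b | b ∈ B ∧ ¬ (Iio b ∩ B).Countable} hex with hbdef
      have hb : b ∈ {b | b ∈ B ∧ ¬ (Iio b ∩ B).Countable} := (wellFounded_lt (α := ι)).min_mem _ _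
      have hsub : Iio b ∩ B ⊆ B' := by
        intro a ha
        refine ⟨ha.2, ?_⟩
        by_contra hna
        have hmem : a ∈ {b | b ∈ B ∧ ¬ (Iio b ∩ B).Countable} := ⟨ha.2, hna⟩
        exact (wellFounded_lt (α := ι)).not_lt_min _ hmem ha.1
      exact hb.2 (hc.mono hsub)
    · have hsub : B ⊆ B' := by
        intro b hb
        refine ⟨hb, ?_⟩
        by_contra hnb
        exact hex ⟨b, hb, hnb⟩
      exact hB (hc.mono hsub)
  refine ⟨B', fun b hb => hb.1, ?_, fun i => ?_⟩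
  · rw [← not_countable_iff]
    exact fun h => hunc (Set.countable_coe_iff.mp h)
  · have h2 : (Iic i) ⊆ Subtype.val ⁻¹' (insert i.1 (Iio i.1 ∩ B)) := by
      intro j hj
      rcases (show j ≤ i from hj).eq_or_lt with h | h
      · rw [h]
        exact mem_insert _ _
      · exact mem_insert_of_mem _ ⟨h, j.2.1⟩
    exact ((i.2.2.insert i.1).preimage Subtype.val_injective).mono h2

variable {X Y : Type u} [TopologicalSpace X] [TopologicalSpace Y]

/-- In a set `H` which is not contained in the closure of a set of size `≤ 𝔠` there is a large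
family of points which is biorthogonal, in a weak sense, to a family of members of `Y`; moreover the
members of `Y` agree on a given sequence of points, and on a `G_δ`-set which contains the points `z i`
the sets `{x | |e x (y i) - m| < ε}` form a point-countable family. -/
theorem exists_biorthogonal [CompactSpace X] [LindelofSpace Y] {e : X → Y → ℝ} (he : Pairing e)
    (hsep : ∀ x x', (∀ y, e x y = e x' y) → x = x') (H : Set X)
    (hH : ∀ A : Set X, #A ≤ continuum → ¬ H ⊆ closure A) (r : ℕ → X) :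
    ∃ (I : Type u) (z : I → X) (y : I → Y) (m ε : ℝ) (τ : ℕ → ℝ) (C : ℕ → Y) (v : ℕ → ℝ),
      continuum < #I ∧ 0 < ε ∧
      (∀ i, z i ∈ H) ∧ (∀ i n, e (r n) (y i) = τ n) ∧ (∀ i, e (z i) (y i) = m) ∧
      (∀ i j, i ≠ j → ε ≤ |e (z i) (y j) - m|) ∧ (∀ i n, e (z i) (C n) = v n) ∧
      ∀ x, (∀ n, e x (C n) = v n) → {i | |e x (y i) - m| < ε}.Countable := by
  classical
  have hX : Nonempty X := ⟨r 0⟩
  obtain ⟨x₀⟩ := id hX
  have hY : Nonempty Y := by
    by_contra hY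
    rw [not_nonempty_iff] at hY
    have hX' : ∀ x : X, x = x₀ := fun x => hsep x x₀ fun y => (hY.false y).elim
    refine hH {x₀} ?_ fun x _ => ?_
    · rw [mk_singleton]
      exact one_le_aleph0.trans aleph0_le_continuum
    · rw [hX' x]
      exact subset_closure (mem_singleton _)
  obtain ⟨y₀⟩ := id hY
  -- indices
  let N : Type u := ULift.{u} ℝ
  have hN : #N = continuum.{u} := by
    rw [mk_uLift, mk_real, lift_continuum]
  have hNinf : Infinite N := by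
    rw [← aleph0_le_mk_iff, hN]
    exact aleph0_le_continuum
  have hκ : ℵ₀ ≤ continuum.{u} := aleph0_le_continuum
  obtain ⟨ι, _, _, hι, -⟩ := exists_idx N (κ := (2 : Cardinal.{u}) ^ #N)
    (by rw [hN]; exact (cantor _).le) (by rw [← power_mul, hN, continuum_mul_self])
  have emb : Nonempty (Om1 ↪ N) := by
    have h1 : lift.{u} #Om1 ≤ lift.{0} #N := by
      rw [mk_Om1, hN, lift_succ, lift_aleph0, lift_uzero]
      exact Order.succ_le_of_lt aleph0_lt_continuum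
    exact lift_mk_le'.mp h1
  obtain ⟨emb⟩ := emb
  obtain ⟨i₀⟩ := hι.ne
  have : Nonempty ι := ⟨i₀⟩
  -- answers
  have hans1 : ∀ S : Set (X ⊕ Y), ∃ p : X, #(Sum.inl ⁻¹' S : Set X) ≤ continuum →
      p ∈ H ∧ p ∉ closure (Sum.inl ⁻¹' S : Set X) := by
    intro S
    by_cases hS : #(Sum.inl ⁻¹' S : Set X) ≤ continuum
    · obtain ⟨p, hp, hp2⟩ := not_subset.mp (hH _ hS)
      exact ⟨p, fun _ => ⟨hp, hp2⟩⟩
    · exact ⟨x₀, fun h => absurd h hS⟩
  choose P hP using hans1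
  have hans2 : ∀ S : Set (X ⊕ Y), ∃ y : Y, (∃ (y : Y) (l : ℝ) (C : ℕ → Y),
      (∀ n, Sum.inr (C n) ∈ S) ∧ l ≠ e (P S) y ∧ ∀ x ∈ closure (Sum.inl ⁻¹' S : Set X),
        (∀ n, e x (C n) = e (P S) (C n)) → e x y = l) →
      ∃ (l : ℝ) (C : ℕ → Y),
      (∀ n, Sum.inr (C n) ∈ S) ∧ l ≠ e (P S) y ∧ ∀ x ∈ closure (Sum.inl ⁻¹' S : Set X),
        (∀ n, e x (C n) = e (P S) (C n)) → e x y = l := by
    intro S
    by_cases h : ∃ (y : Y) (l : ℝ) (C : ℕ → Y),
      (∀ n, Sum.inr (C n) ∈ S) ∧ l ≠ e (P S) y ∧ ∀ x ∈ closure (Sum.inl ⁻¹' S : Set X),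
        (∀ n, e x (C n) = e (P S) (C n)) → e x y = l
    · obtain ⟨y, hy⟩ := h
      exact ⟨y, fun _ => hy⟩
    · exact ⟨y₀, fun h' => absurd h' h⟩
  choose Q hQ using hans2
  obtain ⟨A, hA1, hA2, hA3, hA4⟩ := exists_chain' e (κ := continuum.{u}) le_rfl
    continuum_power_aleph0 (ι := ι) (fun i => (mk_Iio_le_of_idx hι i).trans hN.le)
    (fun S _ _ => {Sum.inl (P S), Sum.inr (Q S)})
    (fun S C v => ((Set.toFinite _).lt_aleph0.le.trans hκ))
  have hD : Monotone (fun i => (Sum.inl ⁻¹' A i : Set X)) := fun i j hij x hx => hA1 i j hij hx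
  have hE : Monotone (fun i => (Sum.inr ⁻¹' A i : Set Y)) := fun i j hij x hx => hA1 i j hij hx
  set S : ι → Set (X ⊕ Y) := fun γ => ⋃ j ∈ Iio γ, A j with hSdef
  have hSX : ∀ γ, (Sum.inl ⁻¹' S γ : Set X) = ⋃ j ∈ Iio γ, Sum.inl ⁻¹' A j := by
    intro γ
    simp only [hSdef, preimage_iUnion]
  have hSY : ∀ γ, (Sum.inr ⁻¹' S γ : Set Y) = ⋃ j ∈ Iio γ, Sum.inr ⁻¹' A j := by
    intro γ
    simp only [hSdef, preimage_iUnion]
  have hScard : ∀ γ, #(Sum.inl ⁻¹' S γ : Set X) ≤ continuum := by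
    intro γ
    refine (mk_preimage_of_injective _ _ Sum.inl_injective).trans ?_
    simp only [hSdef]
    rw [biUnion_eq_iUnion]
    exact mk_iUnion_le_of hκ _ ((mk_Iio_le_of_idx hι γ).trans hN.le) fun j => hA2 j
  -- admissible indices
  set Γ : Set ι := {γ | ∀ S ⊆ Iio γ, S.Countable → ∃ c ∈ Iio γ, ∀ s ∈ S, s ≤ c} with hΓ
  have hMγ : ∀ γ ∈ Γ, Good e (Sum.inl ⁻¹' S γ) (Sum.inr ⁻¹' S γ) := by
    intro γ hγ
    rw [hSX, hSY]
    exact good_union hD hE hA3 (Iio γ) hγ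
  set p : ι → X := fun γ => P (S γ) with hp
  have hpH : ∀ γ, p γ ∈ H := fun γ => (hP _ (hScard γ)).1
  have hpcl : ∀ γ, p γ ∉ closure (Sum.inl ⁻¹' S γ : Set X) := fun γ => (hP _ (hScard γ)).2
  set yf : ι → Y := fun γ => Q (S γ) with hyf
  have h0 : ∀ γ ∈ Γ, ∃ (y : Y) (l : ℝ) (C : ℕ → Y),
      (∀ n, Sum.inr (C n) ∈ S γ) ∧ l ≠ e (p γ) y ∧
      ∀ x ∈ closure (Sum.inl ⁻¹' S γ : Set X), (∀ n, e x (C n) = e (p γ) (C n)) → e x y = l := by
    intro γ hγ
    have hG := hMγ γ hγ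
    set z := retr he hG (p γ) with hz
    have hzm : z ∈ closure (Sum.inl ⁻¹' S γ : Set X) := retr_mem he hG (p γ)
    obtain ⟨y, hy⟩ : ∃ y, e (p γ) y ≠ e z y := by
      by_contra hc
      push Not at hc
      have := hsep _ _ hc
      exact hpcl γ (this ▸ hzm)
    obtain ⟨l, ⟨B, hB1, hB2, hB3⟩, -⟩ := hG.lam he (p γ) y
    obtain ⟨y₁, hy₁⟩ : (Sum.inr ⁻¹' S γ : Set Y).Nonempty := by
      obtain ⟨y, hy, -⟩ := hG.c2 ∅ (empty_subset _) countable_empty (Classical.arbitrary Y)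
      exact ⟨y, hy⟩
    have hBc : (insert y₁ B).Countable := hB2.insert y₁
    obtain ⟨C, hC⟩ := hBc.exists_eq_range (insert_nonempty _ _)
    have hCS : ∀ n, C n ∈ (Sum.inr ⁻¹' S γ : Set Y) := by
      intro n
      have : C n ∈ insert y₁ B := by rw [hC]; exact ⟨n, rfl⟩
      rcases this with h | h
      · rw [h]; exact hy₁
      · exact hB1 h
    have hzl : e z y = l := hB3 z hzm fun c hc => retr_eq he hG (p γ) (hB1 hc)
    refine ⟨y, l, C, hCS, ?_, fun x hx hxC => ?_⟩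
    · rw [← hzl]
      exact hy.symm
    · refine hB3 x hx fun c hc => ?_
      have hcr : c ∈ range C := by
        rw [← hC]
        exact mem_insert_of_mem _ hc
      obtain ⟨n, rfl⟩ := hcr
      exact hxC n
  have h1 : ∀ γ ∈ Γ, ∃ (l : ℝ) (C : ℕ → Y) (k : ι), k < γ ∧
      (∀ n, Sum.inr (C n) ∈ A k) ∧ l ≠ e (p γ) (yf γ) ∧
      ∀ x ∈ closure (Sum.inl ⁻¹' S γ : Set X), (∀ n, e x (C n) = e (p γ) (C n)) →
        e x (yf γ) = l := by
    intro γ hγ
    obtain ⟨l, C, hCS, hl, hx⟩ := hQ (S γ) (h0 γ hγ)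
    have h3 : ∀ n, ∃ j ∈ Iio γ, Sum.inr (C n) ∈ A j := by
      intro n
      obtain ⟨j, hj, hj2⟩ := mem_iUnion₂.mp (hCS n)
      exact ⟨j, hj, hj2⟩
    choose J hJ hJ2 using h3
    obtain ⟨k, hk, hk2⟩ := hγ (range J) (by rintro _ ⟨n, rfl⟩; exact hJ n) (countable_range J)
    exact ⟨l, C, k, hk, fun n => hA1 _ _ (hk2 _ ⟨n, rfl⟩) (hJ2 n), hl, hx⟩
  choose! lf Cf kf hkf hCf hlf hxf using h1
  -- parameters
  let π : ι → (ℕ → Y) × (ℕ → ℝ × ℝ) × (ℝ × ℝ) := fun γ =>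
    (Cf γ, (fun n => (e (p γ) (Cf γ n), e (r n) (yf γ))), (lf γ, e (p γ) (yf γ)))
  let bad : ι → ι → Prop := fun α β =>
    |e (p β) (yf α) - e (p α) (yf α)| < |e (p α) (yf α) - lf α| / 2
  have F1 : ∀ α ∈ Γ, ∀ β, α < β → p α ∈ (Sum.inl ⁻¹' S β : Set X) := by
    intro α hα β hαβ
    have h2 : Sum.inl (p α) ∈ A α := hA4 α (Cf α) (fun n =>
      mem_iUnion₂.mpr ⟨kf α, hkf α hα, hCf α hα n⟩) (fun _ => 0) (Or.inl rfl)
    exact mem_iUnion₂.mpr ⟨α, hαβ, h2⟩
  have F1' : ∀ α ∈ Γ, ∀ β, α < β → yf α ∈ (Sum.inr ⁻¹' S β : Set Y) := by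
    intro α hα β hαβ
    have h2 : Sum.inr (yf α) ∈ A α := hA4 α (Cf α) (fun n =>
      mem_iUnion₂.mpr ⟨kf α, hkf α hα, hCf α hα n⟩) (fun _ => 0) (Or.inr rfl)
    exact mem_iUnion₂.mpr ⟨α, hαβ, h2⟩
  have F2 : ∀ α ∈ Γ, ∀ β ∈ Γ, α < β → π α = π β → e (p α) (yf β) = lf β := by
    intro α hα β hβ hαβ hπ
    refine hxf β hβ _ (subset_closure (F1 α hα β hαβ)) fun n => ?_
    have h2 : Cf α = Cf β := congrArg Prod.fst hπ
    have h3 := congrFun (congrArg (fun q => q.2.1) hπ) n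
    have h4 : e (p α) (Cf α n) = e (p β) (Cf β n) := congrArg Prod.fst h3
    rw [← h2, h4, h2]
  -- maximal bad families
  let 𝓑 : ι → Set (Set ι) := fun γ => {B | B ⊆ Iio γ ∧ (∀ β ∈ B, β ∈ Γ ∧ π β = π γ ∧ bad β γ) ∧
    ∀ α ∈ B, ∀ β ∈ B, α < β → bad α β}
  have hBc : ∀ γ ∈ Γ, ∀ B ∈ 𝓑 γ, B.Countable := by
    intro γ hγ B hB
    by_contra hcon
    obtain ⟨B', hB', hunc, hι'⟩ := exists_initial hcon
    have hl : ∀ i ∈ B', lf i = lf γ := fun i hi =>
      congrArg (fun q => q.2.2.1) (hB.2.1 i (hB' hi)).2.1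
    have hm : ∀ i ∈ B', e (p i) (yf i) = e (p γ) (yf γ) := fun i hi =>
      congrArg (fun q => q.2.2.2) (hB.2.1 i (hB' hi)).2.1
    have hne : e (p γ) (yf γ) - lf γ ≠ 0 := sub_ne_zero.mpr (hlf γ hγ).symm
    have he' : Pairing (fun (x : X) (w : Y) => |e x w - e (p γ) (yf γ)|) :=
      ⟨fun w => ((he.cx w).sub continuous_const).abs,
        fun x => ((he.cy x).sub continuous_const).abs⟩
    have hpos : 0 < |e (p γ) (yf γ) - lf γ| := abs_pos.mpr hne
    refine no_pattern he' hι' (fun i => p i) (fun i => yf i)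
      (r := |e (p γ) (yf γ) - lf γ| / 2) (s := |e (p γ) (yf γ) - lf γ|) (by linarith) ?_ ?_
    · intro i j hij
      have h2 := F2 i (hB.2.1 i (hB' i.2)).1 j (hB.2.1 j (hB' j.2)).1 hij
        ((hB.2.1 i (hB' i.2)).2.1.trans (hB.2.1 j (hB' j.2)).2.1.symm)
      show |e (p γ) (yf γ) - lf γ| ≤ |e (p i) (yf j) - e (p γ) (yf γ)|
      rw [h2, hl j j.2, abs_sub_comm]
    · intro i j hji
      have h2 : bad j i := hB.2.2 j (hB' j.2) i (hB' i.2) hji
      show |e (p i) (yf j) - e (p γ) (yf γ)| ≤ |e (p γ) (yf γ) - lf γ| / 2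
      have h3 : |e (p i) (yf j) - e (p j) (yf j)| < |e (p j) (yf j) - lf j| / 2 := h2
      rw [hm j j.2, hl j j.2] at h3
      exact h3.le
  have hmax : ∀ γ, ∃ B, Maximal (· ∈ 𝓑 γ) B := by
    intro γ
    refine zorn_subset (𝓑 γ) fun c hc hch => ⟨⋃₀ c, ?_, fun s hs => subset_sUnion_of_mem hs⟩
    refine ⟨sUnion_subset fun s hs => (hc hs).1, ?_, ?_⟩
    · rintro β ⟨s, hs, hβ⟩
      exact (hc hs).2.1 β hβ
    · rintro α ⟨s, hs, hα⟩ β ⟨t, ht, hβ⟩ hαβ
      rcases hch.total hs ht with h | h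
      · exact (hc ht).2.2 α (h hα) β hβ hαβ
      · exact (hc hs).2.2 α hα β (h hβ) hαβ
  choose Bf hBf using hmax
  -- pressing down
  have h2 : ∃ (q : (ℕ → Y) × (ℕ → ℝ × ℝ) × (ℝ × ℝ)) (B : Set ι),
      ∀ b, ∃ γ, (γ ∈ Γ ∧ π γ = q ∧ Bf γ = B) ∧ b < γ := by
    by_contra hc
    push Not at hc
    choose bd hbd using hc
    let dec : (k : ι) → ((ℕ → (Sum.inr ⁻¹' A k : Set Y)) × (ℕ → ℝ × ℝ) × (ℝ × ℝ) ×
        (ℕ → Option (Iic k))) → ι := fun k q =>
      bd ((fun n => (q.1 n).1), q.2.1, q.2.2.1) {x | ∃ n, ∃ h : x ∈ Iic k, q.2.2.2 n = some ⟨x, h⟩}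
    have ht : ∀ k : ι, ∃ t, ∀ q, dec k q < t := by
      intro k
      have hcard : #((ℕ → (Sum.inr ⁻¹' A k : Set Y)) × (ℕ → ℝ × ℝ) × (ℝ × ℝ) ×
          (ℕ → Option (Iic k))) ≤ #N := by
        rw [hN]
        have hR : #ℝ ≤ continuum := mk_real.le
        have hIic : #(Iic k) ≤ continuum := by
          rw [← Iio_union_right]
          refine (mk_union_le _ _).trans ?_
          refine (add_le_add ((mk_Iio_le_of_idx hι k).trans hN.le) ?_).trans (add_eq_self hκ).le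
          rw [mk_singleton]
          exact one_le_aleph0.trans hκ
        have hopt : #(Option (Iic k)) ≤ continuum := by
          rw [mk_option]
          exact (add_le_add hIic (one_le_aleph0.trans hκ)).trans (add_eq_self hκ).le
        exact prod_le_cont (seq_le_cont ((mk_preimage_of_injective _ _ Sum.inr_injective).trans
          (hA2 k))) (prod_le_cont (seq_le_cont (prod_le_cont hR hR))
            (prod_le_cont (prod_le_cont hR hR) (seq_le_cont hopt)))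
      obtain ⟨em⟩ := hcard
      obtain ⟨y₁, hy₁⟩ : (Sum.inr ⁻¹' A k : Set Y).Nonempty := by
        obtain ⟨y, hy, -⟩ := (hA3 k).c2 ∅ (empty_subset _) countable_empty (Classical.arbitrary Y)
        exact ⟨y, hy⟩
      have : Nonempty ((ℕ → (Sum.inr ⁻¹' A k : Set Y)) × (ℕ → ℝ × ℝ) × (ℝ × ℝ) ×
          (ℕ → Option (Iic k))) :=
        ⟨(fun _ => ⟨y₁, hy₁⟩, fun _ => (0, 0), (0, 0), fun _ => none)⟩
      obtain ⟨t, ht⟩ := hι.bd (fun n => dec k (Function.invFun em n))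
      refine ⟨t, fun q => ?_⟩
      have := ht (em q)
      rwa [Function.leftInverse_invFun em.injective] at this
    choose t ht using ht
    obtain ⟨γ, -, hγt, hγ⟩ := hι.closing_off emb t i₀
    have hγΓ : γ ∈ Γ := hγ
    obtain ⟨c, hc1, hc2⟩ := hγ (Bf γ) (hBf γ).1.1 (hBc γ hγΓ _ (hBf γ).1)
    set k := max (kf γ) c with hk
    have hkγ : k < γ := max_lt (hkf γ hγΓ) hc1
    have hBk : Bf γ ⊆ Iic k := fun s hs => (hc2 s hs).trans (le_max_right _ _)
    -- code of `Bf γ`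
    obtain ⟨b, hb⟩ : ∃ b : ℕ → Option (Iic k),
        {x | ∃ n, ∃ h : x ∈ Iic k, b n = some ⟨x, h⟩} = Bf γ := by
      rcases (Bf γ).eq_empty_or_nonempty with h | h
      · refine ⟨fun _ => none, ?_⟩
        rw [h]
        ext x
        simp
      · obtain ⟨f, hf⟩ := (hBc γ hγΓ _ (hBf γ).1).exists_eq_range h
        have hfk : ∀ n, f n ∈ Iic k := fun n => hBk (by rw [hf]; exact ⟨n, rfl⟩)
        refine ⟨fun n => some ⟨f n, hfk n⟩, ?_⟩
        ext x
        rw [hf]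
        constructor
        · rintro ⟨n, hx, hn⟩
          exact ⟨n, congrArg Subtype.val (Option.some.inj hn)⟩
        · rintro ⟨n, rfl⟩
          exact ⟨n, hfk n, rfl⟩
    have hCk : ∀ n, Cf γ n ∈ (Sum.inr ⁻¹' A k : Set Y) := fun n =>
      hA1 _ _ (le_max_left _ _) (hCf γ hγΓ n)
    have h3 : dec k ((fun n => ⟨Cf γ n, hCk n⟩), (π γ).2.1, (π γ).2.2, b) =
        bd (π γ) (Bf γ) := by
      show bd _ _ = _
      rw [← hb]
    have h4 := hbd (π γ) (Bf γ) γ ⟨hγΓ, rfl, rfl⟩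
    rw [← h3] at h4
    exact absurd (h4.trans_lt ((ht k _).trans (hγt k hkγ))) (lt_irrefl _)
  obtain ⟨q, B, hT⟩ := h2
  set T : Set ι := {γ | γ ∈ Γ ∧ π γ = q ∧ Bf γ = B} with hTdef
  have hTne : ∃ γ, γ ∈ T := by
    obtain ⟨γ, hγ, -⟩ := hT i₀
    exact ⟨γ, hγ⟩
  have hgood : ∀ α ∈ T, ∀ β ∈ T, α < β → ¬ bad α β := by
    intro α hα β hβ hαβ hbad
    have hBα := (hBf α).1
    have hBβ := (hBf β).1
    rw [hα.2.2] at hBα
    rw [hβ.2.2] at hBβ
    have hins : insert α B ∈ 𝓑 β := by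
      refine ⟨insert_subset hαβ hBβ.1, ?_, ?_⟩
      · rintro x (rfl | hx)
        · exact ⟨hα.1, hα.2.1.trans hβ.2.1.symm, hbad⟩
        · exact hBβ.2.1 x hx
      · rintro x (rfl | hx) y (rfl | hy) hxy
        · exact absurd hxy (lt_irrefl _)
        · exact absurd (hxy.trans (hBα.1 hy)) (lt_irrefl _)
        · exact (hBα.2.1 x hx).2.2
        · exact hBα.2.2 x hx y hy hxy
    have h3 := (hBf β).2 hins (by rw [hβ.2.2]; exact subset_insert _ _)
    rw [hβ.2.2] at h3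
    exact absurd (hBα.1 (h3 (mem_insert _ _))) (lt_irrefl _)
  obtain ⟨γ₀, hγ₀⟩ := hTne
  set l : ℝ := q.2.2.1 with hl
  set m : ℝ := q.2.2.2 with hm
  have hlT : ∀ γ ∈ T, lf γ = l := fun γ hγ => congrArg (fun q => q.2.2.1) hγ.2.1
  have hmT : ∀ γ ∈ T, e (p γ) (yf γ) = m := fun γ hγ => congrArg (fun q => q.2.2.2) hγ.2.1
  have hlm : l ≠ m := by
    rw [← hlT γ₀ hγ₀, ← hmT γ₀ hγ₀]
    exact hlf γ₀ hγ₀.1
  have hpos : 0 < |m - l| := abs_pos.mpr (sub_ne_zero.mpr hlm.symm)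
  have hCT : ∀ γ ∈ T, Cf γ = q.1 := fun γ hγ => congrArg Prod.fst hγ.2.1
  have hvT : ∀ γ ∈ T, ∀ n, e (p γ) (Cf γ n) = (q.2.1 n).1 := fun γ hγ n =>
    congrArg (fun q => (q.2.1 n).1) hγ.2.1
  refine ⟨T, fun i => p i, fun i => yf i, m, |m - l| / 2, fun n => (q.2.1 n).2, q.1,
    fun n => (q.2.1 n).1, ?_, by linarith,
    fun i => hpH i, fun i n => ?_, fun i => hmT i i.2, fun i j hij => ?_, fun i n => ?_,
    fun x hx => ?_⟩
  · by_contra hcon
    rw [not_lt, ← hN] at hcon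
    obtain ⟨em⟩ := hcon
    have : Nonempty T := ⟨⟨γ₀, hγ₀⟩⟩
    obtain ⟨b, hb⟩ := hι.bd (fun n => (Function.invFun em n).1)
    obtain ⟨γ, hγ, hbγ⟩ := hT b
    have h3 := hb (em ⟨γ, hγ⟩)
    rw [Function.leftInverse_invFun em.injective] at h3
    exact absurd (h3.trans hbγ) (lt_irrefl _)
  · exact congrArg (fun q => (q.2.1 n).2) i.2.2.1
  · rcases lt_or_gt_of_ne (fun h => hij (Subtype.ext h) : i.1 ≠ j.1) with h | h
    · have h3 := F2 i i.2.1 j j.2.1 h (i.2.2.1.trans j.2.2.1.symm)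
      show |m - l| / 2 ≤ |e (p i) (yf j) - m|
      rw [h3, hlT j j.2, abs_sub_comm l m]
      linarith
    · have h3 := hgood j j.2 i i.2 h
      show |m - l| / 2 ≤ |e (p i) (yf j) - m|
      have h4 : ¬ |e (p i) (yf j) - e (p j) (yf j)| < |e (p j) (yf j) - lf j| / 2 := h3
      rw [hmT j j.2, hlT j j.2] at h4
      exact not_lt.mp h4
  · have h3 := hvT i i.2 n
    rw [hCT i i.2] at h3
    exact h3
  · -- the family is point-countable
    by_contra hcon
    obtain ⟨B', hB', hunc, hι'⟩ := exists_initial hcon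
    have hx' : ∀ i : B', ∃ x' ∈ (Sum.inl ⁻¹' S i.1.1 : Set X),
        (∀ j : B', j < i → e x' (yf j.1.1) = e x (yf j.1.1)) ∧ ∀ n, e x' (q.1 n) = e x (q.1 n) := by
      intro i
      have hiT := i.1.2
      have hc1 : ((fun j : B' => yf j.1.1) '' Iio i ∪ range q.1).Countable :=
        (((hι' i).mono Iio_subset_Iic_self).image _).union (countable_range _)
      have hsub : ((fun j : B' => yf j.1.1) '' Iio i ∪ range q.1) ⊆
          (Sum.inr ⁻¹' S i.1.1 : Set Y) := by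
        rintro _ (⟨j, hj, rfl⟩ | ⟨n, rfl⟩)
        · exact F1' j.1.1 j.1.2.1 _ hj
        · have h3 := hCf i.1.1 hiT.1 n
          rw [hCT i.1.1 hiT] at h3
          exact mem_iUnion₂.mpr ⟨kf i.1.1, hkf i.1.1 hiT.1, h3⟩
      obtain ⟨x', hx'1, hx'2⟩ := (hMγ i.1.1 hiT.1).c1 _ hsub hc1 x
      exact ⟨x', hx'1, fun j hj => hx'2 _ (Or.inl ⟨j, hj, rfl⟩), fun n => hx'2 _ (Or.inr ⟨n, rfl⟩)⟩
    choose x' hx'1 hx'2 hx'3 using hx'
    have he' : Pairing (fun (x : X) (w : Y) => |e x w - m|) :=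
      ⟨fun w => ((he.cx w).sub continuous_const).abs,
        fun x => ((he.cy x).sub continuous_const).abs⟩
    have hSmono : ∀ a b : ι, a ≤ b → (Sum.inl ⁻¹' S a : Set X) ⊆ Sum.inl ⁻¹' S b := by
      intro a b hab
      rw [hSX, hSX]
      exact biUnion_mono (Iio_subset_Iio hab) fun _ _ => subset_rfl
    refine no_pattern he' hι' x' (fun i => yf i.1.1)
      (r := |m - l| / 2) (s := |m - l|) (by linarith) ?_ ?_
    · intro i j hij
      have h3 : e (x' i) (yf j.1.1) = lf j.1.1 := by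
        refine hxf j.1.1 j.1.2.1 _ (subset_closure (hSmono _ _ (le_of_lt hij) (hx'1 i))) fun n => ?_
        rw [hvT j.1.1 j.1.2 n, hCT j.1.1 j.1.2, hx'3 i n, hx n]
      show |m - l| ≤ |e (x' i) (yf j.1.1) - m|
      rw [h3, hlT j.1.1 j.1.2, abs_sub_comm l m]
    · intro i j hji
      show |e (x' i) (yf j.1.1) - m| ≤ |m - l| / 2
      rw [hx'2 i j hji]
      exact (show |e x (yf j.1.1) - m| < |m - l| / 2 from hB' j.2).le

end Pool.MP_961719_gt
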