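import Pool.Agent.MP_961719_gt.Chain

set_option autoImplicit false

/-!
# Tame points and dense sets
-/

namespace Pool.MP_961719_gt

open Set Topology Filter Cardinal

universe u

variable {X Y : Type u} [TopologicalSpace X] [TopologicalSpace Y]

/-- Finite separation of a point from a closed set. -/
theorem exists_finset_sep [CompactSpace X] {e : X → Y → ℝ} (he : Pairing e)
    (hsep : ∀ x x', (∀ y, e x y = e x' y) → x = x') {K : Set X} (hK : IsClosed K) {x : X}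
    (hx : x ∉ K) : ∃ F : Finset Y, ∀ p, (∀ y ∈ F, e p y = e x y) → p ∉ K := by
  by_contra hcon
  push Not at hcon
  obtain ⟨p, hp, hp2⟩ := hK.isCompact.inter_iInter_nonempty (fun y : Y => {p | e p y = e x y})
    (fun y => isClosed_eq (he.cx y) continuous_const)
    (by
      intro u
      obtain ⟨p, hp, hpK⟩ := hcon u
      refine ⟨p, hpK, ?_⟩
      simp only [mem_iInter]
      exact hp)
  simp only [mem_iInter] at hp2
  rw [hsep p x hp2] at hp
  exact hx hp

/-- Continuous functions depend on countably many coordinates at a point. -/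
theorem exists_countable_supp [CompactSpace X] {e : X → Y → ℝ} (he : Pairing e)
    (hsep : ∀ x x', (∀ y, e x y = e x' y) → x = x') {f : X → ℝ} (hf : Continuous f) (x : X) :
    ∃ B : Set Y, B.Countable ∧ ∀ p, (∀ y ∈ B, e p y = e x y) → f p = f x := by
  have h : ∀ n : ℕ, ∃ F : Finset Y, ∀ p, (∀ y ∈ F, e p y = e x y) →
      p ∉ {p | 1 / ((n : ℝ) + 1) ≤ |f p - f x|} := by
    intro n
    refine exists_finset_sep he hsep ?_ ?_
    · exact isClosed_le continuous_const (hf.sub continuous_const).abs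
    · simp only [mem_ofPred_eq, sub_self, abs_zero, not_le]
      positivity
  choose F hF using h
  refine ⟨⋃ n, (F n : Set Y), countable_iUnion fun n => (F n).countable_toSet, fun p hp => ?_⟩
  by_contra hne
  have hpos : 0 < |f p - f x| := abs_pos.mpr (sub_ne_zero.mpr hne)
  obtain ⟨n, hn⟩ := exists_nat_one_div_lt hpos
  exact hF n p (fun y hy => hp y (mem_iUnion.mpr ⟨n, hy⟩)) hn.le

/-- A point is tame if some `G`-set around it lies in the closure of a small set. -/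
def Tame (N : Type u) (κ : Cardinal.{u}) (e : X → Y → ℝ) (x : X) : Prop :=
  ∃ (C : N → Y) (A : Set X), #A ≤ κ ∧ ∀ x', (∀ n, e x' (C n) = e x (C n)) → x' ∈ closure A

/-- Enumeration of a small set by `N`. -/
theorem exists_enum (N : Type u) {Z : Type u} (z₀ : Z) (S : Set Z) (hS : #S ≤ #N) :
    ∃ g : N → Z, S ⊆ range g ∧ ∀ n, g n ∈ S ∨ g n = z₀ := by
  classical
  obtain ⟨emb⟩ := hS
  refine ⟨fun n => if h : ∃ s, emb s = n then (h.choose : Z) else z₀, fun s hs => ?_, fun n => ?_⟩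
  · refine ⟨emb ⟨s, hs⟩, ?_⟩
    have h : ∃ s', emb s' = emb ⟨s, hs⟩ := ⟨_, rfl⟩
    show (if h : ∃ s', emb s' = emb ⟨s, hs⟩ then (h.choose : Z) else z₀) = s
    rw [dif_pos h]
    exact congrArg Subtype.val (emb.injective h.choose_spec)
  · by_cases h : ∃ s, emb s = n
    · left
      show (if h : ∃ s', emb s' = n then (h.choose : Z) else z₀) ∈ S
      rw [dif_pos h]
      exact h.choose.2
    · right
      exact dif_neg h

theorem mk_countable_iUnion_le {N : Type u} [Infinite N] {Z : Type u} (B : N → Set Z)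
    (hB : ∀ n, (B n).Countable) : #(⋃ n, B n) ≤ #N :=
  mk_iUnion_le_of (aleph0_le_mk N) _ le_rfl fun n =>
    (le_aleph0_iff_set_countable.mpr (hB n)).trans (aleph0_le_mk N)

/-- Homeomorphisms preserve tameness. -/
theorem Tame.map [CompactSpace X] {N : Type u} [Infinite N] {κ : Cardinal.{u}} {e : X → Y → ℝ}
    (he : Pairing e) (hsep : ∀ x x', (∀ y, e x y = e x' y) → x = x') {x : X}
    (h : Tame N κ e x) (φ : X ≃ₜ X) : Tame N κ e (φ x) := by
  obtain ⟨C, A, hA, hCA⟩ := h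
  have h1 : ∀ n, ∃ B : Set Y, B.Countable ∧ ∀ p, (∀ y ∈ B, e p y = e (φ x) y) →
      e (φ.symm p) (C n) = e (φ.symm (φ x)) (C n) := fun n =>
    exists_countable_supp he hsep ((he.cx (C n)).comp φ.symm.continuous) (φ x)
  choose B hB hB2 using h1
  obtain ⟨n₀⟩ : Nonempty N := inferInstance
  obtain ⟨g, hg, -⟩ := exists_enum N (C n₀) (⋃ n, B n) (mk_countable_iUnion_le B hB)
  refine ⟨g, φ '' A, mk_image_le.trans hA, fun p hp => ?_⟩
  have h2 : φ.symm p ∈ closure A := by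
    apply hCA
    intro n
    have := hB2 n p fun y hy => by
      obtain ⟨m, rfl⟩ := hg (mem_iUnion.mpr ⟨n, hy⟩)
      exact hp m
    rwa [φ.symm_apply_apply] at this
  rw [← φ.image_closure]
  exact ⟨φ.symm p, h2, φ.apply_symm_apply p⟩

/-- The data answering a request when all points are tame. -/
def AnsP (N : Type u) (κ : Cardinal.{u}) (e : X → Y → ℝ) (S : Set (X ⊕ Y)) (C : N → Y)
    (v : N → ℝ) (C' : N → Y) (A' : Set X) (p' : X) : Prop :=
  #A' ≤ κ ∧ (∀ x ∈ closure (Sum.inl ⁻¹' S : Set X), (∀ n, e x (C n) = v n) →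
    ∀ n, e x (C' n) = e p' (C' n)) ∧ ∀ x, (∀ n, e x (C' n) = e p' (C' n)) → x ∈ closure A'

omit [TopologicalSpace Y] in
theorem exists_ansP {N : Type u} {κ : Cardinal.{u}} (hκ : ℵ₀ ≤ κ) (hNκ : #N ≤ κ)
    (e : X → Y → ℝ) (S : Set (X ⊕ Y)) (C : N → Y) (v : N → ℝ) :
    ∃ T : Set (X ⊕ Y), #T ≤ κ ∧ ((∃ C' A' p', AnsP N κ e S C v C' A' p') →
      ∃ C' A' p', AnsP N κ e S C v C' A' p' ∧ (∀ n, Sum.inr (C' n) ∈ T) ∧
        ∀ a ∈ A', Sum.inl a ∈ T) := by
  by_cases h : ∃ C' A' p', AnsP N κ e S C v C' A' p'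
  · obtain ⟨C', A', p', h⟩ := h
    refine ⟨range (fun n => Sum.inr (C' n)) ∪ Sum.inl '' A', ?_, fun _ =>
      ⟨C', A', p', h, fun n => Or.inl ⟨n, rfl⟩, fun a ha => Or.inr ⟨a, ha, rfl⟩⟩⟩
    exact (mk_union_le _ _).trans ((add_le_add (mk_range_le.trans hNκ)
      (mk_image_le.trans h.1)).trans (add_eq_self hκ).le)
  · exact ⟨∅, by simp, fun h' => absurd h' h⟩

/-- If all points are tame then there is a small dense set. -/
theorem exists_dense [CompactSpace X] [LindelofSpace Y] [Nonempty X] [Nonempty Y]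
    {e : X → Y → ℝ} (he : Pairing e) {κ : Cardinal.{u}} (hc : continuum ≤ κ)
    {N : Type u} [Infinite N] (hκN : κ ^ #N = κ) (hst : Stab N e)
    (htame : ∀ x, Tame N κ e x) : ∃ D : Set X, #D ≤ κ ∧ ∀ x, x ∈ closure D := by
  classical
  obtain ⟨ι, _, _, hι, hικ⟩ := exists_idx N hc hκN
  have hκ : ℵ₀ ≤ κ := aleph0_le_continuum.trans hc
  have hNκ : #N ≤ κ := by
    calc #N ≤ 2 ^ #N := (cantor _).le
      _ ≤ κ ^ #N := power_le_power_right (natCast_lt_aleph0.le.trans hκ)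
      _ = κ := hκN
  choose Ans hAns1 hAns2 using exists_ansP (X := X) (Y := Y) hκ hNκ e
  obtain ⟨A, hA1, hA2, hA3, hA4⟩ := exists_chain e hc hκN hικ Ans hAns1
  have hD : Monotone (fun i => (Sum.inl ⁻¹' A i : Set X)) := fun i j hij x hx => hA1 i j hij hx
  have hE : Monotone (fun i => (Sum.inr ⁻¹' A i : Set Y)) := fun i j hij x hx => hA1 i j hij hx
  have hM := hι.good_all hD hE hA3
  refine ⟨⋃ i, Sum.inl ⁻¹' A i, mk_iUnion_le_of hκ _ hικ fun i =>
    (mk_preimage_of_injective _ _ Sum.inl_injective).trans (hA2 i), fun p => ?_⟩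
  have hz := retr_mem he hM p
  obtain ⟨i, hi⟩ := mem_iUnion.mp (hst ι hι _ _ hD hE hA3 hz)
  set z := retr he hM p with hzdef
  obtain ⟨C', A', hA', hCA'⟩ := htame z
  have h1 : ∀ n, ∃ B ⊆ (Sum.inr ⁻¹' A i : Set Y), B.Countable ∧
      ∀ x ∈ closure (Sum.inl ⁻¹' A i : Set X), (∀ c ∈ B, e x c = e z c) →
        e x (C' n) = e z (C' n) := by
    intro n
    obtain ⟨l, ⟨B, hB1, hB2, hB3⟩, -⟩ := (hA3 i).lam he z (C' n)
    refine ⟨B, hB1, hB2, fun x hx hxc => ?_⟩
    rw [hB3 x hx hxc, hB3 z hi fun _ _ => rfl]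
  choose B hB1 hB2 hB3 using h1
  obtain ⟨y₁, hy₁⟩ : (Sum.inr ⁻¹' A i : Set Y).Nonempty := by
    obtain ⟨y, hy, -⟩ := (hA3 i).c2 ∅ (empty_subset _) countable_empty (Classical.arbitrary Y)
    exact ⟨y, hy⟩
  obtain ⟨C, hC1, hC2⟩ := exists_enum N y₁ (⋃ n, B n) (mk_countable_iUnion_le B hB2)
  have hCi : ∀ n, Sum.inr (C n) ∈ A i := by
    intro n
    rcases hC2 n with h | h
    · obtain ⟨m, hm⟩ := mem_iUnion.mp h
      exact hB1 m hm
    · rw [h]
      exact hy₁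
  have hans : ∃ C' A' p', AnsP N κ e (A i) C (fun n => e z (C n)) C' A' p' := by
    refine ⟨C', A', z, hA', fun x hx hxC n => hB3 n x hx fun c hc => ?_, hCA'⟩
    obtain ⟨m, rfl⟩ := hC1 (mem_iUnion.mpr ⟨n, hc⟩)
    exact hxC m
  obtain ⟨C₁, A₁, p₁, h₁, h₂, h₃⟩ := hAns2 (A i) C (fun n => e z (C n)) hans
  obtain ⟨j, hj⟩ := hι.countable_bdd (countable_singleton i)
  have hsub := hA4 i j (hj i rfl) C hCi (fun n => e z (C n))
  have h4 : ∀ n, e p (C₁ n) = e p₁ (C₁ n) := by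
    intro n
    have h5 : e z (C₁ n) = e p (C₁ n) :=
      retr_eq he hM p (mem_iUnion.mpr ⟨j, hsub (h₂ n)⟩)
    rw [← h5]
    exact h₁.2.1 z hi (fun _ => rfl) n
  refine closure_mono ?_ (h₁.2.2 p h4)
  exact fun a ha => mem_iUnion.mpr ⟨j, hsub (h₃ a ha)⟩

theorem exists_ansQ [CompactSpace X] {e : X → Y → ℝ} (he : Pairing e)
    (hsep : ∀ x x', (∀ y, e x y = e x' y) → x = x') {N : Type u} {κ : Cardinal.{u}} (hκ : ℵ₀ ≤ κ)
    (hnt : ∀ x, ¬ Tame N κ e x) (S : Set (X ⊕ Y)) (C : N → Y) (v : N → ℝ) :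
    ∃ T : Set (X ⊕ Y), #T ≤ κ ∧ ((∃ x, ∀ n, e x (C n) = v n) → #S ≤ κ →
      ∃ (x' : X) (F : Finset Y), (∀ n, e x' (C n) = v n) ∧ (∀ y ∈ F, Sum.inr y ∈ T) ∧
        ∀ p, (∀ y ∈ F, e p y = e x' y) → p ∉ closure (Sum.inl ⁻¹' S : Set X)) := by
  by_cases h : (∃ x, ∀ n, e x (C n) = v n) ∧ #S ≤ κ
  · obtain ⟨⟨x, hx⟩, hS⟩ := h
    have h1 := hnt x
    rw [Tame] at h1
    push Not at h1
    obtain ⟨x', hx', hx'2⟩ := h1 C (Sum.inl ⁻¹' S)
      ((mk_preimage_of_injective _ _ Sum.inl_injective).trans hS)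
    obtain ⟨F, hF⟩ := exists_finset_sep he hsep isClosed_closure hx'2
    refine ⟨Sum.inr '' (F : Set Y), ?_, fun _ _ => ⟨x', F, fun n => (hx' n).trans (hx n),
      fun y hy => ⟨y, hy, rfl⟩, hF⟩⟩
    exact mk_image_le.trans ((Finset.finite_toSet F).lt_aleph0.le.trans hκ)
  · refine ⟨∅, by simp, fun h1 h2 => absurd ⟨h1, h2⟩ h⟩

theorem exists_limit_pt [CompactSpace X] [Nonempty X] {e : X → Y → ℝ} (he : Pairing e)
    {ι : Type*} [LinearOrder ι] (J : Set ι) (f : ι → X × Finset Y)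
    (h : ∀ i ∈ J, ∀ j ∈ J, j < i → ∀ y ∈ (f j).2, e (f i).1 y = e (f j).1 y) :
    ∃ x, ∀ j ∈ J, ∀ y ∈ (f j).2, e x y = e (f j).1 y := by
  obtain ⟨x, -, hx⟩ := (isCompact_univ (X := X)).inter_iInter_nonempty
    (fun j : J => {x | ∀ y ∈ (f j).2, e x y = e (f j).1 y})
    (fun j => by
      have : {x | ∀ y ∈ (f j).2, e x y = e (f j).1 y} =
          ⋂ y ∈ (f j).2, {x | e x y = e (f j).1 y} := by
        ext x
        simp
      rw [this]
      exact isClosed_biInter fun y _ => isClosed_eq (he.cx y) continuous_const)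
    (by
      intro u
      rcases u.eq_empty_or_nonempty with rfl | hne
      · simp
      obtain ⟨j, hj, hmax⟩ := u.exists_max_image id hne
      refine ⟨(f j).1, mem_univ _, ?_⟩
      simp only [mem_iInter]
      intro i hi y hy
      rcases (hmax i hi).eq_or_lt with h1 | h1
      · have h2 : i = j := h1
        rw [h2]
      · exact h j j.2 i i.2 h1 y hy)
  simp only [mem_iInter] at hx
  exact ⟨x, fun j hj y hy => hx ⟨j, hj⟩ y hy⟩

/-- There is a tame point. -/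
theorem exists_tame [CompactSpace X] [LindelofSpace Y] [Nonempty X] [Nonempty Y]
    {e : X → Y → ℝ} (he : Pairing e)
    (hsep : ∀ x x', (∀ y, e x y = e x' y) → x = x') {κ : Cardinal.{u}} (hc : continuum ≤ κ)
    {N : Type u} [Infinite N] (hκN : κ ^ #N = κ) (hst : Stab N e) : ∃ x, Tame N κ e x := by
  classical
  by_contra hcon
  push Not at hcon
  obtain ⟨ι, _, _, hι, hικ⟩ := exists_idx N hc hκN
  have hκ : ℵ₀ ≤ κ := aleph0_le_continuum.trans hc
  choose Ans hAns1 hAns2 using exists_ansQ he hsep hκ hcon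
  obtain ⟨A, hA1, hA2, hA3, hA4⟩ := exists_chain e hc hκN hικ Ans hAns1
  have hD : Monotone (fun i => (Sum.inl ⁻¹' A i : Set X)) := fun i j hij x hx => hA1 i j hij hx
  have hE : Monotone (fun i => (Sum.inr ⁻¹' A i : Set Y)) := fun i j hij x hx => hA1 i j hij hx
  have hM := hι.good_all hD hE hA3
  have : Nonempty (X × Finset Y) := ⟨(Classical.arbitrary X, ∅)⟩
  obtain ⟨f, hf⟩ := exists_rec (ι := ι) (T := X × Finset Y)
    (fun i f t => (∀ j < i, ∀ y ∈ (f j).2, e t.1 y = e (f j).1 y) ∧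
      ∃ k k', i ≤ k ∧ (∀ y ∈ t.2, Sum.inr y ∈ A k') ∧
        ∀ p, (∀ y ∈ t.2, e p y = e t.1 y) → p ∉ closure (Sum.inl ⁻¹' A k : Set X))
    (by
      intro i f g t hfg h
      refine ⟨fun j hj y hy => ?_, h.2⟩
      rw [← hfg j hj] at hy ⊢
      exact h.1 j hj y hy)
    (by
      intro i f h
      obtain ⟨x, hx⟩ := exists_limit_pt he (Iio i) f fun i₁ hi₁ j _ hij => (h i₁ hi₁).1 j hij
      have h2 : ∀ j, ∃ k', j < i → ∀ y ∈ (f j).2, Sum.inr y ∈ A k' := by
        intro j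
        by_cases hj : j < i
        · obtain ⟨-, k, k', -, hk', -⟩ := h j hj
          exact ⟨k', fun _ => hk'⟩
        · exact ⟨j, fun hj' => absurd hj' hj⟩
      choose k' hk' using h2
      obtain ⟨g, hg⟩ := hι.small i
      obtain ⟨b, hb⟩ := hι.bd (k' ∘ g)
      set k := max b i with hk
      obtain ⟨y₁, hy₁⟩ : (Sum.inr ⁻¹' A k : Set Y).Nonempty := by
        obtain ⟨y, hy, -⟩ := (hA3 k).c2 ∅ (empty_subset _) countable_empty (Classical.arbitrary Y)
        exact ⟨y, hy⟩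
      let B : N → Set Y := fun n => {y | g n < i ∧ y ∈ (f (g n)).2}
      have hB : ∀ n, (B n).Countable := fun n =>
        ((f (g n)).2.countable_toSet).mono fun y hy => hy.2
      obtain ⟨C, hC1, hC2⟩ := exists_enum N y₁ (⋃ n, B n) (mk_countable_iUnion_le B hB)
      have hCk : ∀ n, Sum.inr (C n) ∈ A k := by
        intro n
        rcases hC2 n with h | h
        · obtain ⟨m, hm⟩ := mem_iUnion.mp h
          refine hA1 (k' (g m)) k ?_ (hk' (g m) hm.1 _ hm.2)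
          exact (hb m).le.trans (le_max_left _ _)
        · rw [h]
          exact hy₁
      obtain ⟨x', F, hx', hF, hF2⟩ := hAns2 (A k) C (fun n => e x (C n)) ⟨x, fun _ => rfl⟩ (hA2 k)
      obtain ⟨k₂, hk₂⟩ := hι.countable_bdd (countable_singleton k)
      refine ⟨(x', F), fun j hj y hy => ?_, k, k₂, le_max_right _ _, fun y hy =>
        hA4 k k₂ (hk₂ k rfl) C hCk _ (hF y hy), hF2⟩
      obtain ⟨m, rfl⟩ := hg j hj.le
      obtain ⟨n, rfl⟩ := hC1 (mem_iUnion.mpr ⟨m, hj, hy⟩)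
      rw [hx' n]
      exact hx _ hj _ hy)
  obtain ⟨q, hq⟩ := exists_limit_pt he univ f fun i₁ _ j _ hij => (hf i₁).1 j hij
  have hz := retr_mem he hM q
  obtain ⟨i, hi⟩ := mem_iUnion.mp (hst ι hι _ _ hD hE hA3 hz)
  obtain ⟨-, k, k', hik, hk', hsepk⟩ := hf i
  refine hsepk (retr he hM q) (fun y hy => ?_) (closure_mono (hD hik) hi)
  rw [retr_eq he hM q (mem_iUnion.mpr ⟨k', hk' y hy⟩)]
  exact hq i (mem_univ _) y hy

end Pool.MP_961719_gt
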