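import Pool.Agent.MP_961719_gt.Cover

set_option autoImplicit false

/-!
# Compact spaces without `G_δ`-points have at least `2 ^ ℵ₁` points
-/

namespace Pool.MP_961719_gt

open Set Topology Filter Cardinal

universe u

/-- Nonempty closed `G_δ`-sets. -/
def Zer {X : Type u} [TopologicalSpace X] (H : Set X) : Prop :=
  IsClosed H ∧ IsGδ H ∧ H.Nonempty

theorem exists_split {X : Type u} [TopologicalSpace X] [CompactSpace X] [T2Space X]
    (h : ∀ x : X, ¬ IsGδ ({x} : Set X)) (H : Set X) :
    ∃ s : Bool → Set X, Zer H → (∀ b, Zer (s b) ∧ s b ⊆ H) ∧ Disjoint (s true) (s false) := by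
  by_cases hH : Zer H
  · obtain ⟨h1, h2, x, hx⟩ := id hH
    have h3 : ∃ y ∈ H, y ≠ x := by
      by_contra hc
      push Not at hc
      have : H = {x} := by
        ext y
        exact ⟨fun hy => hc y hy, fun hy => by rw [mem_singleton_iff.mp hy]; exact hx⟩
      exact h x (this ▸ h2)
    obtain ⟨y, hy, hne⟩ := h3
    obtain ⟨f, hf0, hf1, -⟩ := exists_continuous_zero_one_of_isClosed (X := X)
      (isClosed_singleton (x := x)) (isClosed_singleton (x := y))
      (by rw [disjoint_singleton]; exact hne.symm)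
    have hfx : f x = 0 := hf0 rfl
    have hfy : f y = 1 := hf1 rfl
    have hcl : ∀ r : ℝ, IsClosed (H ∩ f ⁻¹' {r}) := fun r =>
      h1.inter (isClosed_singleton.preimage f.continuous)
    have hgd : ∀ r : ℝ, IsGδ (H ∩ f ⁻¹' {r}) := fun r =>
      h2.inter ((isClosed_singleton (x := r)).isGδ.preimage f.continuous)
    refine ⟨fun b => if b then H ∩ f ⁻¹' {1} else H ∩ f ⁻¹' {0}, fun _ => ⟨fun b => ?_, ?_⟩⟩
    · cases b
      · exact ⟨⟨hcl 0, hgd 0, x, hx, hfx⟩, inter_subset_left⟩
      · exact ⟨⟨hcl 1, hgd 1, y, hy, hfy⟩, inter_subset_left⟩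
    · rw [Set.disjoint_left]
      rintro z ⟨-, hz⟩ ⟨-, hz'⟩
      have e1 : f z = 1 := hz
      have e2 : f z = 0 := hz'
      rw [e1] at e2
      exact one_ne_zero e2
  · exact ⟨fun _ => ∅, fun h' => absurd h' hH⟩

theorem nonempty_biInter_of_decreasing {X : Type u} [TopologicalSpace X] [CompactSpace X]
    [Nonempty X] {ι : Type*} [LinearOrder ι] (J : Set ι) (B : ι → Set X)
    (hB : ∀ i ∈ J, IsClosed (B i) ∧ (B i).Nonempty) (hdec : ∀ i ∈ J, ∀ j ∈ J, i < j → B j ⊆ B i) :
    (⋂ i ∈ J, B i).Nonempty := by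
  classical
  obtain ⟨x, -, hx⟩ := (isCompact_univ (X := X)).inter_iInter_nonempty (fun i : J => B i)
    (fun i => (hB i i.2).1)
    (by
      intro v
      rcases v.eq_empty_or_nonempty with rfl | hv
      · simp
      · obtain ⟨m, hm, hmax⟩ := v.exists_max_image id hv
        obtain ⟨x, hx⟩ := (hB m m.2).2
        refine ⟨x, mem_univ _, mem_iInter₂.mpr fun i hi => ?_⟩
        rcases (hmax i hi).eq_or_lt with h | h
        · have : i = m := h
          rw [this]; exact hx
        · exact hdec i i.2 m m.2 h hx)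
  exact ⟨x, mem_iInter₂.mpr fun i hi => mem_iInter.mp hx ⟨i, hi⟩⟩

/-- The inequality of Čech and Pospíšil for `ℵ₁`. -/
theorem two_power_aleph_one_le {X : Type u} [TopologicalSpace X] [CompactSpace X] [T2Space X]
    [Nonempty X] (h : ∀ x : X, ¬ IsGδ ({x} : Set X)) :
    (2 : Cardinal.{u}) ^ Cardinal.aleph 1 ≤ #X := by
  classical
  choose s hs using exists_split h
  have hK : ∀ f : Om1 → Bool, ∃ K : Om1 → Set X, ∀ i, K i = ⋂ j ∈ Iio i, s (K j) (f j) := by
    intro f
    refine exists_rec (ι := Om1) (T := Set X) (fun i g t => t = ⋂ j ∈ Iio i, s (g j) (f j)) ?_ ?_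
    · intro i g g' t hgg h
      rw [h]
      exact iInter₂_congr fun j hj => by rw [hgg j hj]
    · intro i g _
      exact ⟨_, rfl⟩
  choose K hK using hK
  have hZ : ∀ (f : Om1 → Bool) (i : Om1), Zer (K f i) := by
    intro f i
    induction i using (wellFounded_lt (α := Om1)).induction with
    | _ i ih =>
      rw [hK f i]
      have h1 : ∀ j ∈ Iio i, Zer (s (K f j) (f j)) := fun j hj => ((hs _ (ih j hj)).1 _).1
      refine ⟨isClosed_biInter fun j hj => (h1 j hj).1,
        IsGδ.biInter (Om1.countable_Iio i) fun j hj => (h1 j hj).2.1,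
        nonempty_biInter_of_decreasing _ _ (fun j hj => ⟨(h1 j hj).1, (h1 j hj).2.2⟩) ?_⟩
      intro j hj j' hj' hlt
      refine subset_trans ((hs _ (ih j' hj')).1 _).2 ?_
      rw [hK f j']
      exact iInter₂_subset j hlt
  have hpt : ∀ f : Om1 → Bool, (⋂ i ∈ (Set.univ : Set Om1), s (K f i) (f i)).Nonempty := by
    intro f
    refine nonempty_biInter_of_decreasing _ _
      (fun j _ => ⟨((hs _ (hZ f j)).1 _).1.1, ((hs _ (hZ f j)).1 _).1.2.2⟩) ?_
    intro j _ j' _ hlt
    refine subset_trans ((hs _ (hZ f j')).1 _).2 ?_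
    rw [hK f j']
    exact iInter₂_subset j hlt
  choose x hx using hpt
  have hinj : Function.Injective x := by
    intro f g hfg
    by_contra hne
    have hex : {i | f i ≠ g i}.Nonempty := by
      by_contra hc
      rw [not_nonempty_iff_eq_empty] at hc
      apply hne
      funext i
      by_contra hi
      have : i ∈ {i | f i ≠ g i} := hi
      rw [hc] at this
      exact this
    let i := (wellFounded_lt (α := Om1)).min _ hex
    have hi : f i ≠ g i := (wellFounded_lt (α := Om1)).min_mem _ hex
    have hmin : ∀ j < i, f j = g j := by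
      intro j hj
      by_contra hc
      exact (wellFounded_lt (α := Om1)).not_lt_min _ hc hj
    have hKK : ∀ j, j ≤ i → K f j = K g j := by
      intro j
      induction j using (wellFounded_lt (α := Om1)).induction with
      | _ j ih =>
        intro hj
        rw [hK f j, hK g j]
        refine iInter₂_congr fun k hk => ?_
        have hki : k < i := lt_of_lt_of_le hk hj
        rw [ih k hk hki.le, hmin k hki]
    have h1 : x f ∈ s (K f i) (f i) := mem_iInter₂.mp (hx f) i trivial
    have h2 : x g ∈ s (K g i) (g i) := mem_iInter₂.mp (hx g) i trivial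
    rw [← hfg, ← hKK i le_rfl] at h2
    have hd := (hs _ (hZ f i)).2
    cases hfi : f i
    · cases hgi : g i
      · exact hi (hfi.trans hgi.symm)
      · rw [hfi] at h1
        rw [hgi] at h2
        exact Set.disjoint_left.mp hd h2 h1
    · cases hgi : g i
      · rw [hfi] at h1
        rw [hgi] at h2
        exact Set.disjoint_left.mp hd h1 h2
      · exact hi (hfi.trans hgi.symm)
  have h1 : lift.{u} #(Om1 → Bool) ≤ lift.{0} #X := Cardinal.lift_mk_le'.mpr ⟨⟨x, hinj⟩⟩
  have h2 : #(Om1 → Bool) = 2 ^ Cardinal.aleph 1 := by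
    rw [mk_pi, prod_const, mk_Om1, ← aleph_zero, Cardinal.succ_aleph]
    simp
  rw [h2] at h1
  simpa using h1

end Pool.MP_961719_gt
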